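import Pool.Agent.H389R2.NS.S4a
import Pool.Agent.N952.AL.InHq

/-! Pivotal blocks in the near-critical window, uniformly in the domain. -/

set_option autoImplicit false

namespace Pool.Agent.N952.AL

open H974 H12S H389NS H389NS.S4a Finset

theorem DomQ.anti {q : ℝ} {p : Edg → ℝ} {S : Finset Edg} {I J I' J' : Set Vtx} {c : ℤ × ℤ} {t t' : ℕ}
    (h : DomQ q p S I J I' J' c t) (ht : t' ≤ t) : DomQ q p S I J I' J' c t' where
  ok := h.ok
  sub := (blk_mono c ht).trans h.sub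
  fair := fun e he => h.fair e (blk_mono c ht he)
  dom := h.dom
  far := by
    intro v hv
    have := h.far v hv
    omega
  far' := by
    intro v hv
    have := h.far' v hv
    push_cast at this ⊢
    omega

/-- Pivotality of an edge in the middle of the block. -/
theorem pv_le {q : ℝ} (h0 : 0 ≤ q) (h1' : q ≤ 1) {p : Edg → ℝ} {S : Finset Edg} {I J I' J' : Set Vtx} {c : ℤ × ℤ} {k s k' : ℕ}
    (h : DomQ q p S I J I' J' c k) (hk' : 1 ≤ k') (hs : s + k' + 1 ≤ k) {e : Edg}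
    (he : e ∈ blk c s) : Pr p S (fun F => Pv I J e ↑F) ≤ a4 q k' := by
  have hes : |e.1 - c.1| ≤ s ∧ |e.2.1 - c.2| ≤ s := by
    unfold blk at he
    obtain ⟨x, y, _ | _⟩ := e
    · rw [mem_RE_false] at he
      rw [abs_le, abs_le]; simp only; omega
    · rw [mem_RE_true] at he
      rw [abs_le, abs_le]; simp only; omega
  have hsub : ebx e k' ⊆ blk c k := ebx_sub (by omega) (by omega)
  have h1 : Pr p S (fun F => Pv I J e ↑F) ≤ Pr p S (fun F => A4e k' e ↑F) := by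
    apply Pr_mono h.ok
    intro F _ hF
    unfold A4e
    refine loc_a4 (mem_ebx hk') ?_ hF
    intro v hv hcon
    have h3 := h.far v hv
    have i1 := abs_le.mp hes.1
    have i2 := abs_le.mp hes.2
    rcases h3 with h3 | h3
    · rcases le_abs.mp h3 with h4 | h4 <;> omega
    · rcases le_abs.mp h3 with h4 | h4 <;> omega
  have h2 : Pr p S (fun F => A4e k' e ↑F) = Pr p (ebx e k') (fun F => A4e k' e ↑F) := by
    apply Pr_local (hsub.trans h.sub)
    intro F _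
    apply A4e_local
    rw [Finset.coe_inter, Set.inter_assoc, Set.inter_self]
  have h3 : Pr p (ebx e k') (fun F => A4e k' e ↑F) = PQ q (ebx e k') (fun F => A4e k' e ↑F) :=
    congr_p (fun g hg => h.fair g (hsub hg))
  rw [h2, h3] at h1
  exact h1.trans (pr_A4e h0 h1' (subset_refl _))

/-- One step of the recursion. -/
theorem one_step (κ c4 C4 : ℝ) (hκ : 0 < κ) (hc4 : 0 < c4) (hC4 : 0 < C4) :
    ∃ (A r0 : ℕ) (C : ℝ), 1 ≤ A ∧ 1 ≤ r0 ∧ 0 < C ∧ ∀ (q : ℝ) (n : ℕ), Near κ c4 C4 q n →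
      ∀ r : ℕ, r0 ≤ r →
      ∀ (p : Edg → ℝ) (S : Finset Edg) (I J I' J' : Set Vtx) (c : ℤ × ℤ) (k : ℕ),
      k ≤ n → 32 * (A * r) ≤ k → DomQ q p S I J I' J' c k →
      Pr p S (fun F => BPv I J (blk c (A * r - 1)) ↑F) ≤
        (1/100) * Pr p S (fun F => BPv I J (blk c (3 * (A * r))) ↑F) +
        C * (((A * r : ℕ) : ℝ) / k) ^ (5/4 : ℝ) := by
  obtain ⟨A, r0, C, hA, hr0, hC, h⟩ := inward_q κ c4 C4 hκ hc4 hC4 (1/100) (by norm_num)
  refine ⟨A, r0, C * (18 * (C4 * 8 ^ (5/4 : ℝ))), hA, hr0, by positivity, ?_⟩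
  intro q n hN r hr p S I J I' J' c k hkn hk hD
  have h1 := h q n hN r hr (by omega) p S I J I' J' c (DomQ.anti hD (by omega))
  have hr1 : 1 ≤ r := hr0.trans hr
  have hs1 : 1 ≤ A * r := Nat.one_le_iff_ne_zero.2 (by positivity)
  generalize hs : A * r = s at *
  have hk' : 1 ≤ k / 4 := by omega
  have h2 : ∑ e ∈ blk c s, Pr p S (fun F => Pv I J e ↑F) ≤
      (18 * (s:ℝ) ^ 2) * (C4 * ((k / 4 : ℕ) : ℝ) ^ (-(5/4) : ℝ)) := by
    have h3 : ∑ e ∈ blk c s, Pr p S (fun F => Pv I J e ↑F) ≤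
        ((blk c s).card : ℝ) * (C4 * ((k / 4 : ℕ) : ℝ) ^ (-(5/4) : ℝ)) := by
      rw [← nsmul_eq_mul]
      apply Finset.sum_le_card_nsmul
      intro e he
      exact (pv_le (by linarith [hN.win.lo]) (by linarith [hN.win.hi]) hD hk' (by omega) he).trans
        (hN.upp _ hk' (by omega))
    refine h3.trans ?_
    have : (0:ℝ) ≤ C4 * ((k / 4 : ℕ) : ℝ) ^ (-(5/4) : ℝ) := by positivity
    exact mul_le_mul_of_nonneg_right (card_blk c hs1) this
  have hkpos : (0:ℝ) < k := by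
    have : 0 < k := by omega
    exact_mod_cast this
  have hspos : (0:ℝ) < s := by exact_mod_cast hs1
  have h4 : ((k / 4 : ℕ) : ℝ) ^ (-(5/4) : ℝ) ≤ ((k:ℝ) / 8) ^ (-(5/4) : ℝ) := by
    apply Real.rpow_le_rpow_of_nonpos (by positivity) _ (by norm_num)
    have : (k:ℝ) ≤ 8 * ((k / 4 : ℕ) : ℝ) := by
      have : k ≤ 8 * (k / 4) := by omega
      exact_mod_cast this
    linarith
  have h5 : ((k:ℝ) / 8) ^ (-(5/4) : ℝ) = 8 ^ (5/4 : ℝ) * (k:ℝ) ^ (-(5/4) : ℝ) := by
    rw [Real.div_rpow hkpos.le (by norm_num), Real.rpow_neg (by norm_num : (0:ℝ) ≤ 8)]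
    field_simp
  have h6 : (s:ℝ) ^ 2 = (s:ℝ) ^ (3/4 : ℝ) * (s:ℝ) ^ (5/4 : ℝ) := by
    rw [← Real.rpow_add hspos]; norm_num
  have h7 : (((s : ℕ) : ℝ) / k) ^ (5/4 : ℝ) = (s:ℝ) ^ (5/4 : ℝ) * (k:ℝ) ^ (-(5/4) : ℝ) := by
    rw [Real.div_rpow hspos.le hkpos.le, Real.rpow_neg hkpos.le]
    rfl
  have h8 : (Pr p S (fun F => BPv I J (blk c (s - 1)) ↑F) -
        1/100 * Pr p S (fun F => BPv I J (blk c (3 * s)) ↑F)) * ((s : ℕ) : ℝ) ^ (3/4 : ℝ) ≤
      (C * (18 * (C4 * 8 ^ (5/4 : ℝ))) * ((s:ℝ) ^ (5/4 : ℝ) * (k:ℝ) ^ (-(5/4) : ℝ))) *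
        (s:ℝ) ^ (3/4 : ℝ) := by
    refine h1.trans ?_
    calc C * ∑ e ∈ blk c s, Pr p S (fun F => Pv I J e ↑F)
        ≤ C * ((18 * (s:ℝ) ^ 2) * (C4 * ((k / 4 : ℕ) : ℝ) ^ (-(5/4) : ℝ))) := by gcongr
      _ ≤ C * ((18 * (s:ℝ) ^ 2) * (C4 * (8 ^ (5/4 : ℝ) * (k:ℝ) ^ (-(5/4) : ℝ)))) := by
          rw [← h5]; gcongr
      _ = _ := by rw [h6]; ring
  have h9 := le_of_mul_le_mul_right h8 (by positivity)
  rw [h7]
  linarith

/-- The final recursion. -/
theorem blk_q (κ c4 C4 : ℝ) (hκ : 0 < κ) (hc4 : 0 < c4) (hC4 : 0 < C4) :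
    ∃ C : ℝ, 0 < C ∧ ∀ (q : ℝ) (n : ℕ), Near κ c4 C4 q n →
    ∀ (p : Edg → ℝ) (S : Finset Edg) (I J I' J' : Set Vtx)
    (c : ℤ × ℤ) (d k : ℕ), 1 ≤ d → d ≤ k → k ≤ n → DomQ q p S I J I' J' c k →
      Pr p S (fun F => BPv I J (blk c d) ↑F) ≤ C * ((d:ℝ) / k) ^ (5/4 : ℝ) := by
  obtain ⟨A, r0, C2, hA, hr0, hC2, h⟩ := one_step κ c4 C4 hκ hc4 hC4
  set d0 : ℕ := A * (r0 + 4) with hd0
  have hd01 : 1 ≤ d0 := Nat.one_le_iff_ne_zero.2 (by positivity)
  have hAd0 : 4 * A ≤ d0 := by rw [hd0]; nlinarith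
  set K : ℝ := 64 ^ (5/4 : ℝ) + 2 * (C2 * 2 ^ (5/4 : ℝ)) with hK
  have hKpos : 0 < K := by positivity
  -- large d
  have main : ∀ (q : ℝ) (n : ℕ), Near κ c4 C4 q n → ∀ (p : Edg → ℝ) (S : Finset Edg)
      (I J I' J' : Set Vtx) (c : ℤ × ℤ) (k : ℕ), k ≤ n →
      DomQ q p S I J I' J' c k → ∀ N d : ℕ, k ≤ N + d → d0 ≤ d → d ≤ k →
      Pr p S (fun F => BPv I J (blk c d) ↑F) ≤ K * ((d:ℝ) / k) ^ (5/4 : ℝ) := by
    intro q n hNe p S I J I' J' c k hkn hD N
    induction N using Nat.strong_induction_on with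
    | _ N ih =>
      intro d hN hd hdk
      have hd1 : 1 ≤ d := hd01.trans hd
      have hkpos : (0:ℝ) < k := by
        have : 0 < k := by omega
        exact_mod_cast this
      have hdpos : (0:ℝ) < d := by exact_mod_cast hd1
      by_cases hbig : k < 64 * d
      · have h1 := Pr_le_one hD.ok S (fun F => BPv I J (blk c d) ↑F)
        refine h1.trans ?_
        have h2 : (1:ℝ) ≤ 64 ^ (5/4 : ℝ) * ((d:ℝ) / k) ^ (5/4 : ℝ) := by
          rw [← Real.mul_rpow (by norm_num) (by positivity)]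
          apply Real.one_le_rpow _ (by norm_num)
          rw [← mul_div_assoc, le_div_iff₀ hkpos, one_mul]
          exact_mod_cast hbig.le
        refine h2.trans ?_
        gcongr
        rw [hK]
        have : 0 < 2 * (C2 * 2 ^ (5/4 : ℝ)) := by positivity
        linarith
      · push Not at hbig
        -- choose r
        set r : ℕ := (d + A) / A with hr
        have hAr1 : d + 1 ≤ A * r := by
          have h1 := Nat.lt_mul_div_succ d (by omega : 0 < A)
          have h2 : (d + A) / A = d / A + 1 := by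
            rw [Nat.add_div_right d (by omega)]
          rw [hr, h2]
          omega
        have hAr2 : A * r ≤ d + A := by
          rw [hr]; exact Nat.mul_div_le _ _
        have hrr0 : r0 ≤ r := by
          by_contra hcon
          push Not at hcon
          have : A * r ≤ A * r0 := Nat.mul_le_mul_left _ hcon.le
          have : A * r0 ≤ d0 := by rw [hd0]; exact Nat.mul_le_mul_left _ (by omega)
          omega
        have h1 := h q n hNe r hrr0 p S I J I' J' c k hkn (by omega) hD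
        have h2 : Pr p S (fun F => BPv I J (blk c d) ↑F) ≤
            Pr p S (fun F => BPv I J (blk c (A * r - 1)) ↑F) := bpr_mono hD.ok (by omega)
        have h3 : Pr p S (fun F => BPv I J (blk c (3 * (A * r))) ↑F) ≤
            Pr p S (fun F => BPv I J (blk c (4 * d)) ↑F) := bpr_mono hD.ok (by omega)
        have h4 : Pr p S (fun F => BPv I J (blk c (4 * d)) ↑F) ≤
            K * (((4 * d : ℕ):ℝ) / k) ^ (5/4 : ℝ) := by
          have hlt : k - 4 * d < N := by omega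
          exact ih (k - 4 * d) hlt (4 * d) (by omega) (by omega) (by omega)
        have h5 : (((4 * d : ℕ):ℝ) / k) ^ (5/4 : ℝ) = 4 ^ (5/4 : ℝ) * ((d:ℝ) / k) ^ (5/4 : ℝ) := by
          rw [← Real.mul_rpow (by norm_num) (by positivity)]
          congr 1
          push_cast
          ring
        have h6 : (((A * r : ℕ):ℝ) / k) ^ (5/4 : ℝ) ≤
            2 ^ (5/4 : ℝ) * ((d:ℝ) / k) ^ (5/4 : ℝ) := by
          rw [← Real.mul_rpow (by norm_num) (by positivity)]
          apply Real.rpow_le_rpow (by positivity) _ (by norm_num)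
          rw [← mul_div_assoc]
          gcongr
          have : A * r ≤ 2 * d := by omega
          exact_mod_cast this
        have h7 : (4:ℝ) ^ (5/4 : ℝ) ≤ 16 := by
          calc (4:ℝ) ^ (5/4 : ℝ) ≤ (4:ℝ) ^ (2 : ℝ) :=
                Real.rpow_le_rpow_of_exponent_le (by norm_num) (by norm_num)
            _ = 16 := by norm_num
        set X : ℝ := ((d:ℝ) / k) ^ (5/4 : ℝ) with hX
        have hX0 : 0 ≤ X := by positivity
        have h8 : Pr p S (fun F => BPv I J (blk c d) ↑F) ≤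
            (1/100) * (K * (16 * X)) + C2 * (2 ^ (5/4 : ℝ) * X) := by
          calc Pr p S (fun F => BPv I J (blk c d) ↑F)
              ≤ (1/100) * Pr p S (fun F => BPv I J (blk c (3 * (A * r))) ↑F) +
                C2 * (((A * r : ℕ) : ℝ) / k) ^ (5/4 : ℝ) := h2.trans h1
            _ ≤ (1/100) * (K * (4 ^ (5/4 : ℝ) * X)) + C2 * (2 ^ (5/4 : ℝ) * X) := by
                rw [← h5]
                gcongr
                exact h3.trans h4
            _ ≤ (1/100) * (K * (16 * X)) + C2 * (2 ^ (5/4 : ℝ) * X) := by gcongr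
        refine h8.trans ?_
        have h9 : C2 * 2 ^ (5/4 : ℝ) ≤ K / 2 := by
          rw [hK]
          have : (0:ℝ) < 64 ^ (5/4 : ℝ) := by positivity
          linarith
        have h10 : C2 * (2 ^ (5/4 : ℝ) * X) ≤ K / 2 * X := by
          rw [← mul_assoc]
          exact mul_le_mul_of_nonneg_right h9 hX0
        have h11 : 0 ≤ K * X := by positivity
        nlinarith
  -- all d
  refine ⟨(K + 1) * (d0:ℝ) ^ (5/4 : ℝ), by positivity, ?_⟩
  intro q n hNe p S I J I' J' c d k hd hdk hkn hD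
  have hkpos : (0:ℝ) < k := by
    have : 0 < k := by omega
    exact_mod_cast this
  have hdpos : (0:ℝ) < d := by exact_mod_cast hd
  have hd0pos : (0:ℝ) < d0 := by exact_mod_cast hd01
  have hd0X : (1:ℝ) ≤ (d0:ℝ) ^ (5/4 : ℝ) := Real.one_le_rpow (by exact_mod_cast hd01) (by norm_num)
  by_cases h1 : d0 ≤ d
  · refine (main q n hNe p S I J I' J' c k hkn hD k d (by omega) h1 hdk).trans ?_
    have : K ≤ (K + 1) * (d0:ℝ) ^ (5/4 : ℝ) := by nlinarith
    gcongr
  · push Not at h1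
    by_cases h2 : d0 ≤ k
    · have h3 := main q n hNe p S I J I' J' c k hkn hD k d0 (by omega) le_rfl h2
      have h4 : Pr p S (fun F => BPv I J (blk c d) ↑F) ≤
        Pr p S (fun F => BPv I J (blk c d0) ↑F) := bpr_mono hD.ok (by omega)
      refine (h4.trans h3).trans ?_
      have h5 : ((d0:ℝ) / k) ^ (5/4 : ℝ) ≤ (d0:ℝ) ^ (5/4 : ℝ) * ((d:ℝ) / k) ^ (5/4 : ℝ) := by
        rw [← Real.mul_rpow hd0pos.le (by positivity)]
        apply Real.rpow_le_rpow (by positivity) _ (by norm_num)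
        rw [← mul_div_assoc]
        gcongr
        have : (1:ℝ) ≤ d := by exact_mod_cast hd
        nlinarith
      calc K * ((d0:ℝ) / k) ^ (5/4 : ℝ)
          ≤ (K + 1) * ((d0:ℝ) ^ (5/4 : ℝ) * ((d:ℝ) / k) ^ (5/4 : ℝ)) := by
            gcongr
            linarith
        _ = _ := by ring
    · push Not at h2
      refine (Pr_le_one hD.ok S _).trans ?_
      have h5 : (1:ℝ) ≤ (d0:ℝ) ^ (5/4 : ℝ) * ((d:ℝ) / k) ^ (5/4 : ℝ) := by
        rw [← Real.mul_rpow hd0pos.le (by positivity)]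
        apply Real.one_le_rpow _ (by norm_num)
        rw [← mul_div_assoc, le_div_iff₀ hkpos, one_mul]
        have h6 : (k:ℝ) ≤ d0 := by exact_mod_cast h2.le
        have h7 : (1:ℝ) ≤ d := by exact_mod_cast hd
        nlinarith
      calc (1:ℝ) ≤ (d0:ℝ) ^ (5/4 : ℝ) * ((d:ℝ) / k) ^ (5/4 : ℝ) := h5
        _ ≤ (K + 1) * ((d0:ℝ) ^ (5/4 : ℝ) * ((d:ℝ) / k) ^ (5/4 : ℝ)) := by
            have : 0 ≤ K * ((d0:ℝ) ^ (5/4 : ℝ) * ((d:ℝ) / k) ^ (5/4 : ℝ)) := by positivity
            linarith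
        _ = _ := by ring

end Pool.Agent.N952.AL
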