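import Pool.Agent.H389R2.NS.S4b
import Pool.Agent.N952.AL.Blkq

/-! Exit for blocks in the near-critical window. -/

set_option autoImplicit false

namespace Pool.Agent.N952.AL

open H974 H12S H389NS EP2 SB Finset

/-- S4b: exit for blocks. -/
theorem exit_q (κ : ℝ) (hκ : 0 < κ) : ∃ (C c : ℝ), 0 < C ∧ 0 < c ∧ ∀ (L : ℕ) (δ : ℝ), 2 ≤ L →
    0 < δ → ∃ M1 M20 : ℕ, 64 ≤ M1 ∧ 8 * M1 ≤ M20 ∧ ∀ M2 : ℕ, M20 ≤ M2 → ∃ N : ℕ,
      ∀ (q : ℝ) (n : ℕ), Win q κ n → ∀ m d : ℕ,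
      64 * M2 ≤ m → 1 ≤ d → 64 * d ≤ m → 4 * L * m ≤ n →
      PQ q (SR L m) (fun F => ∃ u ∈ bdB (0, 0) d, ∃ u' ∈ bdB (0, 0) d,
          (∃ w ∈ bdR (-(2 * L * m : ℕ)) (2 * L * m : ℕ) (-m) m,
            Reach ((↑F : Set Edg) \ ↑(boxE d)) u w) ∧
          (∃ w ∈ bdR (-(2 * L * m : ℕ)) (2 * L * m : ℕ) (-m) m,
            Reach ((↑F : Set Edg) \ ↑(boxE d)) u' w) ∧
          ¬ Reach ((↑F : Set Edg) \ ↑(boxE d)) u u') ≤
        (∑ p ∈ prs L m (m / M2) N, PQ q (SR L m) (fun F =>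
          (p.1.1 = p.2.1 → 4 * ((m / M2 : ℕ):ℤ) <
            |2 * ((m / M2 : ℕ):ℤ) * p.1.2 - 2 * ((m / M2 : ℕ):ℤ) * p.2.2|) ∧
          BPv (cell p.1.1 m (2 * (m / M2 : ℕ) * p.1.2) (m / M2))
            (cell p.2.1 m (2 * (m / M2 : ℕ) * p.2.2) (m / M2)) (boxE d) ↑F)) +
        (δ + C * Real.exp (-c * L)) *
          PQ q (boxE (m / 8)) (fun F => A4a (0, 0) d (m / 8) ↑F) := by
  classical
  obtain ⟨C1, c1, hC1, hc1, H3⟩ := H3s_prob κ hκ
  obtain ⟨C2, c2, hC2, hc2, HE⟩ := end_blk κ hκ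
  refine ⟨C2, c2, hC2, hc2, ?_⟩
  intro L δ hL hδ
  obtain ⟨M1, hM1, hM1b⟩ := choose_M (4 * L) 10 C1 20 (by positivity) (by norm_num) hC1.le
    (by norm_num) hc1 (half_pos hδ) 64
  obtain ⟨M20, hM20, hM20b⟩ := choose_M_all (4 * L) 6 C1 (2 * M1) (by positivity) (by norm_num)
    hC1.le (by positivity) hc1 (half_pos hδ) (8 * M1)
  refine ⟨M1, M20, hM1, hM20, ?_⟩
  intro M2 hM2M
  have hM2 : 8 * M1 ≤ M2 := hM20.trans hM2M
  have hM2b := hM20b M2 hM2M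
  refine ⟨L * M2 + 1, ?_⟩
  intro q n hW m d hm64M hd1 hd hn
  have hm : M2 ≤ m := by omega
  obtain ⟨h0, h1⟩ := win01 hW
  change PQ q (SR L m) (fun F => Bev L m d ↑F) ≤ _
  obtain ⟨h, hh⟩ : ∃ h : ℝ, h = PQ q (boxE (m / 8)) (fun F => A4a (0, 0) d (m / 8) ↑F) :=
    ⟨_, rfl⟩
  have a4n : 0 ≤ h := by rw [hh]; exact Pr_nonneg (okq h0 h1) _ _
  obtain ⟨r, hr⟩ : ∃ r : ℕ, r = m / M2 := ⟨_, rfl⟩
  obtain ⟨ρ, hρ⟩ : ∃ ρ : ℕ, ρ = m / M1 := ⟨_, rfl⟩
  have hr1 : 1 ≤ r := by rw [hr]; exact (Nat.one_le_div_iff (by omega)).mpr hm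
  have hρ1 : 1 ≤ ρ := by rw [hρ]; exact (Nat.one_le_div_iff (by omega)).mpr (by omega)
  have hmul1 : M1 * ρ ≤ m := by rw [hρ]; exact Nat.mul_div_le m M1
  have hmul2 : M2 * r ≤ m := by rw [hr]; exact Nat.mul_div_le m M2
  have hlt1 : m < M1 * ρ + M1 := by
    rw [hρ]
    have := Nat.div_add_mod m M1
    have := Nat.mod_lt m (show M1 > 0 by omega)
    omega
  have hlt2 : m < M2 * r + M2 := by
    rw [hr]
    have := Nat.div_add_mod m M2
    have := Nat.mod_lt m (show M2 > 0 by omega)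
    omega
  have h64 : 64 * ρ ≤ m := le_trans (Nat.mul_le_mul_right ρ hM1) hmul1
  have h8 : 8 * r ≤ ρ := by
    have : 8 * r * M1 ≤ m := by
      calc 8 * r * M1 = 8 * M1 * r := by ring
        _ ≤ M2 * r := Nat.mul_le_mul_right r hM2
        _ ≤ m := hmul2
    rw [hρ]
    exact (Nat.le_div_iff_mul_le (by omega)).mpr this
  have hm64 : 64 ≤ m := by omega
  have hLm : 2 * m ≤ L * m := Nat.mul_le_mul_right m hL
  have hLm2 : 2 * L * m = 2 * (L * m) := by ring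
  have hLm4 : 4 * L * m = 4 * (L * m) := by ring
  simp only [← hr, ← hh]
  set K1 : Finset ℤ := (Icc (-((L * M2 + 1 : ℕ) : ℤ)) ((L * M2 + 1 : ℕ) : ℤ)).filter
    (fun k => |2 * r * k| ≤ (L * m : ℕ) + (r:ℤ)) with hK1
  set K2 : Finset ℤ := (Icc (-((L * M1 + 2 : ℕ) : ℤ)) ((L * M1 + 2 : ℕ) : ℤ)).filter
    (fun k => |4 * ρ * k| ≤ (L * m : ℕ) + 8 * (ρ:ℤ)) with hK2
  have mK1 : ∀ k : ℤ, |2 * r * k| ≤ (L * m : ℕ) + (r:ℤ) → k ∈ K1 := by
    intro k hk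
    rw [hK1, Finset.mem_filter]
    refine ⟨?_, hk⟩
    rw [Finset.mem_Icc, ← abs_le]
    rw [abs_mul, abs_of_nonneg (by positivity : (0:ℤ) ≤ 2 * r)] at hk
    by_contra hcon
    push Not at hcon
    have h3 : ((L * M2 + 2 : ℕ) : ℤ) ≤ |k| := by
      push_cast at hcon ⊢
      linarith
    have h4 : (2 * r : ℤ) * ((L * M2 + 2 : ℕ) : ℤ) ≤ 2 * r * |k| :=
      mul_le_mul_of_nonneg_left h3 (by positivity)
    have h5 : L * m ≤ L * (M2 * r + M2) := Nat.mul_le_mul_left L hlt2.le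
    have h6 : L * M2 ≤ L * M2 * r := Nat.le_mul_of_pos_right _ (by omega)
    have h7 : (2 * r : ℤ) * ((L * M2 + 2 : ℕ) : ℤ) ≤ (L * m : ℕ) + (r:ℤ) := h4.trans hk
    have h8' : 2 * r * (L * M2 + 2) ≤ L * m + r := by exact_mod_cast h7
    have h9 : 2 * r * (L * M2 + 2) = 2 * (L * M2 * r) + 4 * r := by ring
    have h10 : L * (M2 * r + M2) = L * M2 * r + L * M2 := by ring
    omega
  have mK2 : ∀ k : ℤ, |4 * ρ * k| ≤ (L * m : ℕ) + 8 * (ρ:ℤ) → k ∈ K2 := by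
    intro k hk
    rw [hK2, Finset.mem_filter]
    refine ⟨?_, hk⟩
    rw [Finset.mem_Icc, ← abs_le]
    rw [abs_mul, abs_of_nonneg (by positivity : (0:ℤ) ≤ 4 * ρ)] at hk
    by_contra hcon
    push Not at hcon
    have h3 : ((L * M1 + 3 : ℕ) : ℤ) ≤ |k| := by
      push_cast at hcon ⊢
      linarith
    have h4 : (4 * ρ : ℤ) * ((L * M1 + 3 : ℕ) : ℤ) ≤ 4 * ρ * |k| :=
      mul_le_mul_of_nonneg_left h3 (by positivity)
    have h5 : L * m ≤ L * (M1 * ρ + M1) := Nat.mul_le_mul_left L hlt1.le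
    have h6 : L * M1 ≤ L * M1 * ρ := Nat.le_mul_of_pos_right _ (by omega)
    have h7 : (4 * ρ : ℤ) * ((L * M1 + 3 : ℕ) : ℤ) ≤ (L * m : ℕ) + 8 * (ρ:ℤ) := h4.trans hk
    have h8' : 4 * ρ * (L * M1 + 3) ≤ L * m + 8 * ρ := by exact_mod_cast h7
    have h9 : 4 * ρ * (L * M1 + 3) = 4 * (L * M1 * ρ) + 12 * ρ := by ring
    have h10 : L * (M1 * ρ + M1) = L * M1 * ρ + L * M1 := by ring
    omega
  obtain ⟨T, hT⟩ : ∃ T : ((Bool × ℤ) × (Bool × ℤ)) → Finset Edg → Prop,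
      T = fun (p : (Bool × ℤ) × (Bool × ℤ)) (F : Finset Edg) =>
      (p.1.1 = p.2.1 → 4 * (r:ℤ) < |2 * (r:ℤ) * p.1.2 - 2 * (r:ℤ) * p.2.2|) ∧
          BPv (cell p.1.1 m (2 * r * p.1.2) r) (cell p.2.1 m (2 * r * p.2.2) r) (boxE d) ↑F :=
    ⟨_, rfl⟩
  obtain ⟨E1, hE1⟩ : ∃ E1 : Finset Edg → Prop, E1 = fun (F : Finset Edg) => Bev L m d ↑F ∧
          ∃ u v : Vtx, |u.1| ≤ m ∧ |u.2| ≤ m ∧ Reach ((↑F : Set Edg) \ ↑(boxE d)) u v ∧
          (L * m : ℕ) ≤ |v.1| := ⟨_, rfl⟩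
  obtain ⟨E2, hE2⟩ : ∃ E2 : Finset Edg → Prop, E2 = fun (F : Finset Edg) => ∃ s ∈ (univ : Finset Bool) ×ˢ K1,
      Bev L m d ↑F ∧ H3s s.1 m (2 * r * s.2) r ρ ↑F := ⟨_, rfl⟩
  obtain ⟨E3, hE3⟩ : ∃ E3 : Finset Edg → Prop, E3 = fun (F : Finset Edg) => ∃ s ∈ (univ : Finset Bool) ×ˢ K2,
      Bev L m d ↑F ∧ H3s s.1 m (4 * ρ * s.2) (8 * ρ) (m / 2) ↑F := ⟨_, rfl⟩
  -- union bound
  have hub : PQ q (SR L m) (fun F => Bev L m d ↑F) ≤
      PQ q (SR L m) (fun F => (∃ p ∈ prs L m r (L * M2 + 1), T p F) ∨ (E1 F ∨ (E2 F ∨ E3 F))) := by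
    apply Pr_mono (okq h0 h1)
    intro F hF hA
    by_contra hcon
    push Not at hcon
    obtain ⟨hQ, hEnd, hS, hB⟩ := hcon
    rw [hT] at hQ
    rw [hE1] at hEnd
    rw [hE2] at hS
    rw [hE3] at hB
    push Not at hEnd hS hB
    have hF' : (↑F : Set Edg) ⊆ ↑(RE (-(2 * L * m : ℕ)) (2 * L * m : ℕ) (-m) m) := by
      exact_mod_cast hF
    obtain ⟨σ, σ', k, k', hk, hk', hQe⟩ := exit_det_blk hL hr1 h8 h64 hd hF' hA
      (fun u v hu1 hu2 hr0 => by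
        exact hEnd hA u v hu1 hu2 hr0)
      (fun σ k hk => hS (σ, k) (Finset.mem_product.mpr ⟨Finset.mem_univ _, mK1 k hk⟩) hA)
      (fun σ k hk => hB (σ, k) (Finset.mem_product.mpr ⟨Finset.mem_univ _, mK2 k hk⟩) hA)
    refine hQ ((σ, k), (σ', k')) ?_ hQe
    have m1 := mK1 k hk
    have m2 := mK1 k' hk'
    rw [hK1, Finset.mem_filter] at m1 m2
    unfold prs
    rw [Finset.mem_filter, Finset.mem_product, Finset.mem_product, Finset.mem_product]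
    exact ⟨⟨⟨Finset.mem_univ _, m1.1⟩, ⟨Finset.mem_univ _, m2.1⟩⟩, hk, hk'⟩
  have b1 := pr_biUnion h0 h1 (SR L m) (prs L m r (L * M2 + 1)) T
  have b2 : PQ q (SR L m) E1 ≤ h * (C2 * Real.exp (-c2 * L)) := by
    rw [hE1, hh]
    exact HE q n hW m L d hm64 hL (by omega) hd
  -- small events
  have b3 : PQ q (SR L m) E2 ≤ δ / 2 * h := by
    rw [hE2]
    refine (pr_biUnion h0 h1 (SR L m) _ _).trans ?_
    have hterm : ∀ s ∈ (univ : Finset Bool) ×ˢ K1, PQ q (SR L m) (fun F =>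
        Bev L m d ↑F ∧ H3s s.1 m (2 * r * s.2) r ρ ↑F) ≤
        h * (C1 * (2 * M1 / M2) ^ (1 + c1)) := by
      rintro ⟨σ, k⟩ hs
      rw [Finset.mem_product, hK1, Finset.mem_filter] at hs
      obtain ⟨-, -, hk⟩ := hs
      rw [hh]
      refine (term_blk H3 hW hL hm64 hd hr1 (by omega) (by omega) (by omega) σ ?_).trans ?_
      · simp only at hk ⊢
        push_cast at hk ⊢
        have h3 : ((2 * m : ℕ) : ℤ) ≤ ((L * m : ℕ) : ℤ) := by exact_mod_cast hLm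
        push_cast at h3
        have h4 : (64 * ρ : ℤ) ≤ m := by exact_mod_cast h64
        have h5 : (8 * r : ℤ) ≤ ρ := by exact_mod_cast h8
        have h6 : (0:ℤ) ≤ r := by positivity
        have h7 : (0:ℤ) ≤ ρ := by positivity
        linarith
      · rw [← hh]
        refine mul_le_mul_of_nonneg_left (mul_le_mul_of_nonneg_left (ratio_le (by positivity) ?_ hc1)
          hC1.le) a4n
        have h3 : (r:ℝ) ≤ m / M2 := by rw [hr]; exact Nat.cast_div_le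
        have h4 : (m:ℝ) / (2 * M1) ≤ ρ := by rw [hρ]; exact div_ge (by omega) (by omega)
        have hM1p : (0:ℝ) < M1 := by exact_mod_cast (by omega : 0 < M1)
        have hM2p : (0:ℝ) < M2 := by exact_mod_cast (by omega : 0 < M2)
        have hmp : (0:ℝ) < m := by exact_mod_cast (by omega : 0 < m)
        have hρp : (0:ℝ) < ρ := by exact_mod_cast (by omega : 0 < ρ)
        calc (r:ℝ) / ρ ≤ (m / M2) / (m / (2 * M1)) :=
              div_le_div₀ (by positivity) h3 (by positivity) h4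
          _ = 2 * M1 / M2 := by field_simp
    refine (Finset.sum_le_sum hterm).trans ?_
    rw [Finset.sum_const, nsmul_eq_mul]
    have hcard : ((((univ : Finset Bool) ×ˢ K1).card : ℕ) : ℝ) ≤ 4 * L * M2 + 6 := by
      rw [Finset.card_product, Finset.card_univ, Fintype.card_bool]
      have h3 : K1.card ≤ 2 * (L * M2 + 1) + 1 := by
        refine (Finset.card_filter_le _ _).trans ?_
        rw [Int.card_Icc]
        omega
      calc (((2 * K1.card : ℕ)) : ℝ) ≤ ((2 * (2 * (L * M2 + 1) + 1) : ℕ) : ℝ) := by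
            exact_mod_cast Nat.mul_le_mul_left 2 h3
        _ = 4 * L * M2 + 6 := by push_cast; ring
    have hpos : 0 ≤ h * (C1 * (2 * (M1:ℝ) / M2) ^ (1 + c1)) := by positivity
    calc _ ≤ (4 * L * M2 + 6) * (h * (C1 * (2 * (M1:ℝ) / M2) ^ (1 + c1))) :=
          mul_le_mul_of_nonneg_right hcard hpos
      _ = ((4 * L * M2 + 6) * (C1 * (2 * (M1:ℝ) / M2) ^ (1 + c1))) * h := by ring
      _ ≤ δ / 2 * h := mul_le_mul_of_nonneg_right hM2b a4n
  -- big events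
  have b4 : PQ q (SR L m) E3 ≤ δ / 2 * h := by
    rw [hE3]
    refine (pr_biUnion h0 h1 (SR L m) _ _).trans ?_
    have hterm : ∀ s ∈ (univ : Finset Bool) ×ˢ K2, PQ q (SR L m) (fun F =>
        Bev L m d ↑F ∧ H3s s.1 m (4 * ρ * s.2) (8 * ρ) (m / 2) ↑F) ≤
        h * (C1 * (20 / M1) ^ (1 + c1)) := by
      rintro ⟨σ, k⟩ hs
      rw [Finset.mem_product, hK2, Finset.mem_filter] at hs
      obtain ⟨-, -, hk⟩ := hs
      rw [hh]
      refine (term_blk H3 hW hL hm64 hd (by omega) (by omega) (by omega) (by omega) σ ?_).trans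
        ?_
      · simp only at hk ⊢
        have h2' : ((m / 2 : ℕ) : ℤ) ≤ m := by exact_mod_cast Nat.div_le_self m 2
        have h3 : ((2 * m : ℕ) : ℤ) ≤ ((L * m : ℕ) : ℤ) := by exact_mod_cast hLm
        have h4 : (64 * ρ : ℤ) ≤ m := by exact_mod_cast h64
        have h7 : (0:ℤ) ≤ ρ := by positivity
        have h9 : ((2 * L * m : ℕ) : ℤ) = 2 * ((L * m : ℕ) : ℤ) := by push_cast; ring
        rw [h9]
        push_cast at hk h3 ⊢
        push_cast at h2'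
        linarith
      · rw [← hh]
        refine mul_le_mul_of_nonneg_left (mul_le_mul_of_nonneg_left (ratio_le (by positivity) ?_ hc1)
          hC1.le) a4n
        have h3 : (ρ:ℝ) ≤ m / M1 := by rw [hρ]; exact Nat.cast_div_le
        have h4 : (2:ℝ) / 5 * m ≤ ((m / 2 : ℕ) : ℝ) := by
          have h5 : 2 * m ≤ 5 * (m / 2) := by omega
          have h6 : (2:ℝ) * m ≤ 5 * ((m / 2 : ℕ) : ℝ) := by exact_mod_cast h5
          linarith
        have hM1p : (0:ℝ) < M1 := by exact_mod_cast (by omega : 0 < M1)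
        have hmp : (0:ℝ) < m := by exact_mod_cast (by omega : 0 < m)
        have h5 : ((8 * ρ : ℕ) : ℝ) ≤ 8 * (m / M1) := by
          push_cast
          linarith
        calc ((8 * ρ : ℕ) : ℝ) / ((m / 2 : ℕ) : ℝ) ≤ (8 * (m / M1)) / (2 / 5 * m) :=
              div_le_div₀ (by positivity) h5 (by positivity) h4
          _ = 20 / M1 := by field_simp; norm_num
    refine (Finset.sum_le_sum hterm).trans ?_
    rw [Finset.sum_const, nsmul_eq_mul]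
    have hcard : ((((univ : Finset Bool) ×ˢ K2).card : ℕ) : ℝ) ≤ 4 * L * M1 + 10 := by
      rw [Finset.card_product, Finset.card_univ, Fintype.card_bool]
      have h3 : K2.card ≤ 2 * (L * M1 + 2) + 1 := by
        refine (Finset.card_filter_le _ _).trans ?_
        rw [Int.card_Icc]
        omega
      calc (((2 * K2.card : ℕ)) : ℝ) ≤ ((2 * (2 * (L * M1 + 2) + 1) : ℕ) : ℝ) := by
            exact_mod_cast Nat.mul_le_mul_left 2 h3
        _ = 4 * L * M1 + 10 := by push_cast; ring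
    have hpos : 0 ≤ h * (C1 * (20 / (M1:ℝ)) ^ (1 + c1)) := by positivity
    calc _ ≤ (4 * L * M1 + 10) * (h * (C1 * (20 / (M1:ℝ)) ^ (1 + c1))) :=
          mul_le_mul_of_nonneg_right hcard hpos
      _ = ((4 * L * M1 + 10) * (C1 * (20 / (M1:ℝ)) ^ (1 + c1))) * h := by ring
      _ ≤ δ / 2 * h := mul_le_mul_of_nonneg_right hM1b a4n
  have c1' := Pr_or_le (okq h0 h1) (SR L m) (fun F => ∃ p ∈ prs L m r (L * M2 + 1), T p F)
    (fun F => E1 F ∨ (E2 F ∨ E3 F))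
  have c2' := Pr_or_le (okq h0 h1) (SR L m) E1 (fun F => E2 F ∨ E3 F)
  have c3' := Pr_or_le (okq h0 h1) (SR L m) E2 E3
  have e1 : (δ + C2 * Real.exp (-c2 * L)) * h =
      h * (C2 * Real.exp (-c2 * L)) + (δ / 2 * h + δ / 2 * h) := by
    ring
  rw [e1]
  rw [hT] at b1
  rw [hT] at hub c1'
  exact hub.trans (c1'.trans (add_le_add b1 (c2'.trans (add_le_add b2 (c3'.trans
    (add_le_add b3 b4))))))

end Pool.Agent.N952.AL
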