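import Mathlib

/-! Elementary sums. -/

set_option autoImplicit false

namespace Pool.Agent.N952.AL

open Finset

/-- `Σ_{k<N} (k+1)^(-a) ≤ N^(1-a)/(1-a)`. -/
theorem sum_pow {a : ℝ} (h0 : 0 < a) (h1 : a < 1) (N : ℕ) :
    ∑ k ∈ range N, ((k:ℝ) + 1) ^ (-a) ≤ (N:ℝ) ^ (1 - a) / (1 - a) := by
  have ha : 0 < 1 - a := by linarith
  induction N with
  | zero => simp [Real.zero_rpow ha.ne']
  | succ N ih =>
    rw [sum_range_succ]
    have hN : (0:ℝ) < (N:ℝ) + 1 := by positivity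
    have key : ((N:ℝ) + 1) ^ (-a) ≤ (((N:ℝ) + 1) ^ (1 - a) - (N:ℝ) ^ (1 - a)) / (1 - a) := by
      rw [le_div_iff₀ ha]
      have hb := rpow_one_add_le_one_add_mul_self (s := -(1 / ((N:ℝ) + 1))) (p := 1 - a)
        (by
          have : 1 / ((N:ℝ) + 1) ≤ 1 := by
            rw [div_le_one hN]; linarith [(Nat.cast_nonneg N : (0:ℝ) ≤ N)]
          linarith) ha.le (by linarith)
      have e1 : 1 + -(1 / ((N:ℝ) + 1)) = (N:ℝ) / ((N:ℝ) + 1) := by field_simp; ring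
      rw [e1, Real.div_rpow (by positivity) hN.le, div_le_iff₀ (by positivity)] at hb
      have e2 : ((N:ℝ) + 1) ^ (1 - a) = ((N:ℝ) + 1) * ((N:ℝ) + 1) ^ (-a) := by
        rw [← Real.rpow_one_add' hN.le (by linarith)]
        congr 1
      have e3 : (1 + (1 - a) * -(1 / ((N:ℝ) + 1))) * ((N:ℝ) + 1) ^ (1 - a) =
          ((N:ℝ) + 1) ^ (1 - a) - (1 - a) * ((N:ℝ) + 1) ^ (-a) := by
        rw [e2]; field_simp; ring
      rw [e3] at hb
      linarith
    push_cast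
    calc _ ≤ (N:ℝ) ^ (1 - a) / (1 - a) + (((N:ℝ) + 1) ^ (1 - a) - (N:ℝ) ^ (1 - a)) / (1 - a) :=
          add_le_add ih key
      _ = _ := by ring

end Pool.Agent.N952.AL
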