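import Pool.Agent.N952.AL.Geo
import Pool.Agent.N952.AL.Num

/-! Sums over the torus. -/

set_option autoImplicit false

namespace Pool.Agent.N952.AL

open Finset

theorem card_nz {n : ℕ} [NeZero n] (k : ℕ) :
    ((univ : Finset (ZMod n)).filter (fun z => nz n z = k)).card ≤ 2 := by
  have hsub : (univ : Finset (ZMod n)).filter (fun z => nz n z = k) ⊆
      {((k:ℤ) : ZMod n), ((-(k:ℤ) : ℤ) : ZMod n)} := by
    intro z hz
    rw [mem_filter] at hz
    have h := hz.2
    unfold nz at h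
    rw [mem_insert, mem_singleton]
    rcases Int.natAbs_eq z.valMinAbs with h' | h'
    · left
      rw [← h, ← h', ZMod.coe_valMinAbs]
    · right
      rw [← h, ← h', ZMod.coe_valMinAbs]
  exact (card_le_card hsub).trans card_le_two

theorem sum_nz {n : ℕ} [NeZero n] (h : ℕ → ℝ) (h0 : ∀ k, 0 ≤ h k) (R : ℕ) :
    ∑ z : ZMod n, (if nz n z ≤ R then h (nz n z) else 0) ≤ 2 * ∑ k ∈ range (R + 1), h k := by
  classical
  rw [← sum_filter, mul_sum]
  have hm : ∀ z ∈ (univ : Finset (ZMod n)).filter (fun z => nz n z ≤ R),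
      nz n z ∈ range (R + 1) := by
    intro z hz
    rw [mem_filter] at hz
    rw [mem_range]
    omega
  rw [← sum_fiberwise_of_maps_to hm]
  apply sum_le_sum
  intro k _
  have e : ∑ z ∈ ((univ : Finset (ZMod n)).filter (fun z => nz n z ≤ R)).filter
      (fun z => nz n z = k), h (nz n z) = (((univ : Finset (ZMod n)).filter
      (fun z => nz n z ≤ R)).filter (fun z => nz n z = k)).card * h k := by
    rw [sum_congr rfl (g := fun _ => h k), sum_const, nsmul_eq_mul]
    intro z hz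
    rw [mem_filter] at hz
    rw [hz.2]
  rw [e]
  refine mul_le_mul_of_nonneg_right ?_ (h0 k)
  have : (((univ : Finset (ZMod n)).filter (fun z => nz n z ≤ R)).filter
      (fun z => nz n z = k)).card ≤ 2 :=
    (card_le_card (filter_subset_filter _ (subset_univ _))).trans (card_nz k)
  exact_mod_cast this

theorem sum_td {a : ℝ} (h0 : 0 < a) (h1 : a < 1) (n : ℕ) [NeZero n] (f : TEd n) (R : ℕ) :
    ∑ g : TEd n, (if td n f g ≤ R then ((td n f g : ℝ) + 1) ^ (-(2 * a)) else 0) ≤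
      8 / (1 - a) ^ 2 * ((R:ℝ) + 1) ^ (2 * (1 - a)) := by
  have ha : 0 < 1 - a := by linarith
  set φ : ZMod n → ℝ := fun z => if nz n z ≤ R then ((nz n z : ℝ) + 1) ^ (-a) else 0 with hφ
  have φ0 : ∀ z, 0 ≤ φ z := by
    intro z
    simp only [hφ]
    split_ifs
    · positivity
    · exact le_refl 0
  have hs : ∑ z : ZMod n, φ z ≤ 2 * (((R:ℝ) + 1) ^ (1 - a) / (1 - a)) := by
    refine (sum_nz (n := n) (fun k => ((k:ℝ) + 1) ^ (-a)) (fun k => by positivity) R).trans ?_
    have := sum_pow h0 h1 (R + 1)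
    push_cast at this
    linarith
  have hs1 : ∀ c : ZMod n, ∑ z : ZMod n, φ (c - z) = ∑ z : ZMod n, φ z := fun c =>
    Equiv.sum_comp (Equiv.subLeft c) φ
  have pt : ∀ g : TEd n, (if td n f g ≤ R then ((td n f g : ℝ) + 1) ^ (-(2 * a)) else 0) ≤
      φ (f.1 - g.1) * φ (f.2.1 - g.2.1) := by
    intro g
    split_ifs with h
    · have e1 : nz n (f.1 - g.1) ≤ td n f g := le_max_left _ _
      have e2 : nz n (f.2.1 - g.2.1) ≤ td n f g := le_max_right _ _
      simp only [hφ]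
      rw [if_pos (e1.trans h), if_pos (e2.trans h)]
      have e3 : ((td n f g : ℝ) + 1) ^ (-(2 * a)) =
          ((td n f g : ℝ) + 1) ^ (-a) * ((td n f g : ℝ) + 1) ^ (-a) := by
        rw [← Real.rpow_add (by positivity)]
        congr 1; ring
      rw [e3]
      have g1 : ((td n f g : ℝ) + 1) ^ (-a) ≤ ((nz n (f.1 - g.1) : ℝ) + 1) ^ (-a) := by
        apply Real.rpow_le_rpow_of_nonpos (by positivity) _ (by linarith)
        have : ((nz n (f.1 - g.1) : ℕ) : ℝ) ≤ (td n f g : ℝ) := by exact_mod_cast e1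
        linarith
      have g2 : ((td n f g : ℝ) + 1) ^ (-a) ≤ ((nz n (f.2.1 - g.2.1) : ℝ) + 1) ^ (-a) := by
        apply Real.rpow_le_rpow_of_nonpos (by positivity) _ (by linarith)
        have : ((nz n (f.2.1 - g.2.1) : ℕ) : ℝ) ≤ (td n f g : ℝ) := by exact_mod_cast e2
        linarith
      exact mul_le_mul g1 g2 (by positivity) (by positivity)
    · exact mul_nonneg (φ0 _) (φ0 _)
  refine (sum_le_sum fun g _ => pt g).trans ?_
  rw [Fintype.sum_prod_type]
  simp only [Fintype.sum_prod_type, Fintype.sum_bool]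
  have e4 : ∀ x : ZMod n, ∑ y : ZMod n, (φ (f.1 - x) * φ (f.2.1 - y) + φ (f.1 - x) * φ (f.2.1 - y))
      = 2 * φ (f.1 - x) * ∑ z : ZMod n, φ z := by
    intro x
    rw [← hs1 f.2.1, mul_sum]
    apply sum_congr rfl
    intro y _
    ring
  rw [sum_congr rfl (fun x _ => e4 x), ← sum_mul, ← mul_sum, hs1]
  have hS0 : 0 ≤ ∑ z : ZMod n, φ z := sum_nonneg fun z _ => φ0 z
  have e5 : 8 / (1 - a) ^ 2 * ((R:ℝ) + 1) ^ (2 * (1 - a)) =
      2 * (2 * (((R:ℝ) + 1) ^ (1 - a) / (1 - a))) * (2 * (((R:ℝ) + 1) ^ (1 - a) / (1 - a))) := by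
    have : ((R:ℝ) + 1) ^ (2 * (1 - a)) = ((R:ℝ) + 1) ^ (1 - a) * ((R:ℝ) + 1) ^ (1 - a) := by
      rw [← Real.rpow_add (by positivity)]
      congr 1; ring
    rw [this]
    field_simp
    ring
  rw [e5]
  gcongr

end Pool.Agent.N952.AL
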