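import Pool.Agent.N952.AL.Prob
import Pool.Agent.N952.AL.SumT
import Pool.Agent.H973R3.NC.ES

/-! The bound for the probability of three pivotal edges in the torus. -/

set_option autoImplicit false

namespace Pool.Agent.N952.AL

open H974 H12S H389NS H973N Finset

theorem quarter (r : ℕ) (h : 1 ≤ r / 4) : ((r:ℝ) + 1) / 8 ≤ ((r / 4 : ℕ) : ℝ) := by
  rw [div_le_iff₀ (by norm_num)]
  have : r + 1 ≤ (r / 4) * 8 := by omega
  exact_mod_cast this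

theorem f4_le {C q : ℝ} {n : ℕ} (hC : 1 ≤ C) (hB : Bd C q n) {ρ : ℕ} (hρ : ρ ≤ n) :
    f4 q (ρ / 4) ≤ C * 8 ^ (5/4 : ℝ) * ((ρ:ℝ) + 1) ^ (-(5/4) : ℝ) := by
  have e : C * 8 ^ (5/4 : ℝ) * ((ρ:ℝ) + 1) ^ (-(5/4) : ℝ) =
      C * (((ρ:ℝ) + 1) / 8) ^ (-(5/4) : ℝ) := by
    rw [Real.div_rpow (by positivity) (by norm_num), Real.rpow_neg (by norm_num : (0:ℝ) ≤ 8)]
    field_simp
  rw [e]
  unfold f4
  split_ifs with h
  · refine (hB.a _ h (by omega)).trans ?_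
    refine mul_le_mul_of_nonneg_left ?_ (by linarith)
    exact Real.rpow_le_rpow_of_nonpos (by positivity) (quarter ρ h) (by norm_num)
  · have h1 : (1:ℝ) ≤ (((ρ:ℝ) + 1) / 8) ^ (-(5/4) : ℝ) := by
      apply Real.one_le_rpow_of_pos_of_le_one_of_nonpos (by positivity) _ (by norm_num)
      rw [div_le_one (by norm_num)]
      have : ρ + 1 ≤ 8 := by omega
      exact_mod_cast this
    nlinarith

theorem fA_le {C : ℝ} (hC : 1 ≤ C) (ρ R : ℕ) :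
    fA C (2 * ρ + 2) (R / 4) ≤
      C * 16 ^ (5/4 : ℝ) * (((ρ:ℝ) + 1) ^ (5/4 : ℝ) * ((R:ℝ) + 1) ^ (-(5/4) : ℝ)) := by
  have e : C * 16 ^ (5/4 : ℝ) * (((ρ:ℝ) + 1) ^ (5/4 : ℝ) * ((R:ℝ) + 1) ^ (-(5/4) : ℝ)) =
      C * (16 * ((ρ:ℝ) + 1) / ((R:ℝ) + 1)) ^ (5/4 : ℝ) := by
    rw [Real.div_rpow (by positivity) (by positivity), Real.mul_rpow (by norm_num) (by positivity),
      Real.rpow_neg (by positivity)]
    field_simp
  rw [e]
  unfold fA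
  split_ifs with h
  · refine mul_le_mul_of_nonneg_left ?_ (by linarith)
    apply Real.rpow_le_rpow (by positivity) _ (by norm_num)
    have h1 : 1 ≤ R / 4 := by omega
    have h2 := quarter R h1
    have h3 : (0:ℝ) < ((R / 4 : ℕ) : ℝ) := by exact_mod_cast h1
    rw [div_le_div_iff₀ h3 (by positivity)]
    push_cast
    nlinarith [(Nat.cast_nonneg ρ : (0:ℝ) ≤ ρ)]
  · have h1 : (1:ℝ) ≤ (16 * ((ρ:ℝ) + 1) / ((R:ℝ) + 1)) ^ (5/4 : ℝ) := by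
      apply Real.one_le_rpow _ (by norm_num)
      rw [one_le_div (by positivity)]
      have : R + 1 ≤ 16 * (ρ + 1) := by omega
      exact_mod_cast this
    nlinarith

/-- The constant of the bound. -/
noncomputable def KC (C : ℝ) : ℝ := (C * 8 ^ (5/4 : ℝ)) ^ 3 * (C * 16 ^ (5/4 : ℝ))

theorem Ev_le {n : ℕ} [NeZero n] {C q : ℝ} (hC : 1 ≤ C) (hB : Bd C q n) {ρ R : ℕ} (hρR : ρ ≤ R)
    (hR : R ≤ n / 2) {x1 x2 x3 : Edg} (hxy1 : |x1.1 - x2.1| ≤ ρ) (hxy2 : |x1.2.1 - x2.2.1| ≤ ρ)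
    (h1 : ρ ≤ td n (rp n x1) (rp n x2)) (h2 : R ≤ td n (rp n x1) (rp n x3))
    (h3 : R ≤ td n (rp n x2) (rp n x3)) :
    Pr (fun _ => q) (univ : Finset (TEd n)) (Ev n ρ R x1 x2 x3) ≤
      KC C * (((ρ:ℝ) + 1) ^ (-(5/4) : ℝ) * ((R:ℝ) + 1) ^ (-(5/2) : ℝ)) := by
  have hb := pr_Ev_aux hB hρR hR hxy1 hxy2 h1 h2 h3
  have g1 := f4_le hC hB (ρ := ρ) (by omega)
  have g2 := f4_le hC hB (ρ := R) (by omega)
  have g3 := fA_le hC ρ R
  have n1 : 0 ≤ f4 q (ρ / 4) := by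
    unfold f4; split_ifs
    · exact a4_nn hB.h0 hB.h1 _
    · norm_num
  have n2 : 0 ≤ f4 q (R / 4) := by
    unfold f4; split_ifs
    · exact a4_nn hB.h0 hB.h1 _
    · norm_num
  have n3 : 0 ≤ fA C (2 * ρ + 2) (R / 4) := by
    unfold fA; split_ifs
    · positivity
    · norm_num
  refine hb.trans ?_
  have e : KC C * (((ρ:ℝ) + 1) ^ (-(5/4) : ℝ) * ((R:ℝ) + 1) ^ (-(5/2) : ℝ)) =
      (C * 8 ^ (5/4 : ℝ) * ((ρ:ℝ) + 1) ^ (-(5/4) : ℝ)) *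
      ((C * 8 ^ (5/4 : ℝ) * ((ρ:ℝ) + 1) ^ (-(5/4) : ℝ)) *
      ((C * 8 ^ (5/4 : ℝ) * ((R:ℝ) + 1) ^ (-(5/4) : ℝ)) *
      (C * 16 ^ (5/4 : ℝ) * (((ρ:ℝ) + 1) ^ (5/4 : ℝ) * ((R:ℝ) + 1) ^ (-(5/4) : ℝ))))) := by
    have e1 : ((ρ:ℝ) + 1) ^ (-(5/4) : ℝ) * ((ρ:ℝ) + 1) ^ (5/4 : ℝ) = 1 := by
      rw [← Real.rpow_add (by positivity)]; norm_num
    have e2 : ((R:ℝ) + 1) ^ (-(5/2) : ℝ) =
        ((R:ℝ) + 1) ^ (-(5/4) : ℝ) * ((R:ℝ) + 1) ^ (-(5/4) : ℝ) := by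
      rw [← Real.rpow_add (by positivity)]; norm_num
    unfold KC
    rw [e2]
    calc _ = (C * 8 ^ (5/4 : ℝ)) ^ 3 * (C * 16 ^ (5/4 : ℝ)) *
          (((ρ:ℝ) + 1) ^ (-(5/4) : ℝ) * (((R:ℝ) + 1) ^ (-(5/4) : ℝ) *
            ((R:ℝ) + 1) ^ (-(5/4) : ℝ))) * 1 := by ring
      _ = (C * 8 ^ (5/4 : ℝ)) ^ 3 * (C * 16 ^ (5/4 : ℝ)) *
          (((ρ:ℝ) + 1) ^ (-(5/4) : ℝ) * (((R:ℝ) + 1) ^ (-(5/4) : ℝ) *
            ((R:ℝ) + 1) ^ (-(5/4) : ℝ))) *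
            (((ρ:ℝ) + 1) ^ (-(5/4) : ℝ) * ((ρ:ℝ) + 1) ^ (5/4 : ℝ)) := by rw [e1]
      _ = _ := by ring
  rw [e]
  have m1 := n1.trans g1
  have m2 := n2.trans g2
  gcongr

/-- Passing from the torus without the root to the torus. -/
theorem erase_root {n : ℕ} [NeZero n] {C q : ℝ} (hB : Bd C q n) (r : TEd n)
    (A : Finset (TEd n) → Prop) :
    Pr (fun _ => q) ((univ : Finset (TEd n)).erase r) A ≤
      4 * Pr (fun _ => q) (univ : Finset (TEd n)) A := by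
  have hok : Ok (fun _ : TEd n => q) := fun _ => ⟨hB.h0, hB.h1⟩
  have h := ES.Ex_split (E := TEd n) q (Finset.mem_univ r) (fun F => ind (A F))
  have n1 : 0 ≤ Ex (fun _ => q) ((univ : Finset (TEd n)).erase r)
      (fun F => ind (A (insert r F))) := Pr_nonneg hok _ (fun F => A (insert r F))
  have n2 : 0 ≤ Ex (fun _ => q) ((univ : Finset (TEd n)).erase r)
      (fun F => ind (A F)) := Pr_nonneg hok _ A
  unfold Pr
  rw [h]
  nlinarith [hB.lo, hB.hi]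

/-- The lift of an edge of the torus. -/
def lf (n : ℕ) (f : TEd n) : Edg := (f.1.valMinAbs, f.2.1.valMinAbs, f.2.2)

theorem rp_lf {n : ℕ} (f : TEd n) : rp n (lf n f) = f := by
  unfold rp lf
  rw [ZMod.coe_valMinAbs, ZMod.coe_valMinAbs]

/-- The lift of an edge of the torus close to a given one. -/
def lf2 (n : ℕ) (f g : TEd n) : Edg :=
  (f.1.valMinAbs - (f.1 - g.1).valMinAbs, f.2.1.valMinAbs - (f.2.1 - g.2.1).valMinAbs, g.2.2)

theorem rp_lf2 {n : ℕ} (f g : TEd n) : rp n (lf2 n f g) = g := by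
  unfold rp lf2
  simp only [Int.cast_sub, ZMod.coe_valMinAbs]
  simp

theorem abs_nz {n : ℕ} (z : ZMod n) : |z.valMinAbs| = (nz n z : ℤ) := by
  unfold nz
  exact Int.abs_eq_natAbs _

theorem pr_SD1 {n : ℕ} [NeZero n] {b : Bool} {C q : ℝ} (hC : 1 ≤ C) (hB : Bd C q n)
    {f g : TEd n} (h1 : td n f g ≤ td n f (rt n b)) (h2 : td n f g ≤ td n g (rt n b)) :
    Pr (fun _ => q) ((univ : Finset (TEd n)).erase (rt n b)) (SD (TJ n b) f g) ≤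
      4 * (KC C * (((td n f g : ℝ) + 1) ^ (-(5/4) : ℝ) *
        (((min (td n f (rt n b)) (td n g (rt n b)) : ℕ) : ℝ) + 1) ^ (-(5/2) : ℝ))) := by
  have hok : Ok (fun _ : TEd n => q) := fun _ => ⟨hB.h0, hB.h1⟩
  set ρ := td n f g with hρ
  set R := min (td n f (rt n b)) (td n g (rt n b)) with hR
  have hRn : R ≤ n / 2 := (min_le_left _ _).trans (td_half _ _)
  have hρR : ρ ≤ R := le_min h1 h2
  have a1 : |(lf n f).1 - (lf2 n f g).1| ≤ ρ := by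
    show |f.1.valMinAbs - (f.1.valMinAbs - (f.1 - g.1).valMinAbs)| ≤ _
    rw [sub_sub_cancel, abs_nz]
    exact_mod_cast le_max_left _ _
  have a2 : |(lf n f).2.1 - (lf2 n f g).2.1| ≤ ρ := by
    show |f.2.1.valMinAbs - (f.2.1.valMinAbs - (f.2.1 - g.2.1).valMinAbs)| ≤ _
    rw [sub_sub_cancel, abs_nz]
    exact_mod_cast le_max_right _ _
  have c1 : R ≤ td n f (rt n b) := min_le_left _ _
  have c2 : R ≤ td n g (rt n b) := min_le_right _ _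
  have hle := Ev_le hC hB hρR hRn (x1 := lf n f) (x2 := lf2 n f g) (x3 := e0 b) a1 a2
    (by rw [rp_lf, rp_lf2]) (by rw [rp_lf]; exact c1) (by rw [rp_lf2]; exact c2)
  refine le_trans ?_ (mul_le_mul_of_nonneg_left hle (by norm_num))
  refine le_trans ?_ (erase_root hB (rt n b) _)
  apply Pr_mono hok
  intro F hF hS
  have hrF : rt n b ∉ F := fun h => (mem_erase.mp (hF h)).1 rfl
  refine caseA hρR hRn a1 a2 ?_ ?_ ?_ hrF ?_
  · rw [rp_lf, rp_lf2]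
  · rw [rp_lf]; exact c1
  · rw [rp_lf2]; exact c2
  · rw [rp_lf, rp_lf2]; exact hS

theorem pr_SD2 {n : ℕ} [NeZero n] {b : Bool} {C q : ℝ} (hC : 1 ≤ C) (hB : Bd C q n)
    {f g : TEd n} (h1 : td n f (rt n b) ≤ td n g (rt n b)) (h2 : td n f (rt n b) ≤ td n f g) :
    Pr (fun _ => q) ((univ : Finset (TEd n)).erase (rt n b)) (SD (TJ n b) f g) ≤
      4 * (KC C * (((td n f (rt n b) : ℝ) + 1) ^ (-(5/4) : ℝ) *
        (((min (td n g (rt n b)) (td n f g) : ℕ) : ℝ) + 1) ^ (-(5/2) : ℝ))) := by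
  have hok : Ok (fun _ : TEd n => q) := fun _ => ⟨hB.h0, hB.h1⟩
  set ρ := td n f (rt n b) with hρ
  set R := min (td n g (rt n b)) (td n f g) with hR
  have hRn : R ≤ n / 2 := (min_le_left _ _).trans (td_half _ _)
  have hρR : ρ ≤ R := le_min h1 h2
  have b1 : |(lf n f).1| ≤ ρ := by
    show |f.1.valMinAbs| ≤ _
    rw [abs_nz]
    have : nz n (f.1 - (rt n b).1) ≤ ρ := le_max_left _ _
    have e : (rt n b).1 = 0 := by show (((0:ℤ)) : ZMod n) = 0; simp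
    rw [e, sub_zero] at this
    exact_mod_cast this
  have b2 : |(lf n f).2.1| ≤ ρ := by
    show |f.2.1.valMinAbs| ≤ _
    rw [abs_nz]
    have : nz n (f.2.1 - (rt n b).2.1) ≤ ρ := le_max_right _ _
    have e : (rt n b).2.1 = 0 := by show (((0:ℤ)) : ZMod n) = 0; simp
    rw [e, sub_zero] at this
    exact_mod_cast this
  have c1 : R ≤ td n g (rt n b) := min_le_left _ _
  have c2 : R ≤ td n f g := min_le_right _ _
  have hle := Ev_le hC hB hρR hRn (x1 := e0 b) (x2 := lf n f) (x3 := lf n g)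
    (by show |(0:ℤ) - (lf n f).1| ≤ ρ; rw [zero_sub, abs_neg]; exact b1)
    (by show |(0:ℤ) - (lf n f).2.1| ≤ ρ; rw [zero_sub, abs_neg]; exact b2)
    (by rw [rp_lf, td_comm]) (by rw [rp_lf, td_comm]; exact c1)
    (by rw [rp_lf, rp_lf]; exact c2)
  refine le_trans ?_ (mul_le_mul_of_nonneg_left hle (by norm_num))
  refine le_trans ?_ (erase_root hB (rt n b) _)
  apply Pr_mono hok
  intro F hF hS
  have hrF : rt n b ∉ F := fun h => (mem_erase.mp (hF h)).1 rfl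
  refine caseB hρR hRn b1 b2 ?_ ?_ ?_ hrF ?_
  · rw [rp_lf]
  · rw [rp_lf]; exact c1
  · rw [rp_lf, rp_lf]; exact c2
  · rw [rp_lf, rp_lf]; exact hS

end Pool.Agent.N952.AL
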