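import Pool.Agent.H973R3.NC.WN
import Pool.Agent.H12R2.Sep.Key1
import Pool.Agent.H12R2.Sep.Win1
import Pool.Agent.H974R2.FourArm

/-! The four-arm probability tends to zero uniformly in the parameter. -/

set_option autoImplicit false

namespace Pool.Agent.N952.AL

open H974 H12S Finset

theorem e0_mem {m : ℕ} (hm : 1 ≤ m) (b : Bool) : e0 b ∈ boxE m := by
  unfold boxE e0
  cases b
  · rw [mem_RE_false]; omega
  · rw [mem_RE_true]; omega

theorem circ_local_ann {m : ℕ} {F S : Finset Edg} {R : ℕ}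
    (hS : boxE R \ boxE m ⊆ S) :
    Circ ((m + 1 : ℕ) : ℤ) (R : ℤ) F ↔ Circ ((m + 1 : ℕ) : ℤ) (R : ℤ) (F ∩ S) := by
  have hsub : ∀ x y : ℤ, ∀ b : Bool, (x, y, b) ∈ boxE R → (x, y, b) ∉ boxE m → (x, y, b) ∈ S :=
    fun x y b h1 h2 => hS (Finset.mem_sdiff.2 ⟨h1, h2⟩)
  have s1 : LRE (-(R:ℤ)) R ((m + 1 : ℕ) : ℤ) R ⊆ S := by
    rintro ⟨x, y, _ | _⟩ h
    · refine hsub _ _ _ ?_ ?_ <;> unfold boxE <;> rw [mem_RE_false] <;> rw [mem_LRE_false] at h <;>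
        push_cast at h <;> omega
    · refine hsub _ _ _ ?_ ?_ <;> unfold boxE <;> rw [mem_RE_true] <;> rw [mem_LRE_true] at h <;>
        push_cast at h <;> omega
  have s2 : LRE (-(R:ℤ)) R (-R) (-((m + 1 : ℕ) : ℤ)) ⊆ S := by
    rintro ⟨x, y, _ | _⟩ h
    · refine hsub _ _ _ ?_ ?_ <;> unfold boxE <;> rw [mem_RE_false] <;> rw [mem_LRE_false] at h <;>
        push_cast at h <;> omega
    · refine hsub _ _ _ ?_ ?_ <;> unfold boxE <;> rw [mem_RE_true] <;> rw [mem_LRE_true] at h <;>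
        push_cast at h <;> omega
  have s3 : TBE ((m + 1 : ℕ) : ℤ) (R:ℤ) (-R) R ⊆ S := by
    rintro ⟨x, y, _ | _⟩ h
    · refine hsub _ _ _ ?_ ?_ <;> unfold boxE <;> rw [mem_RE_false] <;> rw [mem_TBE_false] at h <;>
        push_cast at h <;> omega
    · refine hsub _ _ _ ?_ ?_ <;> unfold boxE <;> rw [mem_RE_true] <;> rw [mem_TBE_true] at h <;>
        push_cast at h <;> omega
  have s4 : TBE (-(R:ℤ)) (-((m + 1 : ℕ) : ℤ)) (-R) R ⊆ S := by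
    rintro ⟨x, y, _ | _⟩ h
    · refine hsub _ _ _ ?_ ?_ <;> unfold boxE <;> rw [mem_RE_false] <;> rw [mem_TBE_false] at h <;>
        push_cast at h <;> omega
    · refine hsub _ _ _ ?_ ?_ <;> unfold boxE <;> rw [mem_RE_true] <;> rw [mem_TBE_true] at h <;>
        push_cast at h <;> omega
  unfold Circ
  rw [← LRc_local s1, ← LRc_local s2, ← TBc_local s3, ← TBc_local s4]

/-- Four arms exclude circuits and blocked annuli. -/
theorem A4_not_good {m : ℕ} (hm : 1 ≤ m) (b : Bool) {F : Finset Edg}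
    (h : A4 (-((3 * (m + 1) : ℕ) : ℤ)) (3 * (m + 1) : ℕ) (-((3 * (m + 1) : ℕ) : ℤ))
      (3 * (m + 1) : ℕ) (e0 b) ↑F) :
    ¬ Circ ((m + 1 : ℕ) : ℤ) ((3 * (m + 1) : ℕ) : ℤ) F ∧
      ¬ Blk ((m + 1 : ℕ) : ℤ) ((3 * (m + 1) : ℕ) : ℤ) F := by
  set R : ℕ := 3 * (m + 1) with hR
  set G : Finset Edg := (F ∩ boxE R).erase (e0 b) with hG
  have eG : (↑G : Set Edg) = (↑F ∩ ↑(RE (-(R:ℤ)) R (-(R:ℤ)) R)) \ {e0 b} := by
    rw [hG, Finset.coe_erase, Finset.coe_inter]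
    rfl
  obtain ⟨⟨w1, hw1, r1⟩, ⟨w2, hw2, r2⟩, h3⟩ := h
  rw [← eG] at r1 r2 h3
  have hT : G ∩ (boxE R \ boxE m) = F ∩ (boxE R \ boxE m) := by
    ext g
    rw [hG]
    simp only [Finset.mem_inter, Finset.mem_erase, Finset.mem_sdiff]
    constructor
    · rintro ⟨⟨_, h1, _⟩, h2⟩
      exact ⟨h1, h2⟩
    · rintro ⟨h1, h2, h4⟩
      refine ⟨⟨?_, h1, h2⟩, h2, h4⟩
      rintro rfl
      exact h4 (e0_mem hm b)
  have hs : inR (-((m + 1 : ℕ) : ℤ)) ((m + 1 : ℕ) : ℤ) (-((m + 1 : ℕ) : ℤ)) ((m + 1 : ℕ) : ℤ)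
      (src (e0 b)) := by
    unfold e0 inR; simp only [src_mk]; omega
  have ht : inR (-((m + 1 : ℕ) : ℤ)) ((m + 1 : ℕ) : ℤ) (-((m + 1 : ℕ) : ℤ)) ((m + 1 : ℕ) : ℤ)
      (tgt (e0 b)) := by
    unfold e0 inR
    cases b
    · simp only [tgt_false]; omega
    · simp only [tgt_true]; omega
  have far : ∀ w : Vtx, w ∈ bdR (-(R:ℤ)) R (-(R:ℤ)) R →
      (w.1 ≤ -(R:ℤ) ∨ (R:ℤ) ≤ w.1 ∨ w.2 ≤ -(R:ℤ) ∨ (R:ℤ) ≤ w.2) := by
    rintro w ⟨_, hw⟩
    omega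
  constructor
  · intro hc
    have hc' : Circ ((m + 1 : ℕ) : ℤ) (R : ℤ) G := by
      rw [circ_local_ann (S := boxE R \ boxE m) (Finset.Subset.refl _), hT]
      exact (circ_local_ann (S := boxE R \ boxE m) (Finset.Subset.refl _)).1 hc
    obtain ⟨z, hz⟩ := circ_meet (by positivity) (by omega) hc'
    have hGR : (↑G : Set Edg) ∩ ↑(RE (-(R:ℤ)) R (-(R:ℤ)) R) = ↑G := by
      rw [Set.inter_eq_left, eG]
      exact Set.sdiff_subset.trans Set.inter_subset_right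
    rw [hGR] at hz
    have z1 := hz _ w1 hs hw1.2 r1
    have z2 := hz _ w2 ht hw2.2 r2
    exact h3 (z1.trans z2.symm)
  · intro hb
    have hb' : Blk ((m + 1 : ℕ) : ℤ) (R : ℤ) G := by
      rw [Blk_local (n := m + 1) (m := R) (by omega) (Finset.Subset.refl (annE (m + 1) R))]
      rw [Blk_local (n := m + 1) (m := R) (by omega) (Finset.Subset.refl (annE (m + 1) R))] at hb
      have e : G ∩ annE (m + 1) R = F ∩ annE (m + 1) R := by
        have hsub : annE (m + 1) R ⊆ boxE R \ boxE m := by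
          unfold annE
          exact Finset.sdiff_subset_sdiff (Finset.Subset.refl _) (boxE_mono (by omega))
        rw [← Finset.inter_eq_right.2 hsub, ← Finset.inter_assoc, hT, Finset.inter_assoc]
      rw [e]
      exact hb
    exact not_blk_of_reach (by omega) hs r1 (far _ hw1) hb'

theorem a4b_step : ∃ ρ : ℝ, 0 ≤ ρ ∧ ρ < 1 ∧ ∀ (s : ℝ), 0 ≤ s → s ≤ 1 → ∀ (m : ℕ), 1 ≤ m →
    ∀ b : Bool, a4b s (3 * (m + 1)) b ≤ ρ * a4b s m b := by
  obtain ⟨κ, hκ, hwin⟩ := H973N.win_half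
  have hκ1 : κ ≤ 1/2 := (hwin 1).kle
  have hk4 : κ ^ 4 ≤ 1 := pow_le_one₀ hκ.le (by linarith)
  refine ⟨1 - κ ^ 4, by linarith, by linarith [pow_pos hκ 4], ?_⟩
  intro s h0 h1 m hm b
  obtain ⟨R, hR⟩ : ∃ R : ℕ, R = 3 * (m + 1) := ⟨_, rfl⟩
  have hng : ∀ F : Finset Edg, A4 (-(R : ℤ)) R (-(R : ℤ)) R (e0 b) ↑F →
      ¬ Circ ((m + 1 : ℕ) : ℤ) (R : ℤ) F ∧ ¬ Blk ((m + 1 : ℕ) : ℤ) (R : ℤ) F := by
    intro F hF
    rw [hR] at hF ⊢
    exact A4_not_good hm b hF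
  rw [← hR]
  have hmR : m ≤ R := by omega
  have hhκ : κ ≤ hh (1/2) (16 * (m + 1 : ℕ)) (m + 1 : ℕ) :=
    (hwin (m + 1)).pri (m + 1) (by omega) le_rfl
  have ok := okq h0 h1
  -- general step
  have gen : ∀ A : Finset Edg → Prop,
      (∀ F, A F ↔ A (F ∩ (boxE R \ boxE m))) →
      (∀ F : Finset Edg, A4 (-(R : ℤ)) R (-(R : ℤ)) R (e0 b) ↑F → ¬ A F) →
      κ ^ 4 ≤ PQ s (boxE R) A → a4b s R b ≤ (1 - κ ^ 4) * a4b s m b := by
    intro A hA hAF hPA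
    have e1 : PQ s (boxE R) (fun F => A4 (-m) m (-m) m (e0 b) ↑F) = a4b s m b :=
      Pr_local (S' := boxE m) (boxE_mono hmR) (fun F _ => A4_inter (Finset.Subset.refl _))
    have e2 : a4b s R b ≤ PQ s (boxE R)
        (fun F => A4 (-m) m (-m) m (e0 b) ↑F ∧ ¬ A F) := by
      apply Pr_mono ok
      intro F _ hF
      exact ⟨A4_sub (by omega) (by omega) (by omega) (by omega) (e0_mem hm b) hF, hAF F hF⟩
    have e3 : PQ s (boxE R) (fun F => A4 (-m) m (-m) m (e0 b) ↑F ∧ ¬ A F) =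
        PQ s (boxE R) (fun F => A4 (-m) m (-m) m (e0 b) ↑F) *
          PQ s (boxE R) (fun F => ¬ A F) :=
      Pr_indep (S := boxE m) (T := boxE R \ boxE m) (boxE_mono hmR) Finset.sdiff_subset
        Finset.disjoint_sdiff (fun F _ => A4_inter (Finset.Subset.refl _))
        (fun F _ => not_congr (hA F))
    rw [e3, e1] at e2
    have e4 : PQ s (boxE R) (fun F => ¬ A F) ≤ 1 - κ ^ 4 := by
      unfold PQ at hPA ⊢
      rw [Pr_not]; linarith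
    have n0 := a4b_nonneg h0 h1 m b
    nlinarith
  by_cases hs : 1/2 ≤ s
  · refine gen (Circ ((m + 1 : ℕ) : ℤ) (R : ℤ)) (fun F =>
      circ_local_ann (Finset.Subset.refl _)) (fun F hF => (hng F hF).1) ?_
    refine le_trans ?_ (pr_Circ h0 h1 (R1 := ((m + 1 : ℕ) : ℤ)) (R2 := (R:ℤ)) (by positivity)
      (by omega) (Finset.Subset.refl _))
    apply pow_le_pow_left₀ hκ.le
    refine hhκ.trans ((hh_mono_param (by norm_num) hs h1 _ _).trans ?_)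
    exact hh_mono h0 h1 (by omega) (by push_cast; omega) (by push_cast; omega)
  · push Not at hs
    refine gen (Blk ((m + 1 : ℕ) : ℤ) (R : ℤ)) (fun F => Blk_local (n := m + 1) (m := R) (by omega)
      (Finset.sdiff_subset_sdiff (Finset.Subset.refl _) (boxE_mono (by omega))) F)
      (fun F hF => (hng F hF).2) ?_
    rw [hR]
    refine pr_Blk_q h0 h1 hκ (m := m + 1) (by omega) ?_ (Finset.sdiff_subset)
    have hd := hh_dual (q := 1/2) (w := 2 * ((m + 1 : ℕ) : ℤ)) (h := 6 * ((m + 1 : ℕ) : ℤ))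
      (by positivity) (by positivity)
    rw [show (1:ℝ) - 1/2 = 1/2 by norm_num] at hd
    have h5 : hh (1/2) (16 * (m + 1 : ℕ)) (m + 1 : ℕ) ≤
        hh (1/2) (6 * ((m + 1 : ℕ) : ℤ) + 1) (2 * ((m + 1 : ℕ) : ℤ) - 1) :=
      hh_mono (by norm_num) (by norm_num) (by positivity) (by push_cast; omega)
        (by push_cast; omega)
    have h6 := hh_mono_param h0 hs.le (by norm_num) (2 * ((m + 1 : ℕ) : ℤ))
      (6 * ((m + 1 : ℕ) : ℤ))
    linarith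

/-- The four-arm probability tends to zero uniformly in the parameter. -/
theorem a4_unif {ε : ℝ} (hε : 0 < ε) : ∃ N : ℕ, 1 ≤ N ∧ ∀ s : ℝ, 0 ≤ s → s ≤ 1 →
    ∀ k : ℕ, N ≤ k → a4 s k ≤ ε := by
  obtain ⟨ρ, hρ0, hρ1, hstep⟩ := a4b_step
  have key : ∀ j : ℕ, ∃ N : ℕ, 1 ≤ N ∧ ∀ s : ℝ, 0 ≤ s → s ≤ 1 → ∀ b, a4b s N b ≤ ρ ^ j := by
    intro j
    induction j with
    | zero => exact ⟨1, le_rfl, fun s h0 h1 b => by simpa using a4b_le_one h0 h1 1 b⟩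
    | succ j ih =>
      obtain ⟨N, hN, h⟩ := ih
      refine ⟨3 * (N + 1), by omega, fun s h0 h1 b => ?_⟩
      calc _ ≤ ρ * a4b s N b := hstep s h0 h1 N hN b
        _ ≤ ρ * ρ ^ j := mul_le_mul_of_nonneg_left (h s h0 h1 b) hρ0
        _ = ρ ^ (j + 1) := by ring
  obtain ⟨j, hj⟩ := exists_pow_lt_of_lt_one (half_pos hε) hρ1
  obtain ⟨N, hN, h⟩ := key j
  refine ⟨N, hN, fun s h0 h1 k hk => ?_⟩
  refine (a4_anti h0 h1 hN hk).trans ?_
  rw [a4_eq]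
  have h2 := h s h0 h1 true
  have h3 := h s h0 h1 false
  linarith

end Pool.Agent.N952.AL
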