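import Pool.Agent.N952.AL.Second
import Pool.Agent.N952.AL.Unif

/-! The probability that the ends of an edge are connected off the edge: boxes, torus, plane. -/

set_option autoImplicit false

namespace Pool.Agent.N952.AL

open H974 H12S H389NS H973N Finset

/-- The ends of the edge are connected. -/
def JB (e : Edg) (F : Finset Edg) : Prop := Reach (↑F : Set Edg) (src e) (tgt e)

theorem JB_mono {e : Edg} {F G : Finset Edg} (h : F ⊆ G) (hF : JB e F) : JB e G :=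
  Reach.mono (by exact_mod_cast h) hF

/-- The connection probability in the box of radius `k`. -/
noncomputable def cB (k : ℕ) (b : Bool) (s : ℝ) : ℝ :=
  Pr (fun _ => s) ((boxE k).erase (e0 b)) (JB (e0 b))

theorem cB_nonneg {s : ℝ} (h0 : 0 ≤ s) (h1 : s ≤ 1) (k : ℕ) (b : Bool) : 0 ≤ cB k b s :=
  Pr_nonneg (okq h0 h1) _ _

theorem cB_le_one {s : ℝ} (h0 : 0 ≤ s) (h1 : s ≤ 1) (k : ℕ) (b : Bool) : cB k b s ≤ 1 :=
  Pr_le_one (okq h0 h1) _ _

/-- Larger sets of edges have larger connection probabilities. -/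
theorem pr_JB_mono {s : ℝ} (h0 : 0 ≤ s) (h1 : s ≤ 1) {e : Edg} {S T : Finset Edg} (h : S ⊆ T) :
    Pr (fun _ => s) S (JB e) ≤ Pr (fun _ => s) T (JB e) := by
  have e1 : Pr (fun _ => s) T (fun F => JB e (F ∩ S)) = Pr (fun _ => s) S (fun F => JB e (F ∩ S)) :=
    Pr_local h (fun F _ => by rw [Finset.inter_assoc, Finset.inter_self])
  have e2 : Pr (fun _ => s) S (fun F => JB e (F ∩ S)) = Pr (fun _ => s) S (JB e) :=
    Pr_congr (fun F hF => by rw [Finset.inter_eq_left.2 hF])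
  rw [← e2, ← e1]
  exact Pr_mono (okq h0 h1) (fun F _ hF => JB_mono Finset.inter_subset_left hF)

theorem cB_mono {s : ℝ} (h0 : 0 ≤ s) (h1 : s ≤ 1) (b : Bool) {k m : ℕ} (h : k ≤ m) :
    cB k b s ≤ cB m b s :=
  pr_JB_mono h0 h1 (Finset.erase_subset_erase _ (boxE_mono h))

theorem cB_mono_param {s t : ℝ} (h0 : 0 ≤ s) (hst : s ≤ t) (h1 : t ≤ 1) (b : Bool) (k : ℕ) :
    cB k b s ≤ cB k b t :=
  Pr_mono_param (okq h0 (hst.trans h1)) (okq (h0.trans hst) h1) (fun _ => hst)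
    (fun _ _ hFG _ hF => JB_mono hFG hF)

theorem in_ends {k : ℕ} (hk : 1 ≤ k) (b : Bool) :
    inR (-(k:ℤ)) k (-(k:ℤ)) k (src (e0 b)) ∧ inR (-(k:ℤ)) k (-(k:ℤ)) k (tgt (e0 b)) := by
  unfold e0 inR
  cases b
  · simp only [src_mk, tgt_false]; omega
  · simp only [src_mk, tgt_true]; omega

/-- The ends are connected inside the box, or there are four arms. -/
theorem J_or_A4 {k : ℕ} (hk : 1 ≤ k) {b : Bool} {G : Set Edg} (he : e0 b ∉ G)
    (h : Reach G (src (e0 b)) (tgt (e0 b))) :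
    Reach (G ∩ ↑(RE (-(k:ℤ)) k (-(k:ℤ)) k)) (src (e0 b)) (tgt (e0 b)) ∨
      A4 (-(k:ℤ)) k (-(k:ℤ)) k (e0 b) G := by
  by_cases hJ : Reach (G ∩ ↑(RE (-(k:ℤ)) k (-(k:ℤ)) k)) (src (e0 b)) (tgt (e0 b))
  · exact Or.inl hJ
  right
  have eG : (G ∩ ↑(RE (-(k:ℤ)) k (-(k:ℤ)) k)) \ {e0 b} = G ∩ ↑(RE (-(k:ℤ)) k (-(k:ℤ)) k) := by
    ext g
    simp only [Set.mem_sdiff, Set.mem_singleton_iff]
    constructor
    · exact fun h => h.1
    · refine fun h => ⟨h, ?_⟩
      rintro rfl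
      exact he h.1
  unfold A4
  rw [eG]
  obtain ⟨hs, ht⟩ := in_ends hk b
  refine ⟨?_, ?_, hJ⟩
  · by_contra hno
    exact hJ (stay hs h hno)
  · by_contra hno
    exact hJ (stay ht h.symm hno).symm

/-- The four-arm event does not depend on its edge. -/
theorem pr_A4_erase (s : ℝ) {k : ℕ} (b : Bool) {S : Finset Edg} (hS : boxE k ⊆ S) :
    Pr (fun _ => s) (S.erase (e0 b)) (fun F => A4 (-k) k (-k) k (e0 b) ↑F) = a4b s k b := by
  have e1 : Pr (fun _ => s) S (fun F => A4 (-k) k (-k) k (e0 b) ↑F) =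
      Pr (fun _ => s) (S.erase (e0 b)) (fun F => A4 (-k) k (-k) k (e0 b) ↑F) := by
    refine Pr_local (Finset.erase_subset _ _) (fun F hF => ?_)
    unfold A4
    have e2 : ((↑F : Set Edg) ∩ ↑(RE (-(k:ℤ)) k (-k) k)) \ {e0 b} =
        ((↑(F ∩ S.erase (e0 b)) : Set Edg) ∩ ↑(RE (-(k:ℤ)) k (-k) k)) \ {e0 b} := by
      ext g
      simp only [Set.mem_sdiff, Set.mem_inter_iff, Finset.mem_coe, Finset.mem_inter,
        Finset.mem_erase, Set.mem_singleton_iff]
      constructor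
      · rintro ⟨⟨h1, h2⟩, h3⟩
        exact ⟨⟨⟨h1, h3, hF h1⟩, h2⟩, h3⟩
      · rintro ⟨⟨⟨h1, _⟩, h2⟩, h3⟩
        exact ⟨⟨h1, h2⟩, h3⟩
    rw [e2]
  rw [← e1]
  exact Pr_local (S' := boxE k) hS (fun F _ => A4_inter (Finset.Subset.refl _))

theorem cB_le {s : ℝ} (h0 : 0 ≤ s) (h1 : s ≤ 1) (b : Bool) {k m : ℕ} (hk : 1 ≤ k) (h : k ≤ m) :
    cB m b s ≤ cB k b s + a4 s k := by
  have ok := okq h0 h1
  have e1 : cB m b s ≤ Pr (fun _ => s) ((boxE m).erase (e0 b))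
      (fun F => JB (e0 b) (F ∩ (boxE k).erase (e0 b)) ∨ A4 (-k) k (-k) k (e0 b) ↑F) := by
    apply Pr_mono ok
    intro F hF hJ
    have hne : e0 b ∉ (↑F : Set Edg) := fun h => (Finset.mem_erase.1 (hF h)).1 rfl
    rcases J_or_A4 hk hne hJ with h2 | h2
    · left
      refine Reach.mono ?_ h2
      rintro g ⟨hg1, hg2⟩
      rw [Finset.mem_coe, Finset.mem_inter, Finset.mem_erase]
      refine ⟨hg1, ?_, hg2⟩
      rintro rfl
      exact hne hg1
    · right; exact h2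
  have e2 := Pr_or_le ok ((boxE m).erase (e0 b))
    (fun F => JB (e0 b) (F ∩ (boxE k).erase (e0 b))) (fun F => A4 (-k) k (-k) k (e0 b) ↑F)
  have e3 : Pr (fun _ => s) ((boxE m).erase (e0 b))
      (fun F => JB (e0 b) (F ∩ (boxE k).erase (e0 b))) = cB k b s := by
    rw [Pr_local (Finset.erase_subset_erase _ (boxE_mono h))
      (fun F _ => by rw [Finset.inter_assoc, Finset.inter_self])]
    exact Pr_congr (fun F hF => by rw [Finset.inter_eq_left.2 hF])
  rw [e3, pr_A4_erase s b (boxE_mono h)] at e2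
  have e4 := a4b_le h0 h1 k b
  linarith

/-! ### The torus -/

theorem reach_in {a b c d : ℤ} {G : Set Edg} {u v : Vtx} (hu : inR a b c d u)
    (h : Reach (G ∩ ↑(RE a b c d)) u v) : inR a b c d v := by
  induction h with
  | refl => exact hu
  | @tail w w' _ hs _ =>
    obtain ⟨e, ⟨_, he⟩, hcase⟩ := hs
    have he' := Finset.mem_coe.1 he
    obtain ⟨x, y, _ | _⟩ := e
    · rw [mem_RE_false] at he'
      simp only [src_mk, tgt_false] at hcase
      unfold inR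
      rcases hcase with ⟨_, h2⟩ | ⟨h2, _⟩ <;> rw [← h2] <;> simp only <;> omega
    · rw [mem_RE_true] at he'
      simp only [src_mk, tgt_true] at hcase
      unfold inR
      rcases hcase with ⟨_, h2⟩ | ⟨h2, _⟩ <;> rw [← h2] <;> simp only <;> omega

theorem rv_inj {n k : ℕ} (hn : 2 * k < n) {u v : Vtx} (hu : inR (-(k:ℤ)) k (-(k:ℤ)) k u)
    (hv : inR (-(k:ℤ)) k (-(k:ℤ)) k v) (h : rv n u = rv n v) : u = v := by
  obtain ⟨x, y⟩ := u
  obtain ⟨x', y'⟩ := v
  unfold inR at hu hv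
  simp only [rv, Prod.mk.injEq] at h
  simp only at hu hv
  obtain ⟨e1, e2⟩ := h
  rw [ZMod.intCast_eq_intCast_iff_dvd_sub] at e1 e2
  have f1 := Int.eq_zero_of_abs_lt_dvd e1 (by rw [abs_lt]; omega)
  have f2 := Int.eq_zero_of_abs_lt_dvd e2 (by rw [abs_lt]; omega)
  have g1 : x = x' := by omega
  have g2 : y = y' := by omega
  rw [g1, g2]

theorem boxE_blk (k : ℕ) (b : Bool) : boxE k = blk (bs (e0 b)) k := by
  unfold boxE blk bs e0
  simp

theorem TJ_or {n k : ℕ} (hk : 1 ≤ k) (hn : 2 * k < n) {b : Bool} {F : Finset (TEd n)}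
    (hF : rt n b ∉ F) (h : TJ n b F) :
    Reach (per n ↑F ∩ ↑(RE (-(k:ℤ)) k (-(k:ℤ)) k)) (src (e0 b)) (tgt (e0 b)) ∨
      A4 (-(k:ℤ)) k (-(k:ℤ)) k (e0 b) (per n ↑F) := by
  by_cases hJ : Reach (per n ↑F ∩ ↑(RE (-(k:ℤ)) k (-(k:ℤ)) k)) (src (e0 b)) (tgt (e0 b))
  · exact Or.inl hJ
  right
  have he : e0 b ∉ per n (↑F : Set (TEd n)) := fun hc => hF (Finset.mem_coe.1 hc)
  have eG : (per n (↑F : Set (TEd n)) ∩ ↑(RE (-(k:ℤ)) k (-(k:ℤ)) k)) \ {e0 b} =
      per n ↑F ∩ ↑(RE (-(k:ℤ)) k (-(k:ℤ)) k) := by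
    ext g
    simp only [Set.mem_sdiff, Set.mem_singleton_iff]
    constructor
    · exact fun h => h.1
    · refine fun h => ⟨h, ?_⟩
      rintro rfl
      exact he h.1
  obtain ⟨hs, ht⟩ := in_ends hk b
  unfold TJ at h
  rw [ts_rp, tt_rp] at h
  unfold A4
  rw [eG]
  refine ⟨?_, ?_, hJ⟩
  · by_contra hno
    obtain ⟨v, hv, hr⟩ := lift h rfl
    have h1 := stay hs hr hno
    have h2 := reach_in hs h1
    have := rv_inj hn h2 ht hv
    rw [this] at h1
    exact hJ h1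
  · by_contra hno
    obtain ⟨v, hv, hr⟩ := lift h.symm rfl
    have h1 := stay ht hr hno
    have h2 := reach_in ht h1
    have := rv_inj hn h2 hs hv
    rw [this] at h1
    exact hJ h1.symm

theorem pr_A4_torus {n : ℕ} [NeZero n] {s : ℝ} (h0 : 0 ≤ s) (h1 : s ≤ 1) {k : ℕ}
    (hn : 2 * k < n) (b : Bool) :
    Pr (fun _ => s) ((univ : Finset (TEd n)).erase (rt n b))
      (fun F => A4 (-(k:ℤ)) k (-(k:ℤ)) k (e0 b) (per n ↑F)) ≤ a4 s k := by
  have e0' : ∀ G : Set Edg, A4 (-(k:ℤ)) k (-(k:ℤ)) k (e0 b) G ↔ A4e k (e0 b) G := by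
    intro G
    unfold A4e e0
    simp
  have hinj : ∀ {g g' : Edg}, g ∈ blk (bs (e0 b)) k → g' ∈ blk (bs (e0 b)) k →
      rp n g = rp n g' → g = g' := fun hg hg' he => inj_blk hn hg hg' he
  have e1 : Pr (fun _ => s) (univ : Finset (TEd n)) (fun F => A4e k (e0 b) (per n ↑F)) =
      Pr (fun _ => s) ((univ : Finset (TEd n)).erase (rt n b))
        (fun F => A4e k (e0 b) (per n ↑F)) := by
    refine Pr_local (Finset.erase_subset _ _) (fun F _ => ?_)
    rcases Nat.eq_zero_or_pos k with hk | hk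
    · subst hk
      have hz : ∀ G : Set Edg, A4e 0 (e0 b) G ↔ A4e 0 (e0 b) (∅ : Set Edg) := by
        intro G
        apply A4e_local
        have : ebx (e0 b) 0 = blk (bs (e0 b)) 0 := rfl
        rw [this, blk_zero]
        simp
      rw [hz, hz (per n _)]
    have hmem : ∀ g ∈ blk (bs (e0 b)) k, g ≠ e0 b →
        (rp n g ∈ (↑F : Set (TEd n)) ↔
          rp n g ∈ (↑(F ∩ univ.erase (rt n b)) : Set (TEd n))) := by
      intro g hg hne
      rw [Finset.mem_coe, Finset.mem_coe, Finset.mem_inter, Finset.mem_erase]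
      refine ⟨fun h => ⟨h, fun hc => hne ?_, Finset.mem_univ _⟩, fun h => h.1⟩
      exact hinj hg (self_blk hk _) hc
    exact ⟨A4e_agree hmem, A4e_agree (fun g hg hne => (hmem g hg hne).symm)⟩
  have e2 := pr_E4 (n := n) h0 h1 hn (e0 b)
  rw [e1] at e2
  refine le_trans (le_of_eq ?_) e2
  exact Pr_congr (fun F _ => e0' _)

theorem cT_ge {n : ℕ} [NeZero n] {s : ℝ} (h0 : 0 ≤ s) (h1 : s ≤ 1) (b : Bool) {k : ℕ}
    (hn : 2 * k < n) : cB k b s ≤ cT n b s := by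
  have hinj : ∀ {g g' : Edg}, g ∈ blk (bs (e0 b)) k → g' ∈ blk (bs (e0 b)) k →
      rp n g = rp n g' → g = g' := fun hg hg' he => inj_blk hn hg hg' he
  set S := (boxE k).erase (e0 b) with hS
  have hSb : ∀ g ∈ S, g ∈ blk (bs (e0 b)) k := fun g hg => by
    rw [← boxE_blk]; exact Finset.mem_of_mem_erase hg
  have hinjS : Set.InjOn (rp n) ↑S := fun g hg g' hg' he => hinj (hSb g hg) (hSb g' hg') he
  rcases Nat.eq_zero_or_pos k with hk | hk
  · subst hk
    have : cB 0 b s = 0 := by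
      unfold cB
      have he : (boxE 0).erase (e0 b) = ∅ := by
        rw [boxE_blk 0 b, blk_zero]; simp
      rw [he]
      unfold Pr
      rw [Ex_empty]
      apply ind_not_of
      intro hJ
      unfold JB at hJ
      have := reach_empty (F := (↑(∅ : Finset Edg) : Set Edg)) (by simp) hJ
      revert this
      unfold e0
      cases b
      · simp [src_mk, tgt_false]
      · simp [src_mk, tgt_true]
    rw [this]
    exact Pr_nonneg (fun _ => ⟨h0, h1⟩) _ _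
  have hU : S.image (rp n) ⊆ (univ : Finset (TEd n)).erase (rt n b) := by
    intro f hf
    rw [Finset.mem_image] at hf
    obtain ⟨g, hg, rfl⟩ := hf
    rw [Finset.mem_erase]
    refine ⟨fun hc => ?_, Finset.mem_univ _⟩
    exact (Finset.mem_erase.1 hg).1 (hinj (hSb g hg) (self_blk hk _) hc)
  have e1 := Pr_pull s hinjS hU (JB (e0 b))
  have e2 : cB k b s = PQ s S (JB (e0 b)) := rfl
  rw [e2, ← e1]
  apply Pr_mono (fun _ => ⟨h0, h1⟩)
  intro F _ hJ
  unfold TJ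
  rw [ts_rp, tt_rp]
  apply proj
  refine Reach.mono ?_ hJ
  intro g hg
  exact Finset.mem_coe.2 (mem_pull.1 (Finset.mem_coe.1 hg)).2

theorem cT_le {n : ℕ} [NeZero n] {s : ℝ} (h0 : 0 ≤ s) (h1 : s ≤ 1) (b : Bool) {k : ℕ}
    (hk : 1 ≤ k) (hn : 2 * k < n) : cT n b s ≤ cB k b s + a4 s k := by
  have ok : Ok (fun _ : TEd n => s) := fun _ => ⟨h0, h1⟩
  have hinj : ∀ {g g' : Edg}, g ∈ blk (bs (e0 b)) k → g' ∈ blk (bs (e0 b)) k →
      rp n g = rp n g' → g = g' := fun hg hg' he => inj_blk hn hg hg' he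
  set S := (boxE k).erase (e0 b) with hS
  have hSb : ∀ g ∈ S, g ∈ blk (bs (e0 b)) k := fun g hg => by
    rw [← boxE_blk]; exact Finset.mem_of_mem_erase hg
  have hinjS : Set.InjOn (rp n) ↑S := fun g hg g' hg' he => hinj (hSb g hg) (hSb g' hg') he
  have hU : S.image (rp n) ⊆ (univ : Finset (TEd n)).erase (rt n b) := by
    intro f hf
    rw [Finset.mem_image] at hf
    obtain ⟨g, hg, rfl⟩ := hf
    rw [Finset.mem_erase]
    refine ⟨fun hc => ?_, Finset.mem_univ _⟩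
    exact (Finset.mem_erase.1 hg).1 (hinj (hSb g hg) (self_blk hk _) hc)
  have e1 := Pr_pull s hinjS hU (JB (e0 b))
  have e2 : cB k b s = PQ s S (JB (e0 b)) := rfl
  rw [e2, ← e1]
  have e3 := Pr_or_le ok ((univ : Finset (TEd n)).erase (rt n b))
    (fun F => JB (e0 b) (pull n S F))
    (fun F => A4 (-(k:ℤ)) k (-(k:ℤ)) k (e0 b) (per n ↑F))
  have e4 := pr_A4_torus (n := n) h0 h1 hn b
  refine le_trans ?_ (e3.trans (add_le_add le_rfl e4))
  apply Pr_mono ok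
  intro F hF hJ
  have hne : rt n b ∉ F := fun h => (Finset.mem_erase.1 (hF h)).1 rfl
  rcases TJ_or hk hn hne hJ with h2 | h2
  · left
    unfold JB
    refine Reach.mono ?_ h2
    rintro g ⟨hg1, hg2⟩
    rw [Finset.mem_coe, mem_pull, hS, Finset.mem_erase]
    refine ⟨⟨?_, hg2⟩, hg1⟩
    rintro rfl
    exact hne (Finset.mem_coe.1 hg1)
  · right; exact h2

end Pool.Agent.N952.AL
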