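import Pool.Agent.N952.AL.Comp
import Pool.Agent.N952.AL.Inf
import Pool.Agent.H974R2.Diff

/-! The mean number of clusters of the box and its derivative. -/

set_option autoImplicit false

namespace Pool.Agent.N952.AL

open H974 H12S Finset

/-- The `n × n` box of the square lattice: two vertices are adjacent when they differ by one in
exactly one coordinate. -/
def box (n : ℕ) : SimpleGraph (Fin n × Fin n) where
  Adj u v := |((u.1 : ℕ) : ℤ) - ((v.1 : ℕ) : ℤ)| + |((u.2 : ℕ) : ℤ) - ((v.2 : ℕ) : ℤ)| = 1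
  symm := ⟨fun u v h => by rw [abs_sub_comm ((v.1 : ℕ) : ℤ), abs_sub_comm ((v.2 : ℕ) : ℤ)]; exact h⟩
  loopless := ⟨fun u h => by simp at h⟩

/-- The edges of the box. -/
noncomputable def edges (n : ℕ) : Finset (Sym2 (Fin n × Fin n)) := (box n).edgeSet.toFinite.toFinset

/-- The mean number of clusters. -/
noncomputable def meanK (n : ℕ) (p : ℝ) : ℝ :=
  ∑ S ∈ (edges n).powerset, p ^ S.card * (1 - p) ^ (edges n \ S).card * (nK S : ℝ)

theorem meanK_eq (n : ℕ) (p : ℝ) :
    meanK n p = Ex (fun _ => p) (edges n) (fun S => (nK S : ℝ)) := by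
  unfold meanK Ex
  simp only [prod_const]

theorem meanK_deriv (n : ℕ) (p : ℝ) : HasDerivAt (meanK n)
    (-∑ e ∈ edges n, (1 - Pr (fun _ => p) ((edges n).erase e) (SJ e))) p := by
  have h := Ex_hasDerivAt (E := Sym2 (Fin n × Fin n)) (fun q _ => q) (fun _ => (1:ℝ)) p
    (fun _ => hasDerivAt_id p) (edges n) (fun S => (nK S : ℝ))
  have e1 : (fun q : ℝ => Ex (fun _ => q) (edges n) (fun S => (nK S : ℝ))) = meanK n := by
    funext q
    exact (meanK_eq n q).symm
  have hs : (∑ e ∈ edges n, (1:ℝ) * Ex (fun _ => p) ((edges n).erase e)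
        (fun F => (nK (insert e F) : ℝ) - (nK F : ℝ))) =
      -∑ e ∈ edges n, (1 - Pr (fun _ => p) ((edges n).erase e) (SJ e)) := by
    rw [← sum_neg_distrib]
    apply sum_congr rfl
    intro e _
    rw [one_mul, ← Pr_not]
    unfold Pr
    rw [← neg_one_mul, ← Ex_mul_left]
    apply Ex_congr
    intro F hF
    by_cases hJ : SJ e F
    · rw [(nK_insert e F).1 hJ, ind_not_of (not_not.2 hJ)]; ring
    · have := (nK_insert e F).2 hJ
      rw [ind_of hJ, ← this]
      push_cast
      ring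
  rw [← hs, ← e1]
  exact h

/-! ### The box as a set of edges of the lattice -/

/-- The edges of the box as edges of the lattice. -/
noncomputable def boxS (n : ℕ) : Finset Edg := RE 0 ((n:ℤ) - 1) 0 ((n:ℤ) - 1)

/-- The vertex of the box. -/
def vx (n : ℕ) [NeZero n] (v : Vtx) : Fin n × Fin n := (Fin.ofNat n v.1.toNat, Fin.ofNat n v.2.toNat)

/-- The vertex of the lattice. -/
def io {n : ℕ} (a : Fin n × Fin n) : Vtx := (((a.1 : ℕ) : ℤ), ((a.2 : ℕ) : ℤ))

/-- Vertices of the box. -/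
def inBox (n : ℕ) (v : Vtx) : Prop := (0 ≤ v.1 ∧ v.1 < n) ∧ (0 ≤ v.2 ∧ v.2 < n)

theorem io_in {n : ℕ} (a : Fin n × Fin n) : inBox n (io a) := by
  unfold inBox io
  have h1 := a.1.isLt
  have h2 := a.2.isLt
  simp only
  omega

theorem io_vx {n : ℕ} [NeZero n] {v : Vtx} (h : inBox n v) : io (vx n v) = v := by
  obtain ⟨x, y⟩ := v
  unfold inBox at h
  unfold io vx
  simp only [Fin.ofNat] at h ⊢
  have h1 : x.toNat % n = x.toNat := Nat.mod_eq_of_lt (by omega)
  have h2 : y.toNat % n = y.toNat := Nat.mod_eq_of_lt (by omega)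
  rw [h1, h2, Prod.mk.injEq]
  omega

theorem vx_io {n : ℕ} [NeZero n] (a : Fin n × Fin n) : vx n (io a) = a := by
  obtain ⟨x, y⟩ := a
  unfold io vx
  rw [Prod.mk.injEq]
  constructor
  · apply Fin.ext
    simp only [Fin.ofNat, Int.toNat_natCast]
    exact Nat.mod_eq_of_lt x.isLt
  · apply Fin.ext
    simp only [Fin.ofNat, Int.toNat_natCast]
    exact Nat.mod_eq_of_lt y.isLt

theorem ends_in {n : ℕ} {e : Edg} (he : e ∈ boxS n) : inBox n (src e) ∧ inBox n (tgt e) := by
  unfold boxS at he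
  unfold inBox
  obtain ⟨x, y, _ | _⟩ := e
  · rw [mem_RE_false] at he
    simp only [src_mk, tgt_false]; omega
  · rw [mem_RE_true] at he
    simp only [src_mk, tgt_true]; omega

/-- The edge of the box. -/
def ps (n : ℕ) [NeZero n] (e : Edg) : Sym2 (Fin n × Fin n) := s(vx n (src e), vx n (tgt e))

theorem ps_inj {n : ℕ} [NeZero n] : Set.InjOn (ps n) (↑(boxS n) : Set Edg) := by
  intro e he e' he' h
  have h1 := ends_in (Finset.mem_coe.1 he)
  have h2 := ends_in (Finset.mem_coe.1 he')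
  unfold ps at h
  rw [Sym2.eq, Sym2.rel_iff'] at h
  simp only [Prod.mk.injEq, Prod.swap_prod_mk] at h
  have key : ∀ {u v : Vtx}, inBox n u → inBox n v → vx n u = vx n v → u = v := by
    intro u v hu hv huv
    rw [← io_vx hu, ← io_vx hv, huv]
  rcases h with ⟨ha, hb⟩ | ⟨ha, hb⟩
  · have ka := key h1.1 h2.1 ha
    have kb := key h1.2 h2.2 hb
    obtain ⟨x, y, _ | _⟩ := e <;> obtain ⟨x', y', _ | _⟩ := e' <;>
      simp [src_mk, tgt_true, tgt_false] at ka kb ⊢ <;> omega
  · have ka := key h1.1 h2.2 ha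
    have kb := key h1.2 h2.1 hb
    obtain ⟨x, y, _ | _⟩ := e <;> obtain ⟨x', y', _ | _⟩ := e' <;>
      simp [src_mk, tgt_true, tgt_false] at ka kb ⊢ <;> omega

theorem edges_eq {n : ℕ} [NeZero n] : edges n = (boxS n).image (ps n) := by
  ext e
  unfold edges
  rw [Set.Finite.mem_toFinset, Finset.mem_image]
  induction e using Sym2.ind with
  | _ a c =>
    rw [SimpleGraph.mem_edgeSet]
    have e1 : (box n).Adj a c ↔
        |(io a).1 - (io c).1| + |(io a).2 - (io c).2| = 1 := Iff.rfl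
    rw [e1]
    have ha := io_in a
    have hc := io_in c
    constructor
    · intro h
      obtain ⟨x, hx⟩ : ∃ x, io a = x := ⟨_, rfl⟩
      obtain ⟨y, hy⟩ : ∃ y, io c = y := ⟨_, rfl⟩
      have va : vx n x = a := by rw [← hx, vx_io]
      have vc : vx n y = c := by rw [← hy, vx_io]
      rw [hx] at ha h
      rw [hy] at hc h
      obtain ⟨x1, x2⟩ := x
      obtain ⟨y1, y2⟩ := y
      unfold inBox at ha hc
      simp only at ha hc h
      have cases4 : (y1 = x1 + 1 ∧ y2 = x2) ∨ (x1 = y1 + 1 ∧ y2 = x2) ∨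
          (y2 = x2 + 1 ∧ y1 = x1) ∨ (x2 = y2 + 1 ∧ y1 = x1) := by
        rcases abs_cases (x1 - y1) with ⟨g1, g1'⟩ | ⟨g1, g1'⟩ <;>
          rcases abs_cases (x2 - y2) with ⟨g2, g2'⟩ | ⟨g2, g2'⟩ <;> omega
      rcases cases4 with ⟨k1, k2⟩ | ⟨k1, k2⟩ | ⟨k1, k2⟩ | ⟨k1, k2⟩
      · subst k1; subst k2
        refine ⟨(x1, y2, true), ?_, ?_⟩
        · unfold boxS; rw [mem_RE_true]; omega
        · unfold ps; rw [src_mk, tgt_true, va, vc]
      · subst k1; subst k2
        refine ⟨(y1, y2, true), ?_, ?_⟩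
        · unfold boxS; rw [mem_RE_true]; omega
        · unfold ps; rw [src_mk, tgt_true, va, vc, Sym2.eq_swap]
      · subst k1; subst k2
        refine ⟨(y1, x2, false), ?_, ?_⟩
        · unfold boxS; rw [mem_RE_false]; omega
        · unfold ps; rw [src_mk, tgt_false, va, vc]
      · subst k1; subst k2
        refine ⟨(y1, y2, false), ?_, ?_⟩
        · unfold boxS; rw [mem_RE_false]; omega
        · unfold ps; rw [src_mk, tgt_false, va, vc, Sym2.eq_swap]
    · rintro ⟨g, hg, hps⟩
      have hin := ends_in hg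
      unfold ps at hps
      rw [Sym2.eq, Sym2.rel_iff'] at hps
      simp only [Prod.mk.injEq, Prod.swap_prod_mk] at hps
      rcases hps with ⟨ka, kb⟩ | ⟨ka, kb⟩
      · rw [← ka, ← kb, io_vx hin.1, io_vx hin.2]
        obtain ⟨x, y, _ | _⟩ := g
        · simp [src_mk, tgt_false]
        · simp [src_mk, tgt_true]
      · rw [← ka, ← kb, io_vx hin.1, io_vx hin.2]
        obtain ⟨x, y, _ | _⟩ := g
        · simp [src_mk, tgt_false]
        · simp [src_mk, tgt_true]

theorem reach_ps {n : ℕ} [NeZero n] {F : Finset Edg} {u v : Vtx}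
    (h : Reach (↑F : Set Edg) u v) :
    (SimpleGraph.fromEdgeSet ((F.image (ps n) : Finset _) : Set (Sym2 (Fin n × Fin n)))).Reachable
      (vx n u) (vx n v) := by
  induction h with
  | refl => exact SimpleGraph.Reachable.refl _
  | @tail w w' _ hs ih =>
    by_cases hne : vx n w = vx n w'
    · rw [← hne]; exact ih
    · refine ih.trans (SimpleGraph.Adj.reachable ?_)
      rw [SimpleGraph.fromEdgeSet_adj]
      refine ⟨?_, hne⟩
      obtain ⟨g, hg, hcase⟩ := hs
      rw [Finset.mem_coe, Finset.mem_image]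
      refine ⟨g, Finset.mem_coe.1 hg, ?_⟩
      unfold ps
      rcases hcase with ⟨h1, h2⟩ | ⟨h1, h2⟩
      · rw [h1, h2]
      · rw [h1, h2, Sym2.eq_swap]

theorem reach_io {n : ℕ} [NeZero n] {F : Finset Edg} (hF : F ⊆ boxS n) {a c : Fin n × Fin n}
    (h : (SimpleGraph.fromEdgeSet
      ((F.image (ps n) : Finset _) : Set (Sym2 (Fin n × Fin n)))).Reachable a c) :
    Reach (↑F : Set Edg) (io a) (io c) := by
  rw [SimpleGraph.reachable_iff_reflTransGen] at h
  induction h with
  | refl => exact Reach.refl _ _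
  | @tail w w' _ hs ih =>
    rw [SimpleGraph.fromEdgeSet_adj, Finset.mem_coe, Finset.mem_image] at hs
    obtain ⟨⟨g, hg, hps⟩, _⟩ := hs
    have hin := ends_in (hF hg)
    unfold ps at hps
    rw [Sym2.eq, Sym2.rel_iff'] at hps
    simp only [Prod.mk.injEq, Prod.swap_prod_mk] at hps
    refine ih.trans (H974.Adj.reach ⟨g, Finset.mem_coe.2 hg, ?_⟩)
    rcases hps with ⟨ka, kb⟩ | ⟨ka, kb⟩
    · left
      rw [← ka, ← kb, io_vx hin.1, io_vx hin.2]
      exact ⟨rfl, rfl⟩
    · right
      rw [← ka, ← kb, io_vx hin.1, io_vx hin.2]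
      exact ⟨rfl, rfl⟩

theorem SJ_ps {n : ℕ} [NeZero n] {F : Finset Edg} (hF : F ⊆ boxS n) {e : Edg}
    (he : e ∈ boxS n) : SJ (ps n e) (F.image (ps n)) ↔ JB e F := by
  have hin := ends_in he
  unfold ps
  rw [SJ_iff]
  constructor
  · intro h
    have := reach_io hF h
    rw [io_vx hin.1, io_vx hin.2] at this
    exact this
  · exact fun h => reach_ps h

/-- Probabilities in the box. -/
noncomputable def pJ (n : ℕ) (s : ℝ) (e : Edg) : ℝ :=
  Pr (fun _ => s) ((boxS n).erase e) (JB e)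

theorem pr_ps {n : ℕ} [NeZero n] (s : ℝ) {e : Edg} (he : e ∈ boxS n) :
    Pr (fun _ => s) ((edges n).erase (ps n e)) (SJ (ps n e)) = pJ n s e := by
  have e1 : (edges n).erase (ps n e) = ((boxS n).erase e).image (ps n) := by
    rw [edges_eq]
    ext f
    simp only [Finset.mem_erase, Finset.mem_image]
    constructor
    · rintro ⟨hne, g, hg, rfl⟩
      exact ⟨g, ⟨fun hc => hne (by rw [hc]), hg⟩, rfl⟩
    · rintro ⟨g, ⟨hne, hg⟩, rfl⟩
      exact ⟨fun hc => hne (ps_inj (Finset.mem_coe.2 hg) (Finset.mem_coe.2 he) hc), g, hg, rfl⟩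
  rw [e1, Pr_image _ _ _ (ps_inj.mono (by simpa using Finset.erase_subset e (boxS n)))]
  exact Pr_congr (fun F hF => SJ_ps (hF.trans (Finset.erase_subset _ _)) he)

theorem meanK_deriv' (n : ℕ) [NeZero n] (p : ℝ) : HasDerivAt (meanK n)
    (-∑ e ∈ boxS n, (1 - pJ n p e)) p := by
  have h := meanK_deriv n p
  have e1 : ∑ e ∈ edges n, (1 - Pr (fun _ => p) ((edges n).erase e) (SJ e)) =
      ∑ e ∈ boxS n, (1 - pJ n p e) := by
    conv_lhs => rw [edges_eq]
    rw [Finset.sum_image ps_inj]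
    apply sum_congr rfl
    intro e he
    rw [← edges_eq, pr_ps p he]
  rw [← e1]
  exact h

theorem meanK_zero (n : ℕ) : meanK n 0 = (n:ℝ) ^ 2 := by
  unfold meanK
  rw [Finset.sum_eq_single ∅]
  · simp only [Finset.card_empty, pow_zero, sub_zero, one_pow, one_mul]
    have : nK (∅ : Finset (Sym2 (Fin n × Fin n))) = n * n := by
      unfold nK
      rw [Finset.coe_empty, SimpleGraph.fromEdgeSet_empty]
      have hb : Function.Bijective
          (fun x : Fin n × Fin n => (⊥ : SimpleGraph (Fin n × Fin n)).connectedComponentMk x) := by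
        constructor
        · intro x y h
          simpa using SimpleGraph.ConnectedComponent.exact h
        · intro c
          refine SimpleGraph.ConnectedComponent.ind (fun x => ?_) c
          exact ⟨x, rfl⟩
      rw [← Nat.card_congr (Equiv.ofBijective _ hb)]
      simp
    rw [this]
    push_cast
    ring
  · intro S _ hS
    rw [zero_pow (Finset.card_ne_zero.2 (Finset.nonempty_iff_ne_empty.2 hS))]
    ring
  · intro h
    exact absurd (Finset.empty_mem_powerset _) h

end Pool.Agent.N952.AL
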