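import Mathlib

/-! Taylor's formula and Landau's inequality. -/

set_option autoImplicit false

namespace Pool.Agent.N952.AL

open Set

theorem lip_uIcc {f f' : ℝ → ℝ} {B x0 x : ℝ} (h : ∀ y ∈ uIcc x0 x, HasDerivAt f (f' y) y)
    (hb : ∀ y ∈ uIcc x0 x, |f' y| ≤ B) : |f x - f x0| ≤ B * |x - x0| :=
  (convex_uIcc x0 x).norm_image_sub_le_of_norm_hasDerivWithin_le
    (fun y hy => (h y hy).hasDerivWithinAt) hb left_mem_uIcc right_mem_uIcc

/-- Taylor's formula of order two. -/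
theorem taylor2 {f f' : ℝ → ℝ} {B x0 x : ℝ} (h : ∀ y ∈ uIcc x0 x, HasDerivAt f (f' y) y)
    (h2 : ∀ y ∈ uIcc x0 x, ∃ D, HasDerivAt f' D y ∧ |D| ≤ B) :
    |f x - f x0 - f' x0 * (x - x0)| ≤ B * (x - x0) ^ 2 := by
  have hB : 0 ≤ B := by
    obtain ⟨D, _, hD⟩ := h2 x0 left_mem_uIcc
    exact (abs_nonneg D).trans hD
  choose! D hD hDB using h2
  have l1 : ∀ y ∈ uIcc x0 x, |f' y - f' x0| ≤ B * |x - x0| := by
    intro y hy
    have hsub : uIcc x0 y ⊆ uIcc x0 x := uIcc_subset_uIcc left_mem_uIcc hy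
    have h3 := lip_uIcc (f := f') (f' := D) (x0 := x0) (x := y) (fun z hz => hD z (hsub hz))
      (fun z hz => hDB z (hsub hz))
    refine h3.trans (mul_le_mul_of_nonneg_left ?_ hB)
    exact abs_sub_left_of_mem_uIcc hy
  have l2 := lip_uIcc (f := fun y => f y - f' x0 * y) (f' := fun y => f' y - f' x0)
    (B := B * |x - x0|) (x0 := x0) (x := x) (fun y hy => by
      have := (h y hy).fun_sub ((hasDerivAt_id' y).const_mul (f' x0))
      rwa [mul_one] at this) l1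
  calc _ = |f x - f' x0 * x - (f x0 - f' x0 * x0)| := by congr 1; ring
    _ ≤ B * |x - x0| * |x - x0| := l2
    _ = B * (x - x0) ^ 2 := by rw [mul_assoc, abs_mul_abs_self]; ring

/-- Landau's inequality. -/
theorem landau {f f' : ℝ → ℝ} {A B x0 h : ℝ} (hh : 0 < h)
    (hf : ∀ y ∈ uIcc x0 (x0 + h), HasDerivAt f (f' y) y)
    (h2 : ∀ y ∈ uIcc x0 (x0 + h), ∃ D, HasDerivAt f' D y ∧ |D| ≤ B)
    (hA : ∀ y ∈ uIcc x0 (x0 + h), |f y| ≤ A) : |f' x0| ≤ 2 * A / h + B * h := by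
  have h3 := taylor2 hf h2
  have a1 := hA x0 left_mem_uIcc
  have a2 := hA _ right_mem_uIcc
  rw [add_sub_cancel_left] at h3
  have h4 : |f' x0 * h| ≤ 2 * A + B * h ^ 2 := by
    have e : f' x0 * h = (f (x0 + h) - f x0) - (f (x0 + h) - f x0 - f' x0 * h) := by ring
    rw [e]
    refine (abs_sub _ _).trans ?_
    have := abs_sub (f (x0 + h)) (f x0)
    linarith
  rw [abs_mul, abs_of_pos hh] at h4
  have h5 : |f' x0| ≤ (2 * A + B * h ^ 2) / h := by rwa [le_div_iff₀ hh]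
  refine h5.trans (le_of_eq ?_)
  field_simp

end Pool.Agent.N952.AL
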