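import Mathlib

/-! The number of connected components and one more edge. -/

set_option autoImplicit false

namespace Pool.Agent.N952.AL

open SimpleGraph

variable {V : Type*}

theorem reach_sup {G : SimpleGraph V} {u v x y : V} (h : (G ⊔ edge u v).Reachable x y) :
    G.Reachable x y ∨ (G.Reachable x u ∧ G.Reachable v y) ∨
      (G.Reachable x v ∧ G.Reachable u y) := by
  rw [reachable_iff_reflTransGen] at h
  induction h with
  | refl => exact Or.inl (Reachable.refl _)
  | @tail y' y'' _ hs ih =>
    rw [sup_adj, edge_adj] at hs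
    rcases hs with hs | ⟨⟨h1, h2⟩ | ⟨h1, h2⟩, _⟩
    · rcases ih with ih | ⟨i1, i2⟩ | ⟨i1, i2⟩
      · exact Or.inl (ih.trans hs.reachable)
      · exact Or.inr (Or.inl ⟨i1, i2.trans hs.reachable⟩)
      · exact Or.inr (Or.inr ⟨i1, i2.trans hs.reachable⟩)
    · subst h1; subst h2
      rcases ih with ih | ⟨i1, _⟩ | ⟨i1, _⟩
      · exact Or.inr (Or.inl ⟨ih, Reachable.refl _⟩)
      · exact Or.inr (Or.inl ⟨i1, Reachable.refl _⟩)
      · exact Or.inl i1
    · subst h1; subst h2
      rcases ih with ih | ⟨i1, _⟩ | ⟨i1, _⟩
      · exact Or.inr (Or.inr ⟨ih, Reachable.refl _⟩)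
      · exact Or.inl i1
      · exact Or.inr (Or.inr ⟨i1, Reachable.refl _⟩)

theorem card_of_reach [Finite V] {G : SimpleGraph V} {u v : V} (h : G.Reachable u v) :
    Nat.card (G ⊔ edge u v).ConnectedComponent = Nat.card G.ConnectedComponent := by
  apply le_antisymm
  · exact ConnectedComponent.card_le_card_of_le le_sup_left
  · apply Nat.card_le_card_of_injective
      (ConnectedComponent.lift (fun x => (G ⊔ edge u v).connectedComponentMk x) (by
        intro x y p _
        exact ConnectedComponent.sound (p.reachable.mono le_sup_left)))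
    intro c d
    refine ConnectedComponent.ind₂ (fun x y hxy => ?_) c d
    simp only [ConnectedComponent.lift_mk] at hxy
    apply ConnectedComponent.sound
    rcases reach_sup (ConnectedComponent.exact hxy) with h1 | ⟨h1, h2⟩ | ⟨h1, h2⟩
    · exact h1
    · exact h1.trans (h.trans h2)
    · exact h1.trans (h.symm.trans h2)

theorem card_of_not_reach [Finite V] {G : SimpleGraph V} {u v : V} (h : ¬ G.Reachable u v) :
    Nat.card (G ⊔ edge u v).ConnectedComponent + 1 = Nat.card G.ConnectedComponent := by
  classical
  have huv : u ≠ v := by rintro rfl; exact h (Reachable.refl _)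
  let φ : {c : G.ConnectedComponent // c ≠ G.connectedComponentMk v} →
      (G ⊔ edge u v).ConnectedComponent := fun c =>
    ConnectedComponent.lift (fun x => (G ⊔ edge u v).connectedComponentMk x) (by
        intro x y p _
        exact ConnectedComponent.sound (p.reachable.mono le_sup_left)) c.1
  have hφ : Function.Bijective φ := by
    constructor
    · rintro ⟨c, hc⟩ ⟨d, hd⟩ hcd
      revert hc hd hcd
      refine ConnectedComponent.ind₂ (fun x y hx hy hxy => ?_) c d
      simp only [φ, ConnectedComponent.lift_mk] at hxy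
      apply Subtype.ext
      apply ConnectedComponent.sound
      rcases reach_sup (ConnectedComponent.exact hxy) with h1 | ⟨_, h2⟩ | ⟨h1, _⟩
      · exact h1
      · exact absurd (ConnectedComponent.sound h2.symm) hy
      · exact absurd (ConnectedComponent.sound h1) hx
    · intro c
      refine ConnectedComponent.ind (fun x => ?_) c
      by_cases hx : G.connectedComponentMk x = G.connectedComponentMk v
      · refine ⟨⟨G.connectedComponentMk u, fun hc => h (ConnectedComponent.exact hc)⟩, ?_⟩
        simp only [φ, ConnectedComponent.lift_mk]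
        apply ConnectedComponent.sound
        have h1 : (G ⊔ edge u v).Adj u v := by
          rw [sup_adj, edge_adj]
          exact Or.inr ⟨Or.inl ⟨rfl, rfl⟩, huv⟩
        exact h1.reachable.trans ((ConnectedComponent.exact hx).symm.mono le_sup_left)
      · exact ⟨⟨G.connectedComponentMk x, hx⟩, rfl⟩
  have e1 := Nat.card_congr (Equiv.ofBijective φ hφ)
  rw [← e1]
  have e2 : Nat.card {c : G.ConnectedComponent // ¬ (c = G.connectedComponentMk v)} +
      Nat.card {c : G.ConnectedComponent // c = G.connectedComponentMk v} =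
      Nat.card G.ConnectedComponent := by
    rw [add_comm, ← Nat.card_sum]
    exact Nat.card_congr (Equiv.sumCompl _)
  rw [← e2]
  congr 1
  simp

/-- The number of components of the graph with edges `F`. -/
noncomputable def nK (F : Finset (Sym2 V)) : ℕ :=
  Nat.card (SimpleGraph.fromEdgeSet (F : Set (Sym2 V))).ConnectedComponent

/-- The ends of `e` are connected by `F`. -/
def SJ (e : Sym2 V) (F : Finset (Sym2 V)) : Prop :=
  ∀ u v : V, e = s(u, v) → (SimpleGraph.fromEdgeSet (F : Set (Sym2 V))).Reachable u v

theorem insert_sup [DecidableEq V] (F : Finset (Sym2 V)) (u v : V) :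
    SimpleGraph.fromEdgeSet ((insert s(u, v) F : Finset (Sym2 V)) : Set (Sym2 V)) =
      SimpleGraph.fromEdgeSet (F : Set (Sym2 V)) ⊔ edge u v := by
  ext x y
  simp only [fromEdgeSet_adj, sup_adj, edge_adj, Finset.coe_insert, Set.mem_insert_iff, Sym2.eq,
    Sym2.rel_iff', Prod.mk.injEq, Prod.swap_prod_mk, Finset.mem_coe, ne_eq]
  tauto

theorem SJ_iff {u v : V} {F : Finset (Sym2 V)} :
    SJ s(u, v) F ↔ (SimpleGraph.fromEdgeSet (F : Set (Sym2 V))).Reachable u v := by
  constructor
  · exact fun h => h u v rfl
  · intro h x y hxy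
    rw [Sym2.eq, Sym2.rel_iff'] at hxy
    simp only [Prod.mk.injEq, Prod.swap_prod_mk] at hxy
    rcases hxy with ⟨rfl, rfl⟩ | ⟨rfl, rfl⟩
    · exact h
    · exact h.symm

theorem nK_insert [Finite V] [DecidableEq V] (e : Sym2 V) (F : Finset (Sym2 V)) :
    (SJ e F → nK (insert e F) = nK F) ∧ (¬ SJ e F → nK (insert e F) + 1 = nK F) := by
  induction e using Sym2.ind with
  | _ u v =>
    rw [SJ_iff]
    unfold nK
    rw [insert_sup]
    exact ⟨card_of_reach, card_of_not_reach⟩

end Pool.Agent.N952.AL
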