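import Pool.Agent.N952.AL.Inf
import Pool.Agent.N952.AL.Calc
import Pool.Agent.H973R3.NC.CT

/-! The connection probability in the plane near the critical point. -/

set_option autoImplicit false

namespace Pool.Agent.N952.AL

open H974 H12S H389NS H973N Finset Filter Topology

/-- The connection probability in the plane. -/
noncomputable def cI (b : Bool) (s : ℝ) : ℝ := ⨆ k : ℕ, cB k b s

theorem cB_bdd {s : ℝ} (h0 : 0 ≤ s) (h1 : s ≤ 1) (b : Bool) :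
    BddAbove (Set.range fun k : ℕ => cB k b s) :=
  ⟨1, by rintro _ ⟨k, rfl⟩; exact cB_le_one h0 h1 k b⟩

theorem cB_le_cI {s : ℝ} (h0 : 0 ≤ s) (h1 : s ≤ 1) (b : Bool) (k : ℕ) : cB k b s ≤ cI b s :=
  le_ciSup (cB_bdd h0 h1 b) k

theorem cI_le {s : ℝ} (h0 : 0 ≤ s) (h1 : s ≤ 1) (b : Bool) {k : ℕ} (hk : 1 ≤ k) :
    cI b s ≤ cB k b s + a4 s k := by
  refine ciSup_le fun m => ?_
  rcases le_total k m with h | h
  · exact cB_le h0 h1 b hk h
  · have h2 := cB_mono h0 h1 b h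
    have h3 := a4_nn h0 h1 k
    linarith

theorem cI_nonneg {s : ℝ} (h0 : 0 ≤ s) (h1 : s ≤ 1) (b : Bool) : 0 ≤ cI b s :=
  (cB_nonneg h0 h1 0 b).trans (cB_le_cI h0 h1 b 0)

theorem cI_le_one {s : ℝ} (h0 : 0 ≤ s) (h1 : s ≤ 1) (b : Bool) : cI b s ≤ 1 :=
  ciSup_le fun k => cB_le_one h0 h1 k b

theorem cB_cont (k : ℕ) (b : Bool) : Continuous (cB k b) := cont_Pr _ _

theorem cI_cont (b : Bool) : ContinuousOn (cI b) (Set.Icc 0 1) := by
  rw [Metric.continuousOn_iff]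
  intro x hx ε hε
  obtain ⟨N, hN, h⟩ := a4_unif (ε := ε / 4) (by positivity)
  obtain ⟨δ, hδ, hc⟩ := Metric.continuous_iff.1 (cB_cont N b) x (ε / 4) (by positivity)
  refine ⟨δ, hδ, fun y hy hyx => ?_⟩
  have h1 := hc y hyx
  rw [Real.dist_eq] at h1 ⊢
  have a1 := cB_le_cI hx.1 hx.2 b N
  have a2 := cI_le hx.1 hx.2 b hN
  have a3 := h x hx.1 hx.2 N le_rfl
  have b1 := cB_le_cI hy.1 hy.2 b N
  have b2 := cI_le hy.1 hy.2 b hN
  have b3 := h y hy.1 hy.2 N le_rfl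
  rw [abs_lt] at h1 ⊢
  constructor <;> linarith

theorem cI_cT {n : ℕ} [NeZero n] {s : ℝ} (h0 : 0 ≤ s) (h1 : s ≤ 1) (b : Bool) {k : ℕ}
    (hk : 1 ≤ k) (hn : 2 * k < n) : |cI b s - cT n b s| ≤ a4 s k := by
  have a1 := cT_ge (n := n) h0 h1 b hn
  have a2 := cT_le (n := n) h0 h1 b hk hn
  have a3 := cB_le_cI h0 h1 b k
  have a4' := cI_le h0 h1 b hk
  rw [abs_le]
  constructor <;> linarith

/-- Comparison of the torus and of the plane in the window. -/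
theorem cI_cT_win {C : ℝ} (hC : 1 ≤ C) {n : ℕ} [NeZero n] {s : ℝ} (hB : Bd C s n) (b : Bool) :
    |cI b s - cT n b s| ≤ C * 8 ^ (5/4 : ℝ) * (n:ℝ) ^ (-(5/4) : ℝ) := by
  have hn : 1 ≤ n := Nat.one_le_iff_ne_zero.2 (NeZero.ne n)
  have hnr : (1:ℝ) ≤ n := by exact_mod_cast hn
  have e : C * 8 ^ (5/4 : ℝ) * (n:ℝ) ^ (-(5/4) : ℝ) = C * ((n:ℝ) / 8) ^ (-(5/4) : ℝ) := by
    rw [Real.div_rpow (by positivity) (by norm_num), Real.rpow_neg (by norm_num : (0:ℝ) ≤ 8)]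
    field_simp
  rw [e]
  by_cases h8 : n ≤ 8
  · have t1 : |cI b s - cT n b s| ≤ 1 := by
      have x1 := cI_nonneg hB.h0 hB.h1 b
      have x2 := cI_le_one hB.h0 hB.h1 b
      have x3 : 0 ≤ cT n b s := Pr_nonneg (fun _ => ⟨hB.h0, hB.h1⟩) _ _
      have x4 : cT n b s ≤ 1 := Pr_le_one (fun _ => ⟨hB.h0, hB.h1⟩) _ _
      rw [abs_le]; constructor <;> linarith
    have h1 : (1:ℝ) ≤ ((n:ℝ) / 8) ^ (-(5/4) : ℝ) := by
      apply Real.one_le_rpow_of_pos_of_le_one_of_nonpos (by positivity) _ (by norm_num)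
      rw [div_le_one (by norm_num)]
      exact_mod_cast h8
    nlinarith
  · push Not at h8
    have hk : 1 ≤ n / 4 := by omega
    refine (cI_cT hB.h0 hB.h1 b hk (by omega)).trans ((hB.a (n / 4) hk (by omega)).trans ?_)
    refine mul_le_mul_of_nonneg_left ?_ (by linarith)
    apply Real.rpow_le_rpow_of_nonpos (by positivity) _ (by norm_num)
    rw [div_le_iff₀ (by norm_num)]
    have : n ≤ n / 4 * 8 := by omega
    exact_mod_cast this

end Pool.Agent.N952.AL
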