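import Pool.Agent.N952.AL.Crit
import Pool.Agent.H973R3.NC.AR

/-! Expansion of the connection probability at the critical point. -/

set_option autoImplicit false

namespace Pool.Agent.N952.AL

open H974 H12S H389NS H973N Finset Filter Topology

theorem step_d {w C K : ℝ} (hw : 0 < w) (hC : 1 ≤ C) (hK : 0 < K)
    (hwin : ∀ n : ℕ, 1 ≤ n → ∀ q : ℝ, |q - 1/2| ≤ w * (n:ℝ) ^ (-(3/4 : ℝ)) → Bd C q n)
    (hsec : ∀ (n : ℕ) [NeZero n] (b : Bool) (q : ℝ), Bd C q n →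
      ∃ D : ℝ, HasDerivAt (cT1 n b) D q ∧ |D| ≤ K * (n:ℝ) ^ (1/4 : ℝ)) (b : Bool) (j : ℕ) :
    |cT1 (2 ^ (j + 1)) b (1/2) - cT1 (2 ^ j) b (1/2)| ≤
      (4 * (C * 8 ^ (5/4 : ℝ)) * 2 ^ (3/4 : ℝ) / w + 2 * K * w) *
        ((2:ℝ) ^ (-(1/2) : ℝ)) ^ j := by
  set n : ℕ := 2 ^ j with hn
  have hn' : 2 ^ (j + 1) = 2 * n := by rw [hn, pow_succ]; ring
  have hn1 : 1 ≤ n := Nat.one_le_two_pow
  have hnr : (0:ℝ) < n := by exact_mod_cast hn1
  set C8 : ℝ := C * 8 ^ (5/4 : ℝ) with hC8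
  have hC8p : 0 < C8 := by positivity
  set h : ℝ := w * (2 * (n:ℝ)) ^ (-(3/4) : ℝ) with hh
  have hhp : 0 < h := by positivity
  have hcast : ((2 ^ (j + 1) : ℕ) : ℝ) = 2 * (n:ℝ) := by rw [hn']; push_cast; ring
  have hbd : ∀ y ∈ Set.uIcc (1/2 : ℝ) (1/2 + h), Bd C y (2 ^ (j + 1)) := by
    intro y hy
    apply hwin _ Nat.one_le_two_pow
    rw [hcast, Set.uIcc_of_le (by linarith), Set.mem_Icc] at *
    rw [abs_of_nonneg (by linarith)]
    linarith [hy.2]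
  have hbd' : ∀ y ∈ Set.uIcc (1/2 : ℝ) (1/2 + h), Bd C y n := fun y hy =>
    (hbd y hy).mono (by rw [hn']; omega)
  have hanti : (2 * (n:ℝ)) ^ (-(5/4) : ℝ) ≤ (n:ℝ) ^ (-(5/4) : ℝ) :=
    Real.rpow_le_rpow_of_nonpos hnr (by linarith) (by norm_num)
  have hmono : (n:ℝ) ^ (1/4 : ℝ) ≤ (2 * (n:ℝ)) ^ (1/4 : ℝ) :=
    Real.rpow_le_rpow hnr.le (by linarith) (by norm_num)
  have key := landau (f := fun s => cT (2 ^ (j + 1)) b s - cT n b s)
    (f' := fun s => cT1 (2 ^ (j + 1)) b s - cT1 n b s)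
    (A := 2 * C8 * (n:ℝ) ^ (-(5/4) : ℝ)) (B := 2 * K * (2 * (n:ℝ)) ^ (1/4 : ℝ))
    (x0 := 1/2) hhp
    (fun y _ => (cT_deriv _ b y).fun_sub (cT_deriv _ b y))
    (fun y hy => by
      obtain ⟨D1, h1, h1'⟩ := hsec (2 ^ (j + 1)) b y (hbd y hy)
      obtain ⟨D2, h2, h2'⟩ := hsec n b y (hbd' y hy)
      refine ⟨D1 - D2, h1.fun_sub h2, ?_⟩
      rw [hcast] at h1'
      have := abs_sub D1 D2
      nlinarith)
    (fun y hy => by
      have h1 := cI_cT_win hC (hbd y hy) b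
      have h2 := cI_cT_win hC (hbd' y hy) b
      rw [hcast] at h1
      have e : cT (2 ^ (j + 1)) b y - cT n b y =
          (cI b y - cT n b y) - (cI b y - cT (2 ^ (j + 1)) b y) := by ring
      show |cT (2 ^ (j + 1)) b y - cT n b y| ≤ _
      rw [e]
      have := abs_sub (cI b y - cT n b y) (cI b y - cT (2 ^ (j + 1)) b y)
      nlinarith)
  refine key.trans ?_
  have e2 : ((2:ℝ) ^ (-(1/2) : ℝ)) ^ j = (n:ℝ) ^ (-(1/2) : ℝ) := by
    rw [← two_rpow_comm, hn]; push_cast; rfl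
  have e3 : (n:ℝ) ^ (-(5/4) : ℝ) = (n:ℝ) ^ (-(3/4) : ℝ) * (n:ℝ) ^ (-(1/2) : ℝ) := by
    rw [← Real.rpow_add hnr]; norm_num
  have e4 : (2 * (n:ℝ)) ^ (-(3/4) : ℝ) = (2 ^ (3/4 : ℝ))⁻¹ * (n:ℝ) ^ (-(3/4) : ℝ) := by
    rw [Real.mul_rpow (by norm_num) hnr.le, Real.rpow_neg (by norm_num : (0:ℝ) ≤ 2)]
  have e5 : (2 * (n:ℝ)) ^ (1/4 : ℝ) * (2 * (n:ℝ)) ^ (-(3/4) : ℝ) =
      (2 * (n:ℝ)) ^ (-(1/2) : ℝ) := by
    rw [← Real.rpow_add (by positivity)]; norm_num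
  have e6 : (2 * (n:ℝ)) ^ (-(1/2) : ℝ) ≤ (n:ℝ) ^ (-(1/2) : ℝ) :=
    Real.rpow_le_rpow_of_nonpos hnr (by linarith) (by norm_num)
  have p1 : 2 * (2 * C8 * (n:ℝ) ^ (-(5/4) : ℝ)) / h =
      4 * C8 * 2 ^ (3/4 : ℝ) / w * (n:ℝ) ^ (-(1/2) : ℝ) := by
    rw [hh, e3, e4]
    have : (n:ℝ) ^ (-(3/4) : ℝ) ≠ 0 := (Real.rpow_pos_of_pos hnr _).ne'
    field_simp
    ring
  have p2 : 2 * K * (2 * (n:ℝ)) ^ (1/4 : ℝ) * h ≤ 2 * K * w * (n:ℝ) ^ (-(1/2) : ℝ) := by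
    calc 2 * K * (2 * (n:ℝ)) ^ (1/4 : ℝ) * h
        = 2 * K * w * ((2 * (n:ℝ)) ^ (1/4 : ℝ) * (2 * (n:ℝ)) ^ (-(3/4) : ℝ)) := by rw [hh]; ring
      _ ≤ _ := by rw [e5]; gcongr
  rw [p1, e2]
  linarith

/-- **Expansion of the connection probability at the critical point.** -/
theorem cI_exp (b : Bool) : ∃ D C : ℝ, 0 < C ∧ ∀ s : ℝ, 0 ≤ s → s ≤ 1 →
    |cI b s - cI b (1/2) - D * (s - 1/2)| ≤ C * |s - 1/2| ^ (5/3 : ℝ) := by
  obtain ⟨w, C, hw, hC, hwin⟩ := window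
  obtain ⟨K, hK, hsec⟩ := second C hC
  set r : ℝ := (2:ℝ) ^ (-(1/2) : ℝ) with hr
  have hr0 : 0 < r := by positivity
  have hr1 : r < 1 := Real.rpow_lt_one_of_one_lt_of_neg (by norm_num) (by norm_num)
  set M : ℝ := 4 * (C * 8 ^ (5/4 : ℝ)) * 2 ^ (3/4 : ℝ) / w + 2 * K * w with hM
  have hMp : 0 < M := by positivity
  set d : ℕ → ℝ := fun j => cT1 (2 ^ j) b (1/2) with hd
  have hstep : ∀ j, dist (d j) (d (j + 1)) ≤ M * r ^ j := by
    intro j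
    rw [dist_comm, Real.dist_eq]
    exact step_d hw hC hK hwin hsec b j
  obtain ⟨D, hD⟩ := cauchySeq_tendsto_of_complete (cauchySeq_of_le_geometric r M hr1 hstep)
  have hdD : ∀ j, |d j - D| ≤ M / (1 - r) * r ^ j := by
    intro j
    have := dist_le_of_le_geometric_of_tendsto r M hr1 hstep hD j
    rw [Real.dist_eq] at this
    refine this.trans (le_of_eq ?_)
    ring
  set C8 : ℝ := C * 8 ^ (5/4 : ℝ) with hC8
  have hC8p : 0 < C8 := by positivity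
  set ρ : ℝ := (2:ℝ) ^ (-(3/4) : ℝ) with hρ
  have hρ0 : 0 < ρ := by positivity
  have hρ1 : ρ < 1 := Real.rpow_lt_one_of_one_lt_of_neg (by norm_num) (by norm_num)
  have hr1' : 0 < 1 - r := by linarith
  set C' : ℝ := (2 * C8 * (w * ρ) ^ (-(5/3) : ℝ) + K * w ^ (1/3 : ℝ) +
    M / (1 - r) * (w * ρ) ^ (-(2/3) : ℝ)) + (1 + |D|) * w ^ (-(5/3) : ℝ) with hC'
  have hc1 : 0 ≤ 2 * C8 * (w * ρ) ^ (-(5/3) : ℝ) + K * w ^ (1/3 : ℝ) +
    M / (1 - r) * (w * ρ) ^ (-(2/3) : ℝ) := by positivity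
  have hc2 : 0 < (1 + |D|) * w ^ (-(5/3) : ℝ) := by positivity
  refine ⟨D, C', by rw [hC']; linarith, ?_⟩
  intro s h0 h1
  set t : ℝ := |s - 1/2| with ht
  have ht0 : 0 ≤ t := abs_nonneg _
  rcases eq_or_lt_of_le ht0 with h | htp
  · have hs : s = 1/2 := by
      have := abs_eq_zero.1 h.symm
      linarith
    rw [← h, hs]
    simp
  by_cases htw : t ≤ w
  · obtain ⟨j, hj1, hj2⟩ := exists_nat_pow_near_of_lt_one (x := t / w) (by positivity)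
      (by rwa [div_le_one hw]) hρ0 hρ1
    set n : ℕ := 2 ^ j with hn
    have hn1 : 1 ≤ n := Nat.one_le_two_pow
    have hnr : (0:ℝ) < n := by exact_mod_cast hn1
    set u : ℝ := (n:ℝ) ^ (-(3/4) : ℝ) with hu
    have hup : 0 < u := by positivity
    have hur : u = ρ ^ j := by
      rw [hu, hρ, ← two_rpow_comm, hn]; push_cast; rfl
    rw [← hur] at hj2
    rw [pow_succ, ← hur] at hj1
    have tu1 : t ≤ w * u := by rwa [div_le_iff₀ hw, mul_comm] at hj2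
    have tu2 : u ≤ t / (w * ρ) := by
      rw [le_div_iff₀ (by positivity)]
      rw [lt_div_iff₀ hw] at hj1
      nlinarith
    have n54 : (n:ℝ) ^ (-(5/4) : ℝ) = u ^ (5/3 : ℝ) := by
      rw [hu, ← Real.rpow_mul hnr.le]; norm_num
    have n14 : (n:ℝ) ^ (1/4 : ℝ) = u ^ (-(1/3) : ℝ) := by
      rw [hu, ← Real.rpow_mul hnr.le]; norm_num
    have n12 : r ^ j = u ^ (2/3 : ℝ) := by
      rw [hu, ← Real.rpow_mul hnr.le, hr, ← two_rpow_comm, hn]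
      push_cast
      norm_num
    have hB : ∀ y ∈ Set.uIcc (1/2 : ℝ) s, Bd C y n := by
      intro y hy
      apply hwin n hn1
      refine (Set.abs_sub_left_of_mem_uIcc hy).trans ?_
      exact tu1
    have hBs := hB s Set.right_mem_uIcc
    have hBh := hB (1/2) Set.left_mem_uIcc
    have E1 := cI_cT_win hC hBs b
    have E2 := cI_cT_win hC hBh b
    have E3 := taylor2 (f := cT n b) (f' := cT1 n b) (B := K * (n:ℝ) ^ (1/4 : ℝ)) (x0 := 1/2)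
      (x := s) (fun y _ => cT_deriv n b y) (fun y hy => hsec n b y (hB y hy))
    have E4 := hdD j
    rw [← hC8, n54] at E1 E2
    rw [n14] at E3
    rw [n12] at E4
    have q1 : u ^ (5/3 : ℝ) ≤ (w * ρ) ^ (-(5/3) : ℝ) * t ^ (5/3 : ℝ) := by
      calc u ^ (5/3 : ℝ) ≤ (t / (w * ρ)) ^ (5/3 : ℝ) :=
            Real.rpow_le_rpow hup.le tu2 (by norm_num)
        _ = _ := by
            rw [Real.div_rpow ht0 (by positivity), Real.rpow_neg (by positivity)]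
            field_simp
    have q2 : u ^ (2/3 : ℝ) ≤ (w * ρ) ^ (-(2/3) : ℝ) * t ^ (2/3 : ℝ) := by
      calc u ^ (2/3 : ℝ) ≤ (t / (w * ρ)) ^ (2/3 : ℝ) :=
            Real.rpow_le_rpow hup.le tu2 (by norm_num)
        _ = _ := by
            rw [Real.div_rpow ht0 (by positivity), Real.rpow_neg (by positivity)]
            field_simp
    have q3 : u ^ (-(1/3) : ℝ) ≤ w ^ (1/3 : ℝ) * t ^ (-(1/3) : ℝ) := by
      calc u ^ (-(1/3) : ℝ) ≤ (t / w) ^ (-(1/3) : ℝ) :=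
            Real.rpow_le_rpow_of_nonpos (by positivity) hj2 (by norm_num)
        _ = _ := by
            rw [Real.div_rpow ht0 hw.le, Real.rpow_neg hw.le]
            field_simp
    have t1 : t ^ (-(1/3) : ℝ) * t ^ 2 = t ^ (5/3 : ℝ) := by
      rw [← Real.rpow_natCast t 2, ← Real.rpow_add htp]; norm_num
    have t2 : t ^ (2/3 : ℝ) * t = t ^ (5/3 : ℝ) := by
      nth_rewrite 2 [← Real.rpow_one t]
      rw [← Real.rpow_add htp]; norm_num
    have st : (s - 1/2) ^ 2 = t ^ 2 := by rw [ht, sq_abs]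
    rw [st] at E3
    have F3 : K * u ^ (-(1/3) : ℝ) * t ^ 2 ≤ K * w ^ (1/3 : ℝ) * t ^ (5/3 : ℝ) := by
      calc K * u ^ (-(1/3) : ℝ) * t ^ 2 ≤ K * (w ^ (1/3 : ℝ) * t ^ (-(1/3) : ℝ)) * t ^ 2 := by
            gcongr
        _ = K * w ^ (1/3 : ℝ) * (t ^ (-(1/3) : ℝ) * t ^ 2) := by ring
        _ = _ := by rw [t1]
    have F4 : |(d j - D) * (s - 1/2)| ≤
        M / (1 - r) * (w * ρ) ^ (-(2/3) : ℝ) * t ^ (5/3 : ℝ) := by
      rw [abs_mul, ← ht]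
      calc |d j - D| * t ≤ M / (1 - r) * ((w * ρ) ^ (-(2/3) : ℝ) * t ^ (2/3 : ℝ)) * t := by
            refine mul_le_mul_of_nonneg_right (E4.trans ?_) ht0
            gcongr
        _ = M / (1 - r) * (w * ρ) ^ (-(2/3) : ℝ) * (t ^ (2/3 : ℝ) * t) := by ring
        _ = _ := by rw [t2]
    have F1 : C8 * u ^ (5/3 : ℝ) ≤ C8 * (w * ρ) ^ (-(5/3) : ℝ) * t ^ (5/3 : ℝ) := by
      calc C8 * u ^ (5/3 : ℝ) ≤ C8 * ((w * ρ) ^ (-(5/3) : ℝ) * t ^ (5/3 : ℝ)) :=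
            mul_le_mul_of_nonneg_left q1 hC8p.le
        _ = _ := by ring
    have tot : |cI b s - cI b (1/2) - D * (s - 1/2)| ≤ |cI b s - cT n b s| +
        |cI b (1/2) - cT n b (1/2)| + |cT n b s - cT n b (1/2) - cT1 n b (1/2) * (s - 1/2)| +
        |(d j - D) * (s - 1/2)| := by
      have e : cI b s - cI b (1/2) - D * (s - 1/2) = (cI b s - cT n b s) -
          (cI b (1/2) - cT n b (1/2)) +
          (cT n b s - cT n b (1/2) - cT1 n b (1/2) * (s - 1/2)) +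
          (d j - D) * (s - 1/2) := by
        show _ = (cI b s - cT n b s) - (cI b (1/2) - cT n b (1/2)) +
          (cT n b s - cT n b (1/2) - cT1 n b (1/2) * (s - 1/2)) +
          (cT1 n b (1/2) - D) * (s - 1/2)
        ring
      rw [e]
      refine (abs_add_le _ _).trans (add_le_add ?_ le_rfl)
      refine (abs_add_le _ _).trans (add_le_add ?_ le_rfl)
      exact abs_sub _ _
    have hpos : 0 ≤ (1 + |D|) * w ^ (-(5/3) : ℝ) * t ^ (5/3 : ℝ) := by positivity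
    calc _ ≤ _ := tot
      _ ≤ C8 * (w * ρ) ^ (-(5/3) : ℝ) * t ^ (5/3 : ℝ) + C8 * (w * ρ) ^ (-(5/3) : ℝ) *
          t ^ (5/3 : ℝ) + K * w ^ (1/3 : ℝ) * t ^ (5/3 : ℝ) +
          M / (1 - r) * (w * ρ) ^ (-(2/3) : ℝ) * t ^ (5/3 : ℝ) := by
          linarith
      _ ≤ C' * t ^ (5/3 : ℝ) := by
          rw [hC']
          linarith
  · push Not at htw
    have x1 := cI_nonneg h0 h1 b
    have x2 := cI_le_one h0 h1 b
    have x3 := cI_nonneg (s := 1/2) (by norm_num) (by norm_num) b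
    have x4 := cI_le_one (s := 1/2) (by norm_num) (by norm_num) b
    have t1 : t ≤ 1 := by rw [ht, abs_le]; constructor <;> linarith
    have g1 : |cI b s - cI b (1/2) - D * (s - 1/2)| ≤ 1 + |D| := by
      refine (abs_sub _ _).trans ?_
      have y1 : |cI b s - cI b (1/2)| ≤ 1 := by rw [abs_le]; constructor <;> linarith
      have y2 : |D * (s - 1/2)| ≤ |D| := by
        rw [abs_mul, ← ht]
        nlinarith [abs_nonneg D]
      linarith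
    have g2 : (1:ℝ) ≤ w ^ (-(5/3) : ℝ) * t ^ (5/3 : ℝ) := by
      have e : w ^ (-(5/3) : ℝ) * t ^ (5/3 : ℝ) = (t / w) ^ (5/3 : ℝ) := by
        rw [Real.div_rpow ht0 hw.le, Real.rpow_neg hw.le]
        field_simp
      rw [e]
      apply Real.one_le_rpow _ (by norm_num)
      rw [one_le_div hw]
      exact htw.le
    have hpos : 0 ≤ (2 * C8 * (w * ρ) ^ (-(5/3) : ℝ) + K * w ^ (1/3 : ℝ) +
        M / (1 - r) * (w * ρ) ^ (-(2/3) : ℝ)) * t ^ (5/3 : ℝ) := by positivity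
    calc _ ≤ 1 + |D| := g1
      _ ≤ (1 + |D|) * (w ^ (-(5/3) : ℝ) * t ^ (5/3 : ℝ)) := by
          have : 0 ≤ 1 + |D| := by positivity
          nlinarith
      _ ≤ C' * t ^ (5/3 : ℝ) := by
          rw [hC']
          linarith

end Pool.Agent.N952.AL
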