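import Pool.Agent.N952.AL.Tor
import Pool.Agent.H389R2.NS.S4C

/-! The discrete torus: distances, exits from balls, local arm events. -/

set_option autoImplicit false

namespace Pool.Agent.N952.AL

open H974 H12S H389NS Finset

/-- Norm on `ZMod n`. -/
def nz (n : ℕ) (z : ZMod n) : ℕ := z.valMinAbs.natAbs

/-- Distance of the base points of two edges of the torus. -/
def td (n : ℕ) (f g : TEd n) : ℕ := max (nz n (f.1 - g.1)) (nz n (f.2.1 - g.2.1))

/-- Base point. -/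
abbrev bs (x : Edg) : ℤ × ℤ := (x.1, x.2.1)

theorem nz_cast {n : ℕ} [NeZero n] (x : ℤ) : nz n (x : ZMod n) ≤ x.natAbs := by
  unfold nz
  apply ZMod.natAbs_min_of_le_div_two n
  · rw [ZMod.coe_valMinAbs]
  · exact ZMod.natAbs_valMinAbs_le _

theorem nz_add {n : ℕ} (a b : ZMod n) : nz n (a + b) ≤ nz n a + nz n b := by
  unfold nz
  exact (ZMod.natAbs_valMinAbs_add_le a b).trans (Int.natAbs_add_le _ _)

theorem nz_neg {n : ℕ} (a : ZMod n) : nz n (-a) = nz n a := ZMod.natAbs_valMinAbs_neg a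

theorem nz_half {n : ℕ} [NeZero n] (a : ZMod n) : nz n a ≤ n / 2 := ZMod.natAbs_valMinAbs_le a

theorem td_comm {n : ℕ} (f g : TEd n) : td n f g = td n g f := by
  unfold td
  rw [← nz_neg (f.1 - g.1), ← nz_neg (f.2.1 - g.2.1), neg_sub, neg_sub]

theorem td_tri {n : ℕ} (f g h : TEd n) : td n f h ≤ td n f g + td n g h := by
  unfold td
  have h1 := nz_add (f.1 - g.1) (g.1 - h.1)
  have h2 := nz_add (f.2.1 - g.2.1) (g.2.1 - h.2.1)
  rw [sub_add_sub_cancel] at h1 h2
  omega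

theorem td_half {n : ℕ} [NeZero n] (f g : TEd n) : td n f g ≤ n / 2 := max_le (nz_half _) (nz_half _)

theorem td_rp {n : ℕ} [NeZero n] (x y : Edg) {k : ℕ} (h1 : |x.1 - y.1| ≤ k)
    (h2 : |x.2.1 - y.2.1| ≤ k) : td n (rp n x) (rp n y) ≤ k := by
  unfold td rp
  simp only
  have e1 := nz_cast (n := n) (x.1 - y.1)
  have e2 := nz_cast (n := n) (x.2.1 - y.2.1)
  push_cast at e1 e2
  refine max_le (e1.trans ?_) (e2.trans ?_)
  · rw [abs_le] at h1; omega
  · rw [abs_le] at h2; omega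

theorem mem_blk_abs {c : ℤ × ℤ} {k : ℕ} {g : Edg} (h : g ∈ blk c k) :
    |c.1 - g.1| ≤ k ∧ |c.2 - g.2.1| ≤ k := by
  unfold blk at h
  obtain ⟨x, y, _ | _⟩ := g
  · rw [mem_RE_false] at h
    simp only [abs_le]
    omega
  · rw [mem_RE_true] at h
    simp only [abs_le]
    omega

theorem mem_blk_of {c : ℤ × ℤ} {k : ℕ} {g : Edg} (h1 : |c.1 - g.1| < k) (h2 : |c.2 - g.2.1| < k) :
    g ∈ blk c k := by
  unfold blk
  rw [abs_lt] at h1 h2
  obtain ⟨x, y, _ | _⟩ := g
  · rw [mem_RE_false]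
    simp only at h1 h2
    omega
  · rw [mem_RE_true]
    simp only at h1 h2
    omega

/-- Injectivity on blocks. -/
theorem inj_blk {n k : ℕ} (h : 2 * k < n) {c : ℤ × ℤ} {g g' : Edg} (hg : g ∈ blk c k)
    (hg' : g' ∈ blk c k) (he : rp n g = rp n g') : g = g' := by
  have h1 := mem_blk_abs hg
  have h2 := mem_blk_abs hg'
  rw [abs_le, abs_le] at h1 h2
  obtain ⟨x, y, b⟩ := g
  obtain ⟨x', y', b'⟩ := g'
  simp only [rp, Prod.mk.injEq] at he
  simp only at h1 h2
  obtain ⟨e1, e2, e3⟩ := he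
  rw [ZMod.intCast_eq_intCast_iff_dvd_sub] at e1 e2
  have f1 := Int.eq_zero_of_abs_lt_dvd e1 (by rw [abs_lt]; omega)
  have f2 := Int.eq_zero_of_abs_lt_dvd e2 (by rw [abs_lt]; omega)
  have g1 : x = x' := by omega
  have g2 : y = y' := by omega
  rw [g1, g2, e3]

theorem injOn_blk {n k : ℕ} (h : 2 * k < n) (c : ℤ × ℤ) : Set.InjOn (rp n) (blk c k) :=
  fun _ hg _ hg' he => inj_blk h (Finset.mem_coe.1 hg) (Finset.mem_coe.1 hg') he

/-- Edges at distance more than `k` are not seen in the ball of radius `k`. -/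
theorem notin_blk {n : ℕ} [NeZero n] {c : ℤ × ℤ} {b : Bool} {k : ℕ} {f : TEd n}
    (h : k < td n (rp n (c.1, c.2, b)) f) {g : Edg} (hg : g ∈ blk c k) : rp n g ≠ f := by
  rintro rfl
  have h1 := mem_blk_abs hg
  have := td_rp (n := n) (c.1, c.2, b) g h1.1 h1.2
  omega

/-- All the lifts of `x` are outside the open ball. -/
def Out (n : ℕ) (c : ℤ × ℤ) (k : ℕ) (x : TVt n) : Prop :=
  ∀ v : Vtx, rv n v = x → (v.1 ≤ c.1 - k ∨ c.1 + k ≤ v.1 ∨ v.2 ≤ c.2 - k ∨ c.2 + k ≤ v.2)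

theorem Out.mono {n : ℕ} {c : ℤ × ℤ} {d k : ℕ} (hd : d ≤ k) {x : TVt n} (h : Out n c k x) :
    Out n c d x := by
  intro v hv
  have := h v hv
  omega

theorem out_of_td {n : ℕ} [NeZero n] {c : ℤ × ℤ} {b : Bool} {k : ℕ} {f : TEd n}
    (h : k < td n (rp n (c.1, c.2, b)) f) : Out n c k (ts n f) ∧ Out n c k (tt n f) := by
  have key : ∀ v : Vtx, rv n v = ts n f → ((k:ℤ) < |c.1 - v.1| ∨ (k:ℤ) < |c.2 - v.2|) := by
    intro v hv
    by_contra hcon
    push Not at hcon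
    have e : rp n (v.1, v.2, f.2.2) = f := by
      obtain ⟨f1, f2, b'⟩ := f
      simp only [rv, ts, Prod.mk.injEq] at hv
      simp only [rp, hv.1, hv.2]
    have := td_rp (n := n) (c.1, c.2, b) (v.1, v.2, f.2.2) hcon.1 hcon.2
    rw [e] at this
    omega
  constructor
  · intro v hv
    rcases key v hv with h1 | h1
    · rcases lt_abs.mp h1 with h2 | h2 <;> omega
    · rcases lt_abs.mp h1 with h2 | h2 <;> omega
  · intro v hv
    obtain ⟨f1, f2, b'⟩ := f
    cases b'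
    · have h0 : rv n (v.1, v.2 - 1) = ts n (f1, f2, false) := by
        simp only [rv, tt, Prod.mk.injEq, Bool.false_eq_true, if_false] at hv
        simp only [rv, ts, Int.cast_sub, Int.cast_one, Prod.mk.injEq]
        exact ⟨hv.1, by rw [hv.2]; ring⟩
      rcases key _ h0 with h1 | h1
      · simp only at h1
        rcases lt_abs.mp h1 with h2 | h2 <;> omega
      · simp only at h1
        rcases lt_abs.mp h1 with h2 | h2 <;> omega
    · have h0 : rv n (v.1 - 1, v.2) = ts n (f1, f2, true) := by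
        simp only [rv, tt, Prod.mk.injEq, if_true] at hv
        simp only [rv, ts, Int.cast_sub, Int.cast_one, Prod.mk.injEq]
        exact ⟨by rw [hv.1]; ring, hv.2⟩
      rcases key _ h0 with h1 | h1
      · simp only at h1
        rcases lt_abs.mp h1 with h2 | h2 <;> omega
      · simp only at h1
        rcases lt_abs.mp h1 with h2 | h2 <;> omega

/-- Exit from a ball. -/
theorem exitT {n : ℕ} {G : Set (TEd n)} {c : ℤ × ℤ} {k : ℕ} {u : Vtx} {x : TVt n}
    (hu : inR (c.1 - k) (c.1 + k) (c.2 - k) (c.2 + k) u) (hx : Out n c k x)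
    (h : TR n G (rv n u) x) :
    ∃ w ∈ bdR (c.1 - k) (c.1 + k) (c.2 - k) (c.2 + k),
      Reach (per n G ∩ ↑(RE (c.1 - k) (c.1 + k) (c.2 - k) (c.2 + k))) u w := by
  obtain ⟨v, hv, hr⟩ := lift h rfl
  obtain ⟨w, h1, h2, h3⟩ := first_exit hu hr (hx v hv)
  exact ⟨w, ⟨h1, h2⟩, h3⟩

/-- The four-arm event at an edge whose ends are connected to far points. -/
theorem E4_of {n k : ℕ} (hk : 1 ≤ k) {x : Edg} {G : Set (TEd n)} (hG : rp n x ∉ G)
    {u v : TVt n} (hu : Out n (bs x) k u) (hv : Out n (bs x) k v)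
    (h1 : TR n G (rv n (src x)) u) (h2 : TR n G (rv n (tgt x)) v)
    (h3 : ¬ TR n G (rv n (src x)) (rv n (tgt x))) : A4e k x (per n G) := by
  have hs : inR (x.1 - k) (x.1 + k) (x.2.1 - k) (x.2.1 + k) (src x) := by
    obtain ⟨a, b, _ | _⟩ := x <;> simp only [inR, src_mk] <;> omega
  have ht : inR (x.1 - k) (x.1 + k) (x.2.1 - k) (x.2.1 + k) (tgt x) := by
    obtain ⟨a, b, _ | _⟩ := x
    · simp only [inR, tgt_false]; omega
    · simp only [inR, tgt_true]; omega
  have e1 : (per n G ∩ ↑(RE (x.1 - k) (x.1 + k) (x.2.1 - k) (x.2.1 + k))) \ {x} =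
      per n G ∩ ↑(RE (x.1 - k) (x.1 + k) (x.2.1 - k) (x.2.1 + k)) := by
    ext g
    simp only [Set.mem_sdiff, Set.mem_inter_iff, Set.mem_singleton_iff]
    constructor
    · exact fun h => h.1
    · refine fun h => ⟨h, ?_⟩
      rintro rfl
      exact hG h.1
  unfold A4e A4
  rw [e1]
  refine ⟨exitT (c := bs x) hs hu h1, exitT (c := bs x) ht hv h2, fun h => h3 ?_⟩
  exact proj (h.mono Set.inter_subset_left)

/-- The four-arm event at a pivotal edge. -/
theorem E4_piv {n k : ℕ} (hk : 1 ≤ k) {x : Edg} {G : Set (TEd n)} (hG : rp n x ∉ G)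
    {u v : TVt n} (hu : Out n (bs x) k u) (hv : Out n (bs x) k v)
    (h1 : TR n (insert (rp n x) G) u v) (h2 : ¬ TR n G u v) : A4e k x (per n G) := by
  rcases GR_insert.mp h1 with h | ⟨h, h'⟩ | ⟨h, h'⟩
  · exact absurd h h2
  · rw [ts_rp] at h
    rw [tt_rp] at h'
    exact E4_of hk hG hu hv h.symm h' (fun hc => h2 (h.trans (hc.trans h')))
  · rw [ts_rp] at h'
    rw [tt_rp] at h
    exact E4_of hk hG hv hu h' h.symm (fun hc => h2 (h.trans (hc.symm.trans h')))

/-- A path stays inside a rectangle or visits its boundary. -/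
theorem stay {G : Set Edg} {a b c d : ℤ} {u v : Vtx} (hu : inR a b c d u) (h : Reach G u v)
    (hno : ¬ ∃ w ∈ bdR a b c d, Reach (G ∩ ↑(RE a b c d)) u w) :
    Reach (G ∩ ↑(RE a b c d)) u v := by
  by_contra hcon
  have key : ∀ w, Reach G u w → inR a b c d w ∧ Reach (G ∩ ↑(RE a b c d)) u w := by
    intro w hw
    induction hw with
    | refl => exact ⟨hu, Reach.refl _ _⟩
    | @tail w' w'' _ hs ih =>
      obtain ⟨ih1, ih2⟩ := ih
      have hint : ¬ (w'.1 = a ∨ w'.1 = b ∨ w'.2 = c ∨ w'.2 = d) := fun hb =>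
        hno ⟨w', ⟨ih1, hb⟩, ih2⟩
      obtain ⟨e, he, hcase⟩ := hs
      have hin : inR a b c d w'' ∧ e ∈ RE a b c d := by
        obtain ⟨x, y, _ | _⟩ := e
        · rw [mem_RE_false]
          simp only [src_mk, tgt_false] at hcase
          unfold inR at ih1 ⊢
          rcases hcase with ⟨h1, h2⟩ | ⟨h1, h2⟩ <;> subst h1 <;> subst h2 <;>
            simp only at ih1 hint ⊢ <;> omega
        · rw [mem_RE_true]
          simp only [src_mk, tgt_true] at hcase
          unfold inR at ih1 ⊢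
          rcases hcase with ⟨h1, h2⟩ | ⟨h1, h2⟩ <;> subst h1 <;> subst h2 <;>
            simp only at ih1 hint ⊢ <;> omega
      exact ⟨hin.1, ih2.tail ⟨e, ⟨he, Finset.mem_coe.2 hin.2⟩, hcase⟩⟩
  exact hcon (key v h).2

/-- The four-arm event at the root. -/
theorem E4_root {n k : ℕ} (hk : 1 ≤ k) {x : Edg} {F G : Set (TEd n)} (hG : rp n x ∉ G)
    (hF : rp n x ∉ F)
    (hFG : ∀ g ∈ RE (x.1 - k) (x.1 + k) (x.2.1 - k) (x.2.1 + k), (rp n g ∈ F ↔ rp n g ∈ G))
    (h1 : TR n F (rv n (src x)) (rv n (tgt x))) (h2 : ¬ TR n G (rv n (src x)) (rv n (tgt x))) :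
    A4e k x (per n G) := by
  have hs : inR (x.1 - k) (x.1 + k) (x.2.1 - k) (x.2.1 + k) (src x) := by
    obtain ⟨a, b, _ | _⟩ := x <;> simp only [inR, src_mk] <;> omega
  have ht : inR (x.1 - k) (x.1 + k) (x.2.1 - k) (x.2.1 + k) (tgt x) := by
    obtain ⟨a, b, _ | _⟩ := x
    · simp only [inR, tgt_false]; omega
    · simp only [inR, tgt_true]; omega
  have e1 : (per n G ∩ ↑(RE (x.1 - k) (x.1 + k) (x.2.1 - k) (x.2.1 + k))) \ {x} =
      per n G ∩ ↑(RE (x.1 - k) (x.1 + k) (x.2.1 - k) (x.2.1 + k)) := by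
    ext g
    simp only [Set.mem_sdiff, Set.mem_inter_iff, Set.mem_singleton_iff]
    constructor
    · exact fun h => h.1
    · refine fun h => ⟨h, ?_⟩
      rintro rfl
      exact hG h.1
  have e2 : per n F ∩ ↑(RE (x.1 - k) (x.1 + k) (x.2.1 - k) (x.2.1 + k)) =
      per n G ∩ ↑(RE (x.1 - k) (x.1 + k) (x.2.1 - k) (x.2.1 + k)) := by
    ext g
    constructor
    · rintro ⟨h, h'⟩
      exact ⟨(hFG g (Finset.mem_coe.1 h')).1 h, h'⟩
    · rintro ⟨h, h'⟩
      exact ⟨(hFG g (Finset.mem_coe.1 h')).2 h, h'⟩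
  -- a path from one endpoint to a lift of the other one visits the boundary
  have key : ∀ y z : Vtx, inR (x.1 - k) (x.1 + k) (x.2.1 - k) (x.2.1 + k) y →
      inR (x.1 - k) (x.1 + k) (x.2.1 - k) (x.2.1 + k) z → TR n F (rv n y) (rv n z) →
      ¬ TR n G (rv n y) (rv n z) →
      ∃ w ∈ bdR (x.1 - k) (x.1 + k) (x.2.1 - k) (x.2.1 + k),
        Reach (per n G ∩ ↑(RE (x.1 - k) (x.1 + k) (x.2.1 - k) (x.2.1 + k))) y w := by
    intro y z hy _ hyz hnyz
    obtain ⟨v, hv, hr⟩ := lift hyz rfl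
    by_contra hno
    rw [← e2] at hno
    have h3 := stay hy hr hno
    rw [e2] at h3
    apply hnyz
    have := proj (h3.mono Set.inter_subset_left)
    rwa [hv] at this
  unfold A4e A4
  rw [e1]
  exact ⟨key _ _ hs ht h1 h2, key _ _ ht hs h1.symm (fun h => h2 h.symm),
    fun h => h2 (proj (h.mono Set.inter_subset_left))⟩

theorem reach_empty {F : Set Edg} (hF : F = ∅) {u v : Vtx} (h : Reach F u v) : u = v := by
  subst hF
  induction h with
  | refl => rfl
  | tail _ hs _ => obtain ⟨e, he, _⟩ := hs; exact absurd he (Set.notMem_empty e)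

/-- Four arms around a pivotal block. -/
theorem A4a_of {n d k : ℕ} (hdk : d ≤ k) (hk : 2 * k < n) {c : ℤ × ℤ}
    {G : Set (TEd n)} {u v : TVt n} (hu : Out n c k u) (hv : Out n c k v)
    (h1 : TR n (G ∪ rp n '' ↑(blk c d)) u v) (h2 : ¬ TR n (G \ rp n '' ↑(blk c d)) u v) :
    A4a c d k (per n G) := by
  set B : Set (TEd n) := rp n '' ↑(blk c d) with hB
  set H : Set (TEd n) := G \ B with hH
  have henter : ∀ u v : TVt n, Out n c k u → TR n (G ∪ B) u v → ¬ TR n H u v →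
      ∃ w ∈ bdB c d, TR n H (rv n w) u := by
    intro u v hu huv hnuv
    have ind : ∀ y, TR n (G ∪ B) u y → TR n H u y ∨
        ∃ w, inR (c.1 - d) (c.1 + d) (c.2 - d) (c.2 + d) w ∧ TR n H u (rv n w) := by
      intro y hy
      induction hy with
      | refl => exact Or.inl (GR.refl _ _)
      | @tail y' y'' _ hs ih =>
        rcases ih with ih | ih
        · obtain ⟨f, hf, hcase⟩ := hs
          by_cases hfB : f ∈ B
          · right
            obtain ⟨g, hg, rfl⟩ := hfB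
            rw [ts_rp, tt_rp] at hcase
            have hgs : inR (c.1 - d) (c.1 + d) (c.2 - d) (c.2 + d) (src g) ∧
                inR (c.1 - d) (c.1 + d) (c.2 - d) (c.2 + d) (tgt g) := by
              have hg' := Finset.mem_coe.1 hg
              unfold blk at hg'
              obtain ⟨a, b, _ | _⟩ := g
              · rw [mem_RE_false] at hg'
                simp only [inR, src_mk, tgt_false]; omega
              · rw [mem_RE_true] at hg'
                simp only [inR, src_mk, tgt_true]; omega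
            rcases hcase with ⟨h3, _⟩ | ⟨_, h3⟩
            · exact ⟨src g, hgs.1, by rw [h3]; exact ih⟩
            · exact ⟨tgt g, hgs.2, by rw [h3]; exact ih⟩
          · left
            exact ih.tail ⟨f, ⟨hf.resolve_right hfB, hfB⟩, hcase⟩
        · exact Or.inr ih
    obtain ⟨w, hw, hr⟩ := (ind v huv).resolve_left hnuv
    obtain ⟨w', hw', hr'⟩ := exitT (k := d) hw (hu.mono hdk) hr.symm
    have hemp : per n H ∩ ↑(RE (c.1 - d) (c.1 + d) (c.2 - d) (c.2 + d)) = ∅ := by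
      rw [Set.eq_empty_iff_forall_notMem]
      rintro g ⟨hg1, hg2⟩
      exact hg1.2 ⟨g, hg2, rfl⟩
    have := reach_empty hemp hr'
    subst this
    exact ⟨w, S4C_bdB_of hw'.1 hw'.2, hr.symm⟩
  obtain ⟨w1, hw1, r1⟩ := henter u v hu h1 h2
  obtain ⟨w2, hw2, r2⟩ := henter v u hv h1.symm (fun h => h2 h.symm)
  obtain ⟨z1, hz1, t1⟩ := exitT (k := k) (S4C_bdB_inR hdk hw1) hu r1
  obtain ⟨z2, hz2, t2⟩ := exitT (k := k) (S4C_bdB_inR hdk hw2) hv r2
  have hsub : per n H ∩ ↑(RE (c.1 - k) (c.1 + k) (c.2 - k) (c.2 + k)) ⊆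
      per n G ∩ ↑(blk c k \ blk c d) := by
    rintro g ⟨hg1, hg2⟩
    refine ⟨hg1.1, ?_⟩
    rw [Finset.mem_coe, Finset.mem_sdiff]
    exact ⟨hg2, fun h => hg1.2 ⟨g, h, rfl⟩⟩
  have hsub2 : per n G ∩ ↑(blk c k \ blk c d) ⊆ per n H := by
    rintro g ⟨hg1, hg2⟩
    rw [Finset.mem_coe, Finset.mem_sdiff] at hg2
    refine ⟨hg1, ?_⟩
    rintro ⟨g', hg', he⟩
    have hg'k : g' ∈ blk c k := RE_subset (by omega) (by omega) (by omega) (by omega)
      (Finset.mem_coe.1 hg')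
    have := inj_blk hk hg'k hg2.1 he
    exact hg2.2 (this ▸ Finset.mem_coe.1 hg')
  refine ⟨w1, hw1, w2, hw2, ⟨z1, S4C_bdB_of hz1.1 hz1.2, t1.mono hsub⟩,
    ⟨z2, S4C_bdB_of hz2.1 hz2.2, t2.mono hsub⟩, fun hc => h2 ?_⟩
  exact r1.symm.trans ((proj (hc.mono hsub2)).trans r2)

end Pool.Agent.N952.AL
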