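import Pool.Agent.N952.AL.Lim
import Pool.Agent.N952.AL.Exp

/-! The density of clusters. -/

set_option autoImplicit false

namespace Pool.Agent.N952.AL

open H974 H12S H973N Finset Filter Topology MeasureTheory

/-- Projection on the unit interval. -/
noncomputable def pr1 (s : ℝ) : ℝ := max 0 (min 1 s)

theorem pr1_cont : Continuous pr1 := continuous_const.max (continuous_const.min continuous_id)

theorem pr1_mem (s : ℝ) : pr1 s ∈ Set.Icc (0:ℝ) 1 :=
  ⟨le_max_left _ _, max_le zero_le_one (min_le_left _ _)⟩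

theorem pr1_of {s : ℝ} (h : s ∈ Set.Icc (0:ℝ) 1) : pr1 s = s := by
  unfold pr1
  rw [min_eq_right h.2, max_eq_right h.1]

/-- The limit of the density of the derivative, extended. -/
noncomputable def gt (s : ℝ) : ℝ := gI (pr1 s)

theorem gt_of {s : ℝ} (h : s ∈ Set.Icc (0:ℝ) 1) : gt s = gI s := by
  unfold gt
  rw [pr1_of h]

theorem gt_cont : Continuous gt := by
  have h : ContinuousOn gI (Set.Icc 0 1) := by
    unfold gI
    exact (continuousOn_const.sub (cI_cont true)).add (continuousOn_const.sub (cI_cont false))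
  exact h.comp_continuous pr1_cont pr1_mem

/-- The density of clusters. -/
noncomputable def kap (p : ℝ) : ℝ := 1 - ∫ s in (0:ℝ)..p, gt s

theorem kap_deriv (p : ℝ) : HasDerivAt kap (-gt p) p := by
  unfold kap
  have h := intervalIntegral.integral_hasDerivAt_right (a := 0) (b := p)
    (gt_cont.intervalIntegrable _ _) (gt_cont.stronglyMeasurableAtFilter _ _) gt_cont.continuousAt
  exact h.const_sub 1

theorem pJ_cont (n : ℕ) (e : Edg) : Continuous (fun s => pJ n s e) := cont_Pr _ _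

theorem Gn_cont (n : ℕ) : Continuous (Gn n) := by
  unfold Gn
  refine Continuous.div_const ?_ _
  exact continuous_finsetSum _ (fun e _ => continuous_const.sub (pJ_cont n e))

theorem meanK_int (n : ℕ) [NeZero n] (p : ℝ) :
    meanK n p / (n:ℝ) ^ 2 = 1 - ∫ s in (0:ℝ)..p, Gn n s := by
  have hn : (n:ℝ) ≠ 0 := by exact_mod_cast NeZero.ne n
  have h1 : ∀ s : ℝ, HasDerivAt (fun s => meanK n s / (n:ℝ) ^ 2) (-Gn n s) s := by
    intro s
    have := (meanK_deriv' n s).div_const ((n:ℝ) ^ 2)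
    rw [neg_div] at this
    exact this
  have h2 := intervalIntegral.integral_eq_sub_of_hasDerivAt (a := 0) (b := p)
    (fun s _ => h1 s) ((Gn_cont n).neg.intervalIntegrable _ _)
  rw [intervalIntegral.integral_neg] at h2
  simp only [meanK_zero] at h2
  rw [div_self (pow_ne_zero 2 hn)] at h2
  linarith

/-- **The density of clusters is the limit of the mean number of clusters per vertex.** -/
theorem kap_lim {p : ℝ} (h0 : 0 ≤ p) (h1 : p ≤ 1) :
    Tendsto (fun n : ℕ => meanK n p / (n:ℝ) ^ 2) atTop (𝓝 (kap p)) := by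
  have h2 : Tendsto (fun n : ℕ => ∫ s in (0:ℝ)..p, Gn n s) atTop
      (𝓝 (∫ s in (0:ℝ)..p, gt s)) := by
    refine intervalIntegral.tendsto_integral_filter_of_dominated_convergence (fun _ => (2:ℝ))
      ?_ ?_ ?_ ?_
    · exact Eventually.of_forall fun n => (Gn_cont n).aestronglyMeasurable
    · refine Eventually.of_forall fun n => Eventually.of_forall fun s hs => ?_
      rw [Set.uIoc_of_le h0] at hs
      have e0 : 0 ≤ s := hs.1.le
      have e1 : s ≤ 1 := hs.2.trans h1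
      rw [Real.norm_eq_abs, abs_of_nonneg (Gn_nonneg e0 e1 n)]
      exact Gn_le e0 e1 n
    · exact intervalIntegrable_const
    · refine Eventually.of_forall fun s hs => ?_
      rw [Set.uIoc_of_le h0] at hs
      have e0 : 0 ≤ s := hs.1.le
      have e1 : s ≤ 1 := hs.2.trans h1
      rw [gt_of ⟨e0, e1⟩]
      exact Gn_tendsto e0 e1
  have h3 := h2.const_sub 1
  refine h3.congr' ?_
  filter_upwards [eventually_ge_atTop 1] with n hn
  have : NeZero n := ⟨by omega⟩
  exact (meanK_int n p).symm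

/-- **The expansion of the derivative.** -/
theorem gt_exp : ∃ D C : ℝ, 0 < C ∧ ∀ s ∈ Set.Icc (0:ℝ) 1,
    |gt s - gt (1/2) - D * (s - 1/2)| ≤ C * |s - 1/2| ^ (5/3 : ℝ) := by
  obtain ⟨D1, C1, hC1, h1⟩ := cI_exp true
  obtain ⟨D2, C2, hC2, h2⟩ := cI_exp false
  refine ⟨-(D1 + D2), C1 + C2, by linarith, fun s hs => ?_⟩
  rw [gt_of hs, gt_of (s := 1/2) ⟨by norm_num, by norm_num⟩]
  have e : gI s - gI (1/2) - -(D1 + D2) * (s - 1/2) =
      -(cI true s - cI true (1/2) - D1 * (s - 1/2)) -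
        (cI false s - cI false (1/2) - D2 * (s - 1/2)) := by
    unfold gI; ring
  rw [e]
  refine (abs_sub _ _).trans ?_
  rw [abs_neg, add_mul]
  exact add_le_add (h1 s hs.1 hs.2) (h2 s hs.1 hs.2)

theorem deriv_of_exp {f : ℝ → ℝ} {D C : ℝ} (h : ∀ s ∈ Set.Icc (0:ℝ) 1,
    |f s - f (1/2) - D * (s - 1/2)| ≤ C * |s - 1/2| ^ (5/3 : ℝ)) : HasDerivAt f D (1/2) := by
  rw [hasDerivAt_iff_isLittleO, Asymptotics.isLittleO_iff]
  intro c hc
  have hcont : Continuous (fun s : ℝ => C * |s - 1/2| ^ (2/3 : ℝ)) := by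
    refine continuous_const.mul ?_
    exact (continuous_id.sub continuous_const).abs.rpow_const (fun _ => Or.inr (by norm_num))
  have ht : Tendsto (fun s : ℝ => C * |s - 1/2| ^ (2/3 : ℝ)) (𝓝 (1/2)) (𝓝 0) := by
    have := hcont.tendsto (1/2)
    simpa using this
  have ev := ht.eventually (gt_mem_nhds hc)
  filter_upwards [ev, Icc_mem_nhds (a := (0:ℝ)) (b := 1) (x := 1/2) (by norm_num) (by norm_num)]
    with s hs hs'
  rw [smul_eq_mul, Real.norm_eq_abs, Real.norm_eq_abs, mul_comm (s - 1/2) D]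
  refine (h s hs').trans ?_
  have e : |s - 1/2| ^ (5/3 : ℝ) = |s - 1/2| ^ (2/3 : ℝ) * |s - 1/2| := by
    rcases eq_or_lt_of_le (abs_nonneg (s - 1/2)) with h3 | h3
    · rw [← h3]; simp
    · nth_rewrite 3 [← Real.rpow_one |s - 1/2|]
      rw [← Real.rpow_add h3]; norm_num
  rw [e, ← mul_assoc]
  exact mul_le_mul_of_nonneg_right hs.le (abs_nonneg _)

/-- **The density of clusters at the critical point.** -/
theorem kap_exp : ∃ D C : ℝ, 0 < C ∧ HasDerivAt (fun p => -gt p) D (1/2) ∧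
    (∀ p ∈ Set.Icc (0:ℝ) 1, |-gt p - -gt (1/2) - D * (p - 1/2)| ≤ C * |p - 1/2| ^ (5/3 : ℝ)) ∧
    ∀ p ∈ Set.Icc (0:ℝ) 1, |kap p - kap (1/2) - -gt (1/2) * (p - 1/2) -
      1/2 * D * (p - 1/2) ^ 2| ≤ C * |p - 1/2| ^ (8/3 : ℝ) := by
  obtain ⟨D, C, hC, h⟩ := gt_exp
  have h' : ∀ p ∈ Set.Icc (0:ℝ) 1, |-gt p - -gt (1/2) - -D * (p - 1/2)| ≤
      C * |p - 1/2| ^ (5/3 : ℝ) := by
    intro p hp
    have e : -gt p - -gt (1/2) - -D * (p - 1/2) = -(gt p - gt (1/2) - D * (p - 1/2)) := by ring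
    rw [e, abs_neg]
    exact h p hp
  refine ⟨-D, C, hC, deriv_of_exp (f := fun p => -gt p) h', h', fun p hp => ?_⟩
  set t : ℝ := |p - 1/2| with ht
  have hl := lip_uIcc (x0 := 1/2) (x := p) (B := C * t ^ (5/3 : ℝ))
    (f := fun y => kap y - -gt (1/2) * (y - 1/2) - 1/2 * -D * (y - 1/2) ^ 2)
    (f' := fun y => -gt y - -gt (1/2) - -D * (y - 1/2)) (fun y _ => by
      have d1 : HasDerivAt (fun y : ℝ => y - 1/2) 1 y := (hasDerivAt_id' y).sub_const _
      have d2 := d1.fun_pow 2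
      have d3 := ((kap_deriv y).fun_sub (d1.const_mul (-gt (1/2)))).fun_sub
        (d2.const_mul (1/2 * -D))
      refine d3.congr_deriv ?_
      push_cast
      ring) (fun y hy => by
      have hy1 : y ∈ Set.Icc (0:ℝ) 1 := by
        have := (convex_Icc (0:ℝ) 1).ordConnected.uIcc_subset (x := 1/2) (y := p)
          ⟨by norm_num, by norm_num⟩ hp
        exact this hy
      refine (h' y hy1).trans ?_
      refine mul_le_mul_of_nonneg_left ?_ hC.le
      exact Real.rpow_le_rpow (abs_nonneg _) (Set.abs_sub_left_of_mem_uIcc hy) (by norm_num))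
  have e1 : kap p - kap (1/2) - -gt (1/2) * (p - 1/2) - 1/2 * -D * (p - 1/2) ^ 2 =
      (kap p - -gt (1/2) * (p - 1/2) - 1/2 * -D * (p - 1/2) ^ 2) -
        (kap (1/2) - -gt (1/2) * (1/2 - 1/2) - 1/2 * -D * (1/2 - 1/2) ^ 2) := by ring
  rw [e1]
  refine hl.trans (le_of_eq ?_)
  have e2 : t ^ (8/3 : ℝ) = t ^ (5/3 : ℝ) * t := by
    rcases eq_or_lt_of_le (abs_nonneg (p - 1/2)) with h3 | h3
    · rw [ht, ← h3]; simp
    · nth_rewrite 3 [← Real.rpow_one t]
      rw [← Real.rpow_add h3]; norm_num; rfl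
  rw [e2, ← ht]
  ring

end Pool.Agent.N952.AL
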