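import Pool.Agent.N952.AL.BoxG
import Pool.Agent.N952.AL.Crit

/-! The derivative of the mean number of clusters per vertex: limit. -/

set_option autoImplicit false

namespace Pool.Agent.N952.AL

open H974 H12S Finset Filter Topology

theorem pr_ball (s : ℝ) (k : ℕ) (x y : ℤ) (b : Bool) :
    Pr (fun _ => s) ((RE (x - k) (x + k) (y - k) (y + k)).erase (x, y, b)) (JB (x, y, b)) =
      cB k b s := by
  have e1 : RE (x - k) (x + k) (y - k) (y + k) = (trl x y).mp (boxE k) := by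
    unfold boxE
    rw [trl_RE]
    congr 1 <;> ring
  have e2 : (trl x y).φ (e0 b) = (x, y, b) := by simp [e0]
  have e3 : ((trl x y).mp (boxE k)).erase (x, y, b) = (trl x y).mp ((boxE k).erase (e0 b)) := by
    ext g
    rw [Finset.mem_erase, LSym.mem_mp, LSym.mem_mp, Finset.mem_erase, ← e2]
    constructor
    · rintro ⟨h1, h2⟩
      refine ⟨fun hc => h1 ?_, h2⟩
      rw [← hc]; simp
    · rintro ⟨h1, h2⟩
      refine ⟨fun hc => h1 ?_, h2⟩
      rw [hc]; simp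
  rw [e1, e3, LSym.pr]
  apply Pr_congr
  intro F _
  have e4 : src (x, y, b) = (trl x y).ψ (src (e0 b)) := by simp [e0]
  have e5 : tgt (x, y, b) = (trl x y).ψ (tgt (e0 b)) := by
    cases b
    · simp [e0]; ring
    · simp [e0]; ring
  unfold JB
  rw [LSym.coe_mp, e4, e5, LSym.reach_iff]

theorem pJ_le {s : ℝ} (h0 : 0 ≤ s) (h1 : s ≤ 1) {n : ℕ} {x y : ℤ} {b : Bool}
    (he : (x, y, b) ∈ boxS n) : pJ n s (x, y, b) ≤ cI b s := by
  refine le_trans ?_ (cB_le_cI h0 h1 b n)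
  rw [← pr_ball s n x y b]
  apply pr_JB_mono h0 h1
  apply Finset.erase_subset_erase
  unfold boxS at he ⊢
  cases b
  · rw [mem_RE_false] at he
    exact RE_subset (by omega) (by omega) (by omega) (by omega)
  · rw [mem_RE_true] at he
    exact RE_subset (by omega) (by omega) (by omega) (by omega)

theorem pJ_ge {s : ℝ} (h0 : 0 ≤ s) (h1 : s ≤ 1) {n k : ℕ} {x y : ℤ} {b : Bool}
    (hx : (k:ℤ) ≤ x) (hx' : x ≤ (n:ℤ) - 1 - k) (hy : (k:ℤ) ≤ y) (hy' : y ≤ (n:ℤ) - 1 - k) :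
    cB k b s ≤ pJ n s (x, y, b) := by
  rw [← pr_ball s k x y b]
  apply pr_JB_mono h0 h1
  apply Finset.erase_subset_erase
  unfold boxS
  exact RE_subset (by omega) (by omega) (by omega) (by omega)

theorem pJ_nonneg {s : ℝ} (h0 : 0 ≤ s) (h1 : s ≤ 1) (n : ℕ) (e : Edg) : 0 ≤ pJ n s e :=
  Pr_nonneg (okq h0 h1) _ _

theorem pJ_le_one {s : ℝ} (h0 : 0 ≤ s) (h1 : s ≤ 1) (n : ℕ) (e : Edg) : pJ n s e ≤ 1 :=
  Pr_le_one (okq h0 h1) _ _

/-- The rectangle of the edges at distance `k` from the boundary. -/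
noncomputable def inner (n k : ℕ) : Finset Edg :=
  Icc (k:ℤ) ((n:ℤ) - 1 - k) ×ˢ (Icc (k:ℤ) ((n:ℤ) - 1 - k) ×ˢ (univ : Finset Bool))

theorem mem_inner {n k : ℕ} {x y : ℤ} {b : Bool} : (x, y, b) ∈ inner n k ↔
    ((k:ℤ) ≤ x ∧ x ≤ (n:ℤ) - 1 - k) ∧ ((k:ℤ) ≤ y ∧ y ≤ (n:ℤ) - 1 - k) := by
  unfold inner
  simp [Finset.mem_product, Finset.mem_Icc]

theorem sum_inner {n k : ℕ} (h : 2 * k ≤ n) (f : Bool → ℝ) :
    ∑ e ∈ inner n k, f e.2.2 = ((n:ℝ) - 2 * k) ^ 2 * (f true + f false) := by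
  unfold inner
  rw [Finset.sum_product]
  simp only [Finset.sum_product, Fintype.sum_bool, Finset.sum_const, Int.card_Icc, nsmul_eq_mul]
  have e : (((n:ℤ) - 1 - k + 1 - k).toNat : ℝ) = (n:ℝ) - 2 * k := by
    have h2 : ((n:ℤ) - 1 - k + 1 - k).toNat = n - 2 * k := by omega
    rw [h2, Nat.cast_sub h]
    push_cast
    ring
  rw [e]
  ring

theorem inner_sub {n k : ℕ} (hk : 1 ≤ k) : inner n k ⊆ boxS n := by
  rintro ⟨x, y, b⟩ h
  rw [mem_inner] at h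
  unfold boxS
  cases b
  · rw [mem_RE_false]; omega
  · rw [mem_RE_true]; omega

theorem box_sub {n : ℕ} : boxS n ⊆ inner n 0 := by
  rintro ⟨x, y, b⟩ h
  rw [mem_inner]
  unfold boxS at h
  cases b
  · rw [mem_RE_false] at h; omega
  · rw [mem_RE_true] at h; omega

/-- The density of the derivative. -/
noncomputable def Gn (n : ℕ) (s : ℝ) : ℝ := (∑ e ∈ boxS n, (1 - pJ n s e)) / (n:ℝ) ^ 2

/-- The limit. -/
noncomputable def gI (s : ℝ) : ℝ := (1 - cI true s) + (1 - cI false s)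

theorem Gn_nonneg {s : ℝ} (h0 : 0 ≤ s) (h1 : s ≤ 1) (n : ℕ) : 0 ≤ Gn n s := by
  unfold Gn
  refine div_nonneg (sum_nonneg fun e _ => ?_) (by positivity)
  linarith [pJ_le_one h0 h1 n e]

theorem Gn_le {s : ℝ} (h0 : 0 ≤ s) (h1 : s ≤ 1) (n : ℕ) : Gn n s ≤ 2 := by
  unfold Gn
  apply div_le_of_le_mul₀ (by positivity) (by norm_num)
  calc ∑ e ∈ boxS n, (1 - pJ n s e) ≤ ∑ e ∈ boxS n, (1:ℝ) :=
        sum_le_sum fun e _ => by linarith [pJ_nonneg h0 h1 n e]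
    _ ≤ ∑ e ∈ inner n 0, (1:ℝ) :=
        sum_le_sum_of_subset_of_nonneg box_sub (fun _ _ _ => by norm_num)
    _ = 2 * (n:ℝ) ^ 2 := by
        rw [sum_inner (f := fun _ => 1) (by omega)]
        push_cast
        ring

theorem Gn_lower {s : ℝ} (h0 : 0 ≤ s) (h1 : s ≤ 1) {n k : ℕ} (hk : 1 ≤ k) (hkn : 2 * k ≤ n) :
    ((n:ℝ) - 2 * k) ^ 2 / (n:ℝ) ^ 2 * gI s ≤ Gn n s := by
  unfold Gn
  rw [div_mul_eq_mul_div]
  apply div_le_div_of_nonneg_right _ (by positivity)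
  have e := sum_inner hkn (fun b => 1 - cI b s)
  unfold gI
  rw [← e]
  refine le_trans (sum_le_sum (g := fun e => 1 - pJ n s e) ?_)
    (sum_le_sum_of_subset_of_nonneg (inner_sub hk)
      (fun e _ _ => by linarith [pJ_le_one h0 h1 n e]))
  rintro ⟨x, y, b⟩ he
  have := pJ_le h0 h1 (inner_sub hk he)
  simp only
  linarith

theorem Gn_upper {s : ℝ} (h0 : 0 ≤ s) (h1 : s ≤ 1) {n k : ℕ} (hk : 1 ≤ k) (hkn : 2 * k ≤ n) :
    Gn n s ≤ (1 - cB k true s) + (1 - cB k false s) +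
      2 * (1 - ((n:ℝ) - 2 * k) ^ 2 / (n:ℝ) ^ 2) := by
  have hn : (0:ℝ) < n := by
    have : 0 < n := by omega
    exact_mod_cast this
  unfold Gn
  rw [div_le_iff₀ (by positivity)]
  have hs : ∑ e ∈ boxS n, (1 - pJ n s e) ≤
      ∑ e ∈ inner n k, (1 - cB k e.2.2 s) + ∑ e ∈ inner n 0 \ inner n k, (1:ℝ) := by
    rw [← Finset.sum_sdiff (inner_sub (n := n) hk), add_comm]
    apply add_le_add
    · apply sum_le_sum
      rintro ⟨x, y, b⟩ he
      rw [mem_inner] at he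
      have := pJ_ge h0 h1 (b := b) he.1.1 he.1.2 he.2.1 he.2.2
      simp only
      linarith
    · calc _ ≤ ∑ e ∈ boxS n \ inner n k, (1:ℝ) :=
            sum_le_sum fun e _ => by linarith [pJ_nonneg h0 h1 n e]
        _ ≤ _ := sum_le_sum_of_subset_of_nonneg
            (Finset.sdiff_subset_sdiff box_sub (Finset.Subset.refl _)) (fun _ _ _ => by norm_num)
  have h2 : ∑ e ∈ inner n 0 \ inner n k, (1:ℝ) =
      2 * (n:ℝ) ^ 2 - 2 * ((n:ℝ) - 2 * k) ^ 2 := by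
    have h3 := Finset.sum_sdiff (f := fun _ => (1:ℝ)) ((inner_sub (n := n) hk).trans box_sub)
    have h4 := sum_inner (n := n) (k := 0) (by omega) (fun _ => 1)
    have h5 := sum_inner (n := n) (k := k) hkn (fun _ => 1)
    rw [h4, h5] at h3
    push_cast at h3
    linarith
  rw [h2, sum_inner hkn (fun b => 1 - cB k b s)] at hs
  refine hs.trans ?_
  have hc : ((n:ℝ) - 2 * k) ^ 2 ≤ (n:ℝ) ^ 2 := by
    have h6 : 2 * (k:ℝ) ≤ n := by exact_mod_cast hkn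
    have h7 : (0:ℝ) ≤ k := Nat.cast_nonneg k
    apply pow_le_pow_left₀ (by linarith) (by linarith)
  have p1 : 0 ≤ 1 - cB k true s := by linarith [cB_le_one h0 h1 k true]
  have p2 : 0 ≤ 1 - cB k false s := by linarith [cB_le_one h0 h1 k false]
  have e2 : ((1 - cB k true s) + (1 - cB k false s) +
      2 * (1 - ((n:ℝ) - 2 * k) ^ 2 / (n:ℝ) ^ 2)) * (n:ℝ) ^ 2 =
      (n:ℝ) ^ 2 * ((1 - cB k true s) + (1 - cB k false s)) +
        (2 * (n:ℝ) ^ 2 - 2 * ((n:ℝ) - 2 * k) ^ 2) := by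
    field_simp
  rw [e2]
  have := mul_le_mul_of_nonneg_right hc (add_nonneg p1 p2)
  linarith

theorem cB_tendsto {s : ℝ} (h0 : 0 ≤ s) (h1 : s ≤ 1) (b : Bool) :
    Tendsto (fun k => cB k b s) atTop (𝓝 (cI b s)) :=
  tendsto_atTop_ciSup (fun _ _ h => cB_mono h0 h1 b h) (cB_bdd h0 h1 b)

theorem sqrt_atTop : Tendsto (fun n : ℕ => Nat.sqrt n) atTop atTop := by
  apply tendsto_atTop.2
  intro b
  filter_upwards [eventually_ge_atTop (b * b)] with n hn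
  exact Nat.le_sqrt.2 hn

theorem ratio_tendsto : Tendsto (fun n : ℕ => ((n:ℝ) - 2 * (Nat.sqrt n : ℕ)) ^ 2 / (n:ℝ) ^ 2) atTop
    (𝓝 1) := by
  have h1 : Tendsto (fun n : ℕ => ((Nat.sqrt n : ℕ) : ℝ) / n) atTop (𝓝 0) := by
    have h2 : Tendsto (fun n : ℕ => 1 / ((Nat.sqrt n : ℕ) : ℝ)) atTop (𝓝 0) :=
      tendsto_one_div_atTop_nhds_zero_nat.comp sqrt_atTop
    refine squeeze_zero' (Eventually.of_forall fun n => by positivity) ?_ h2
    filter_upwards [eventually_ge_atTop 1] with n hn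
    have h3 : 0 < Nat.sqrt n := Nat.sqrt_pos.2 hn
    have h4 : Nat.sqrt n * Nat.sqrt n ≤ n := Nat.sqrt_le n
    have h3' : (0:ℝ) < (Nat.sqrt n : ℕ) := by exact_mod_cast h3
    have hn' : (0:ℝ) < n := by exact_mod_cast hn
    rw [div_le_div_iff₀ hn' h3', one_mul]
    exact_mod_cast h4
  have h5 : Tendsto (fun n : ℕ => (1 - 2 * (((Nat.sqrt n : ℕ) : ℝ) / n)) ^ 2) atTop
      (𝓝 ((1 - 2 * 0) ^ 2)) := ((tendsto_const_nhds).sub (h1.const_mul 2)).pow 2
  have e : ((1:ℝ) - 2 * 0) ^ 2 = 1 := by norm_num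
  rw [e] at h5
  refine h5.congr' ?_
  filter_upwards [eventually_ge_atTop 1] with n hn
  have hn' : (0:ℝ) < n := by exact_mod_cast hn
  field_simp

/-- **The density of the derivative converges.** -/
theorem Gn_tendsto {s : ℝ} (h0 : 0 ≤ s) (h1 : s ≤ 1) :
    Tendsto (fun n => Gn n s) atTop (𝓝 (gI s)) := by
  have hl : Tendsto (fun n : ℕ => ((n:ℝ) - 2 * (Nat.sqrt n : ℕ)) ^ 2 / (n:ℝ) ^ 2 * gI s) atTop
      (𝓝 (gI s)) := by
    have := ratio_tendsto.mul_const (gI s)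
    rwa [one_mul] at this
  have hu : Tendsto (fun n : ℕ => (1 - cB (Nat.sqrt n) true s) + (1 - cB (Nat.sqrt n) false s) +
      2 * (1 - ((n:ℝ) - 2 * (Nat.sqrt n : ℕ)) ^ 2 / (n:ℝ) ^ 2)) atTop (𝓝 (gI s)) := by
    have c1 := (cB_tendsto h0 h1 true).comp sqrt_atTop
    have c2 := (cB_tendsto h0 h1 false).comp sqrt_atTop
    have := ((tendsto_const_nhds (x := (1:ℝ))).sub c1).add
      ((tendsto_const_nhds (x := (1:ℝ))).sub c2)
    have h3 := (ratio_tendsto.const_sub 1).const_mul 2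
    have h4 := this.add h3
    rw [show (1:ℝ) - cI true s + (1 - cI false s) + 2 * (1 - 1) = gI s by unfold gI; ring] at h4
    exact h4
  refine tendsto_of_tendsto_of_tendsto_of_le_of_le' hl hu ?_ ?_
  · filter_upwards [eventually_ge_atTop 16] with n hn
    have hk : 1 ≤ Nat.sqrt n := Nat.sqrt_pos.2 (by omega)
    have h4 : 4 ≤ Nat.sqrt n := Nat.le_sqrt.2 (by omega)
    have h5 : Nat.sqrt n * Nat.sqrt n ≤ n := Nat.sqrt_le n
    exact Gn_lower h0 h1 hk (by nlinarith)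
  · filter_upwards [eventually_ge_atTop 16] with n hn
    have hk : 1 ≤ Nat.sqrt n := Nat.sqrt_pos.2 (by omega)
    have h4 : 4 ≤ Nat.sqrt n := Nat.le_sqrt.2 (by omega)
    have h5 : Nat.sqrt n * Nat.sqrt n ≤ n := Nat.sqrt_le n
    exact Gn_upper h0 h1 hk (by nlinarith)

end Pool.Agent.N952.AL
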