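import Pool.Agent.N952.AL.Trip
import Pool.Agent.N952.AL.A4aq
import Pool.Agent.W424.NC.NearC

/-! Probability of the local events of three pivotal edges in the torus. -/

set_option autoImplicit false

namespace Pool.Agent.N952.AL

open H974 H12S H389NS H973N Finset

/-- Bounds for four arms at the parameter `q` up to the scale `n`. -/
structure Bd (C q : ℝ) (n : ℕ) : Prop where
  lo : 1 / 4 ≤ q
  hi : q ≤ 3 / 4
  a : ∀ k : ℕ, 1 ≤ k → k ≤ n → a4 q k ≤ C * (k:ℝ) ^ (-(5/4) : ℝ)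
  A : ∀ (c0 : ℤ × ℤ) (d k : ℕ), 1 ≤ d → d ≤ k → k ≤ n → ∀ S : Finset Edg, blk c0 k ⊆ S →
    PQ q S (fun F => A4a c0 d k ↑F) ≤ C * ((d:ℝ) / k) ^ (5 / 4 : ℝ)

theorem Bd.h0 {C q : ℝ} {n : ℕ} (h : Bd C q n) : 0 ≤ q := by linarith [h.lo]

theorem Bd.h1 {C q : ℝ} {n : ℕ} (h : Bd C q n) : q ≤ 1 := by linarith [h.hi]

theorem Bd.mono {C q : ℝ} {m n : ℕ} (h : Bd C q n) (hm : m ≤ n) : Bd C q m :=
  ⟨h.lo, h.hi, fun k h1 h2 => h.a k h1 (h2.trans hm),
    fun c0 d k h1 h2 h3 S hS => h.A c0 d k h1 h2 (h3.trans hm) S hS⟩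

/-- The near-critical window. -/
theorem window : ∃ b C : ℝ, 0 < b ∧ 1 ≤ C ∧ ∀ n : ℕ, 1 ≤ n → ∀ q : ℝ,
    |q - 1/2| ≤ b * (n:ℝ) ^ (-(3/4 : ℝ)) → Bd C q n := by
  obtain ⟨κ, b, c, C, hκ, hb, hc, hC, hnear⟩ := Pool.Agent.W424.NC.nearS
  obtain ⟨CA, hCA, hA⟩ := A4a_near κ c C hκ hc hC
  refine ⟨b, max 1 (max C CA), hb, le_max_left _ _, ?_⟩
  intro n hn q hq
  obtain ⟨hw, hk⟩ := hnear n hn q hq
  have hN : Near κ c C q n := ⟨hw, fun k h1 h2 => (hk k h1 h2).1, fun k h1 h2 => (hk k h1 h2).2⟩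
  refine ⟨hw.lo, hw.hi, ?_, ?_⟩
  · intro k h1 h2
    refine (hk k h1 h2).2.trans ?_
    exact mul_le_mul_of_nonneg_right ((le_max_left _ _).trans (le_max_right _ _)) (by positivity)
  · intro c0 d k h1 h2 h3 S hS
    refine (hA q n hN c0 d k h1 h2 h3 S hS).trans ?_
    exact mul_le_mul_of_nonneg_right ((le_max_right _ _).trans (le_max_right _ _)) (by positivity)

section Supp

variable {n : ℕ}

theorem A4e_supp {k : ℕ} {x : Edg} {F : Finset (TEd n)} {T : Finset (TEd n)}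
    (hT : (blk (bs x) k).image (rp n) ⊆ T) :
    A4e k x (per n ↑F) ↔ A4e k x (per n ↑(F ∩ T)) := by
  constructor
  · refine A4e_agree fun g hg _ => ?_
    rw [Finset.mem_coe, Finset.mem_coe, Finset.mem_inter]
    exact ⟨fun h => ⟨h, hT (Finset.mem_image_of_mem _ hg)⟩, fun h => h.1⟩
  · refine A4e_agree fun g hg _ => ?_
    rw [Finset.mem_coe, Finset.mem_coe, Finset.mem_inter]
    exact ⟨fun h => h.1, fun h => ⟨h, hT (Finset.mem_image_of_mem _ hg)⟩⟩

theorem A4a_supp {c : ℤ × ℤ} {d k : ℕ} {F : Finset (TEd n)} {T : Finset (TEd n)}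
    (hT : (blk c k \ blk c d).image (rp n) ⊆ T) :
    A4a c d k (per n ↑F) ↔ A4a c d k (per n ↑(F ∩ T)) := by
  constructor
  · refine A4a_agree fun g hg => ?_
    rw [Finset.mem_coe, Finset.mem_coe, Finset.mem_inter]
    exact ⟨fun h => ⟨h, hT (Finset.mem_image_of_mem _ hg)⟩, fun h => h.1⟩
  · refine A4a_agree fun g hg => ?_
    rw [Finset.mem_coe, Finset.mem_coe, Finset.mem_inter]
    exact ⟨fun h => h.1, fun h => ⟨h, hT (Finset.mem_image_of_mem _ hg)⟩⟩

theorem pr_E4 [NeZero n] {q : ℝ} (h0 : 0 ≤ q) (h1 : q ≤ 1) {k : ℕ} (hn : 2 * k < n) (x : Edg) :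
    Pr (fun _ => q) (univ : Finset (TEd n)) (fun F => A4e k x (per n ↑F)) ≤ a4 q k := by
  have e1 : Pr (fun _ => q) (univ : Finset (TEd n)) (fun F => A4e k x (per n ↑F)) =
      Pr (fun _ => q) (univ : Finset (TEd n))
        (fun F => A4e k x (↑(pull n (blk (bs x) k) F) : Set Edg)) := by
    apply Pr_congr
    intro F _
    apply A4e_local
    show per n ↑F ∩ ↑(blk (bs x) k) = ↑(pull n (blk (bs x) k) F) ∩ ↑(blk (bs x) k)
    rw [← per_inter, Set.inter_assoc, Set.inter_self]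
  rw [e1, Pr_pull q (injOn_blk hn _) (Finset.subset_univ _) (fun Y => A4e k x (↑Y : Set Edg))]
  exact pr_A4e h0 h1 (Finset.Subset.refl _)

theorem pr_Aa [NeZero n] {C q : ℝ} (hB : Bd C q n) {d k : ℕ} (hd1 : 1 ≤ d) (hd : d ≤ k)
    (hn : 2 * k < n) (c : ℤ × ℤ) :
    Pr (fun _ => q) (univ : Finset (TEd n)) (fun F => A4a c d k (per n ↑F)) ≤
      C * ((d:ℝ) / k) ^ (5 / 4 : ℝ) := by
  have e1 : Pr (fun _ => q) (univ : Finset (TEd n)) (fun F => A4a c d k (per n ↑F)) =
      Pr (fun _ => q) (univ : Finset (TEd n))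
        (fun F => A4a c d k (↑(pull n (blk c k) F) : Set Edg)) := by
    apply Pr_congr
    intro F _
    have e2 : per n (↑F) ∩ ↑(blk c k \ blk c d) =
        (↑(pull n (blk c k) F) : Set Edg) ∩ ↑(blk c k \ blk c d) := by
      rw [← per_inter, Set.inter_assoc]
      congr 1
      ext g
      simp only [Set.mem_inter_iff, Finset.mem_coe, Finset.mem_sdiff]
      tauto
    unfold A4a
    rw [e2]
  rw [e1, Pr_pull q (injOn_blk hn _) (Finset.subset_univ _) (fun Y => A4a c d k (↑Y : Set Edg))]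
  exact hB.A c d k hd1 hd (by omega) _ (Finset.Subset.refl _)

theorem disj_td [NeZero n] {x y : Edg} {k l : ℕ} (h : k + l < td n (rp n x) (rp n y)) :
    Disjoint ((blk (bs x) k).image (rp n)) ((blk (bs y) l).image (rp n)) := by
  rw [Finset.disjoint_left]
  intro f hf hf'
  rw [Finset.mem_image] at hf hf'
  obtain ⟨g, hg, rfl⟩ := hf
  obtain ⟨g', hg', he⟩ := hf'
  have h1 := mem_blk_abs hg
  have h2 := mem_blk_abs hg'
  have t1 := td_rp (n := n) x g h1.1 h1.2
  have t2 := td_rp (n := n) y g' h2.1 h2.2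
  have t3 := td_tri (rp n x) (rp n g) (rp n y)
  rw [he] at t2
  rw [td_comm] at t2
  omega

theorem blk_zero (c : ℤ × ℤ) : blk c 0 = ∅ := by
  rw [Finset.eq_empty_iff_forall_notMem]
  rintro ⟨x, y, _ | _⟩ h
  · unfold blk at h
    rw [mem_RE_false] at h
    push_cast at h
    omega
  · unfold blk at h
    rw [mem_RE_true] at h
    push_cast at h
    omega

end Supp

/-- Bound for a four-arm factor. -/
noncomputable def f4 (q : ℝ) (k : ℕ) : ℝ := if 1 ≤ k then a4 q k else 1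

/-- Bound for an annulus factor. -/
noncomputable def fA (C : ℝ) (d k : ℕ) : ℝ := if d ≤ k then C * ((d:ℝ) / k) ^ (5 / 4 : ℝ) else 1

theorem pr_Ev_aux {n : ℕ} [NeZero n] {C q : ℝ} (hB : Bd C q n) {ρ R : ℕ} (hρR : ρ ≤ R)
    (hR : R ≤ n / 2) {x1 x2 x3 : Edg} (hxy1 : |x1.1 - x2.1| ≤ ρ) (hxy2 : |x1.2.1 - x2.2.1| ≤ ρ)
    (h1 : ρ ≤ td n (rp n x1) (rp n x2)) (h2 : R ≤ td n (rp n x1) (rp n x3))
    (h3 : R ≤ td n (rp n x2) (rp n x3)) :
    Pr (fun _ => q) (univ : Finset (TEd n)) (Ev n ρ R x1 x2 x3) ≤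
      f4 q (ρ / 4) * (f4 q (ρ / 4) * (f4 q (R / 4) * fA C (2 * ρ + 2) (R / 4))) := by
  have hn : 1 ≤ n := Nat.one_le_iff_ne_zero.2 (NeZero.ne n)
  have hok : Ok (fun _ : TEd n => q) := fun _ => ⟨hB.h0, hB.h1⟩
  set k1 := ρ / 4 with hk1
  set k2 := R / 4 with hk2
  set d := 2 * ρ + 2 with hd
  set T1 := (blk (bs x1) k1).image (rp n) with hT1
  set T2 := (blk (bs x2) k1).image (rp n) with hT2
  set T3 := (blk (bs x3) k2).image (rp n) with hT3
  set T4 := (blk (bs x1) k2 \ blk (bs x1) d).image (rp n) with hT4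
  have d12 : Disjoint T1 T2 := by
    rcases Nat.eq_zero_or_pos k1 with h | h
    · rw [hT1, h, blk_zero, Finset.image_empty]; exact Finset.disjoint_empty_left _
    · exact disj_td (by omega)
  have d13 : Disjoint T1 T3 := by
    rcases Nat.eq_zero_or_pos k1 with h | h
    · rw [hT1, h, blk_zero, Finset.image_empty]; exact Finset.disjoint_empty_left _
    · exact disj_td (by omega)
  have d23 : Disjoint T2 T3 := by
    rcases Nat.eq_zero_or_pos k1 with h | h
    · rw [hT2, h, blk_zero, Finset.image_empty]; exact Finset.disjoint_empty_left _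
    · exact disj_td (by omega)
  have hT4s : T4 ⊆ (blk (bs x1) k2).image (rp n) := by
    rw [hT4]
    exact Finset.image_subset_image Finset.sdiff_subset
  have d43 : Disjoint T4 T3 := by
    rcases Nat.eq_zero_or_pos k2 with h | h
    · rw [hT3, h, blk_zero, Finset.image_empty]; exact Finset.disjoint_empty_right _
    · exact Finset.disjoint_of_subset_left hT4s (disj_td (by omega))
  have hin : ∀ g : Edg, g ∈ blk (bs x1) d → rp n g ∉ T4 := by
    intro g hg hc
    rw [hT4, Finset.mem_image] at hc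
    obtain ⟨g', hg', he⟩ := hc
    rw [Finset.mem_sdiff] at hg'
    by_cases hdk : d ≤ k2
    · have hgk : g ∈ blk (bs x1) k2 :=
        RE_subset (by omega) (by omega) (by omega) (by omega) hg
      have := inj_blk (n := n) (k := k2) (by omega) hg'.1 hgk he
      exact hg'.2 (this ▸ hg)
    · exact hg'.2 (RE_subset (by omega) (by omega) (by omega) (by omega) hg'.1)
  have d14 : Disjoint T1 T4 := by
    rw [Finset.disjoint_left]
    intro f hf
    rw [hT1, Finset.mem_image] at hf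
    obtain ⟨g, hg, rfl⟩ := hf
    exact hin g (RE_subset (by omega) (by omega) (by omega) (by omega) hg)
  have d24 : Disjoint T2 T4 := by
    rw [Finset.disjoint_left]
    intro f hf
    rw [hT2, Finset.mem_image] at hf
    obtain ⟨g, hg, rfl⟩ := hf
    refine hin g (mem_blk_of ?_ ?_)
    · have h5 := (mem_blk_abs hg).1
      have h6 := abs_sub_le x1.1 x2.1 g.1
      have h7 : |x1.1 - g.1| ≤ (ρ:ℤ) + k1 := by
        refine h6.trans (add_le_add hxy1 h5)
      refine lt_of_le_of_lt h7 ?_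
      omega
    · have h5 := (mem_blk_abs hg).2
      have h6 := abs_sub_le x1.2.1 x2.2.1 g.2.1
      have h7 : |x1.2.1 - g.2.1| ≤ (ρ:ℤ) + k1 := by
        refine h6.trans (add_le_add hxy2 h5)
      refine lt_of_le_of_lt h7 ?_
      omega
  -- the events
  set E1 : Finset (TEd n) → Prop := fun F => 1 ≤ k1 → A4e k1 x1 (per n ↑F) with hE1
  set E2 : Finset (TEd n) → Prop := fun F => 1 ≤ k1 → A4e k1 x2 (per n ↑F) with hE2
  set E3 : Finset (TEd n) → Prop := fun F => 1 ≤ k2 → A4e k2 x3 (per n ↑F) with hE3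
  set E4 : Finset (TEd n) → Prop := fun F => d ≤ k2 → A4a (bs x1) d k2 (per n ↑F) with hE4
  have s1 : ∀ (F T : Finset (TEd n)), T1 ⊆ T → (E1 F ↔ E1 (F ∩ T)) := fun F T hT =>
    imp_congr_right fun _ => A4e_supp hT
  have s2 : ∀ (F T : Finset (TEd n)), T2 ⊆ T → (E2 F ↔ E2 (F ∩ T)) := fun F T hT =>
    imp_congr_right fun _ => A4e_supp hT
  have s3 : ∀ (F T : Finset (TEd n)), T3 ⊆ T → (E3 F ↔ E3 (F ∩ T)) := fun F T hT =>
    imp_congr_right fun _ => A4e_supp hT
  have s4 : ∀ (F T : Finset (TEd n)), T4 ⊆ T → (E4 F ↔ E4 (F ∩ T)) := fun F T hT =>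
    imp_congr_right fun _ => A4a_supp hT
  have i1 : Pr (fun _ => q) (univ : Finset (TEd n)) (fun F => E1 F ∧ (E2 F ∧ (E3 F ∧ E4 F))) =
      Pr (fun _ => q) univ E1 * Pr (fun _ => q) univ (fun F => E2 F ∧ (E3 F ∧ E4 F)) := by
    refine Pr_indep (S := T1) (T := T2 ∪ (T3 ∪ T4)) (Finset.subset_univ _) (Finset.subset_univ _)
      ?_ (fun F _ => s1 F T1 (Finset.Subset.refl _)) (fun F _ => ?_)
    · rw [Finset.disjoint_union_right, Finset.disjoint_union_right]
      exact ⟨d12, d13, d14⟩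
    · exact and_congr (s2 _ _ Finset.subset_union_left) (and_congr
        (s3 _ _ (Finset.subset_union_left.trans Finset.subset_union_right))
        (s4 _ _ (Finset.subset_union_right.trans Finset.subset_union_right)))
  have i2 : Pr (fun _ => q) (univ : Finset (TEd n)) (fun F => E2 F ∧ (E3 F ∧ E4 F)) =
      Pr (fun _ => q) univ E2 * Pr (fun _ => q) univ (fun F => E3 F ∧ E4 F) := by
    refine Pr_indep (S := T2) (T := T3 ∪ T4) (Finset.subset_univ _) (Finset.subset_univ _)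
      ?_ (fun F _ => s2 F T2 (Finset.Subset.refl _)) (fun F _ => ?_)
    · rw [Finset.disjoint_union_right]
      exact ⟨d23, d24⟩
    · exact and_congr (s3 _ _ Finset.subset_union_left) (s4 _ _ Finset.subset_union_right)
  have i3 : Pr (fun _ => q) (univ : Finset (TEd n)) (fun F => E3 F ∧ E4 F) =
      Pr (fun _ => q) univ E3 * Pr (fun _ => q) univ E4 :=
    Pr_indep (S := T3) (T := T4) (Finset.subset_univ _) (Finset.subset_univ _) d43.symm
      (fun F _ => s3 F T3 (Finset.Subset.refl _)) (fun F _ => s4 F T4 (Finset.Subset.refl _))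
  have b1 : Pr (fun _ => q) (univ : Finset (TEd n)) E1 ≤ f4 q k1 := by
    unfold f4
    split_ifs with h
    · have e : Pr (fun _ => q) (univ : Finset (TEd n)) E1 =
          Pr (fun _ => q) univ (fun F : Finset (TEd n) => A4e k1 x1 (per n (↑F : Set (TEd n)))) :=
        Pr_congr (fun F _ => ⟨fun t => t h, fun t _ => t⟩)
      rw [e]
      exact pr_E4 hB.h0 hB.h1 (by omega) x1
    · exact Pr_le_one hok _ _
  have b2 : Pr (fun _ => q) (univ : Finset (TEd n)) E2 ≤ f4 q k1 := by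
    unfold f4
    split_ifs with h
    · have e : Pr (fun _ => q) (univ : Finset (TEd n)) E2 =
          Pr (fun _ => q) univ (fun F : Finset (TEd n) => A4e k1 x2 (per n (↑F : Set (TEd n)))) :=
        Pr_congr (fun F _ => ⟨fun t => t h, fun t _ => t⟩)
      rw [e]
      exact pr_E4 hB.h0 hB.h1 (by omega) x2
    · exact Pr_le_one hok _ _
  have b3 : Pr (fun _ => q) (univ : Finset (TEd n)) E3 ≤ f4 q k2 := by
    unfold f4
    split_ifs with h
    · have e : Pr (fun _ => q) (univ : Finset (TEd n)) E3 =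
          Pr (fun _ => q) univ (fun F : Finset (TEd n) => A4e k2 x3 (per n (↑F : Set (TEd n)))) :=
        Pr_congr (fun F _ => ⟨fun t => t h, fun t _ => t⟩)
      rw [e]
      exact pr_E4 hB.h0 hB.h1 (by omega) x3
    · exact Pr_le_one hok _ _
  have b4 : Pr (fun _ => q) (univ : Finset (TEd n)) E4 ≤ fA C d k2 := by
    unfold fA
    split_ifs with h
    · have e : Pr (fun _ => q) (univ : Finset (TEd n)) E4 =
          Pr (fun _ => q) univ
            (fun F : Finset (TEd n) => A4a (bs x1) d k2 (per n (↑F : Set (TEd n)))) :=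
        Pr_congr (fun F _ => ⟨fun t => t h, fun t _ => t⟩)
      rw [e]
      exact pr_Aa hB (by omega) h (by omega) (bs x1)
    · exact Pr_le_one hok _ _
  have n1 := Pr_nonneg hok (univ : Finset (TEd n)) E1
  have n2 := Pr_nonneg hok (univ : Finset (TEd n)) E2
  have n3 := Pr_nonneg hok (univ : Finset (TEd n)) E3
  have n4 := Pr_nonneg hok (univ : Finset (TEd n)) E4
  show Pr (fun _ => q) (univ : Finset (TEd n)) (fun F => E1 F ∧ (E2 F ∧ (E3 F ∧ E4 F))) ≤ _
  rw [i1, i2, i3]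
  have m1 := n1.trans b1
  have m2 := n2.trans b2
  have m3 := n3.trans b3
  gcongr

end Pool.Agent.N952.AL
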