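import Pool.Agent.N952.AL.Bound
import Pool.Agent.H973R3.NC.DV

/-! The second derivative of the probability that the ends of an edge of the torus are connected
off the edge. -/

set_option autoImplicit false

namespace Pool.Agent.N952.AL

open H974 H12S H389NS H973N Finset

theorem min_half {R x : ℕ} (h : x ≤ 2 * R) :
    ((R:ℝ) + 1) ^ (-(5/2) : ℝ) ≤ 2 ^ (5/2 : ℝ) * ((x:ℝ) + 1) ^ (-(5/2) : ℝ) := by
  have e : 2 ^ (5/2 : ℝ) * ((x:ℝ) + 1) ^ (-(5/2) : ℝ) = (((x:ℝ) + 1) / 2) ^ (-(5/2) : ℝ) := by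
    rw [Real.div_rpow (by positivity) (by norm_num), Real.rpow_neg (by norm_num : (0:ℝ) ≤ 2)]
    field_simp
  rw [e]
  apply Real.rpow_le_rpow_of_nonpos (by positivity) _ (by norm_num)
  have : (x:ℝ) ≤ 2 * (R:ℝ) := by exact_mod_cast h
  linarith

/-- The bound function for three pivotal edges. -/
noncomputable def w3 (n : ℕ) (r f g : TEd n) : ℝ :=
  (td n f r + 1 : ℝ) ^ (-(5/2) : ℝ) *
      (if td n f g ≤ td n f r then ((td n f g : ℝ) + 1) ^ (-(2 * (5/8)) : ℝ) else 0) +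
    (td n g r + 1 : ℝ) ^ (-(5/2) : ℝ) *
      (if td n r f ≤ td n g r then ((td n r f : ℝ) + 1) ^ (-(2 * (5/8)) : ℝ) else 0) +
    (td n f r + 1 : ℝ) ^ (-(5/2) : ℝ) *
      (if td n r g ≤ td n f r then ((td n r g : ℝ) + 1) ^ (-(2 * (5/8)) : ℝ) else 0)

theorem w3_nonneg (n : ℕ) (r f g : TEd n) : 0 ≤ w3 n r f g := by
  unfold w3
  have h : ∀ (c : Prop) [Decidable c] (x : ℝ), 0 ≤ x → 0 ≤ if c then x else 0 := by
    intro c _ x hx
    split_ifs
    · exact hx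
    · exact le_refl 0
  refine add_nonneg (add_nonneg ?_ ?_) ?_ <;>
    exact mul_nonneg (by positivity) (h _ _ (by positivity))

theorem pr_SD {n : ℕ} [NeZero n] {b : Bool} {C q : ℝ} (hC : 1 ≤ C) (hB : Bd C q n)
    (f g : TEd n) :
    Pr (fun _ => q) ((univ : Finset (TEd n)).erase (rt n b)) (SD (TJ n b) f g) ≤
      4 * KC C * 2 ^ (5/2 : ℝ) * w3 n (rt n b) f g := by
  set r := rt n b with hr
  have hK : 0 ≤ KC C := by unfold KC; positivity
  have hnn : ∀ (c : Prop) [Decidable c] (x : ℝ), 0 ≤ x → 0 ≤ if c then x else 0 := by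
    intro c _ x hx
    split_ifs
    · exact hx
    · exact le_refl 0
  have t1 := td_tri f g r
  have t2 := td_tri g f r
  have t3 := td_tri f r g
  rw [td_comm g f] at t2
  rw [td_comm r g] at t3
  have e58 : (-(2 * (5/8)) : ℝ) = (-(5/4) : ℝ) := by norm_num
  have fin : ∀ (ρ R x : ℕ) (W : ℝ), x ≤ 2 * R →
      Pr (fun _ => q) ((univ : Finset (TEd n)).erase r) (SD (TJ n b) f g) ≤
        4 * (KC C * (((ρ : ℝ) + 1) ^ (-(5/4) : ℝ) * ((R : ℝ) + 1) ^ (-(5/2) : ℝ))) →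
      ((x : ℝ) + 1) ^ (-(5/2) : ℝ) * ((ρ : ℝ) + 1) ^ (-(5/4) : ℝ) ≤ W →
      Pr (fun _ => q) ((univ : Finset (TEd n)).erase r) (SD (TJ n b) f g) ≤
        4 * KC C * 2 ^ (5/2 : ℝ) * W := by
    intro ρ R x W hx hP hW
    refine hP.trans ?_
    have h1 := min_half hx
    calc 4 * (KC C * (((ρ : ℝ) + 1) ^ (-(5/4) : ℝ) * ((R : ℝ) + 1) ^ (-(5/2) : ℝ)))
        ≤ 4 * (KC C * (((ρ : ℝ) + 1) ^ (-(5/4) : ℝ) *
          (2 ^ (5/2 : ℝ) * ((x : ℝ) + 1) ^ (-(5/2) : ℝ)))) := by gcongr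
      _ = 4 * KC C * 2 ^ (5/2 : ℝ) *
          (((x : ℝ) + 1) ^ (-(5/2) : ℝ) * ((ρ : ℝ) + 1) ^ (-(5/4) : ℝ)) := by ring
      _ ≤ _ := by gcongr
  by_cases hA : td n f g ≤ td n f r ∧ td n f g ≤ td n g r
  · refine fin _ _ (td n f r) _ ?_ (pr_SD1 hC hB hA.1 hA.2) ?_
    · rw [← hr]; omega
    · unfold w3
      rw [if_pos hA.1, e58]
      have := hnn (td n r f ≤ td n g r) (((td n r f : ℝ) + 1) ^ (-(5/4) : ℝ)) (by positivity)
      have := hnn (td n r g ≤ td n f r) (((td n r g : ℝ) + 1) ^ (-(5/4) : ℝ)) (by positivity)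
      have h5 : ((td n f r : ℝ) + 1) ^ (-(5/2) : ℝ) * ((td n f g : ℝ) + 1) ^ (-(5/4) : ℝ) ≤
        ((td n f r : ℝ) + 1) ^ (-(5/2) : ℝ) * ((td n f g : ℝ) + 1) ^ (-(5/4) : ℝ) +
        ((td n g r : ℝ) + 1) ^ (-(5/2) : ℝ) *
          (if td n r f ≤ td n g r then ((td n r f : ℝ) + 1) ^ (-(5/4) : ℝ) else 0) +
        ((td n f r : ℝ) + 1) ^ (-(5/2) : ℝ) *
          (if td n r g ≤ td n f r then ((td n r g : ℝ) + 1) ^ (-(5/4) : ℝ) else 0) := by
        have p1 : 0 ≤ ((td n g r : ℝ) + 1) ^ (-(5/2) : ℝ) *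
          (if td n r f ≤ td n g r then ((td n r f : ℝ) + 1) ^ (-(5/4) : ℝ) else 0) := by positivity
        have p2 : 0 ≤ ((td n f r : ℝ) + 1) ^ (-(5/2) : ℝ) *
          (if td n r g ≤ td n f r then ((td n r g : ℝ) + 1) ^ (-(5/4) : ℝ) else 0) := by positivity
        linarith
      exact h5
  · by_cases hBc : td n f r ≤ td n g r ∧ td n f r ≤ td n f g
    · refine fin _ _ (td n g r) _ ?_ (pr_SD2 hC hB hBc.1 hBc.2) ?_
      · rw [← hr]; omega
      · unfold w3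
        rw [td_comm r f, if_pos hBc.1, e58]
        have p1 : 0 ≤ ((td n f r : ℝ) + 1) ^ (-(5/2) : ℝ) *
          (if td n f g ≤ td n f r then ((td n f g : ℝ) + 1) ^ (-(5/4) : ℝ) else 0) :=
          mul_nonneg (by positivity) (hnn _ _ (by positivity))
        have p2 : 0 ≤ ((td n f r : ℝ) + 1) ^ (-(5/2) : ℝ) *
          (if td n r g ≤ td n f r then ((td n r g : ℝ) + 1) ^ (-(5/4) : ℝ) else 0) :=
          mul_nonneg (by positivity) (hnn _ _ (by positivity))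
        linarith
    · have hs : Pr (fun _ => q) ((univ : Finset (TEd n)).erase r) (SD (TJ n b) f g) =
          Pr (fun _ => q) ((univ : Finset (TEd n)).erase r) (SD (TJ n b) g f) :=
        Pr_congr (fun F _ => ⟨SD_symm, SD_symm⟩)
      have h1 : td n g r ≤ td n f r := by omega
      have h2 : td n g r ≤ td n f g := by omega
      have hP := pr_SD2 (b := b) hC hB (f := g) (g := f) h1 (by rw [td_comm g f]; exact h2)
      rw [← hr, ← hs] at hP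
      refine fin _ _ (td n f r) _ ?_ hP ?_
      · rw [td_comm g f]; omega
      · unfold w3
        rw [td_comm r g, if_pos h1, e58]
        have p1 : 0 ≤ ((td n f r : ℝ) + 1) ^ (-(5/2) : ℝ) *
          (if td n f g ≤ td n f r then ((td n f g : ℝ) + 1) ^ (-(5/4) : ℝ) else 0) :=
          mul_nonneg (by positivity) (hnn _ _ (by positivity))
        have p2 : 0 ≤ ((td n g r : ℝ) + 1) ^ (-(5/2) : ℝ) *
          (if td n r f ≤ td n g r then ((td n r f : ℝ) + 1) ^ (-(5/4) : ℝ) else 0) :=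
          mul_nonneg (by positivity) (hnn _ _ (by positivity))
        linarith

theorem sum_w3 {n : ℕ} [NeZero n] (r : TEd n) :
    ∑ f : TEd n, ∑ g : TEd n, w3 n r f g ≤ 3 * (8 / (3/8)^2 * (8 / (1/8)^2)) *
      ((n:ℝ) + 1) ^ (1/4 : ℝ) := by
  have hb : ∀ f x : TEd n, (td n f r + 1 : ℝ) ^ (-(5/2) : ℝ) *
      ∑ g : TEd n, (if td n x g ≤ td n f r then ((td n x g : ℝ) + 1) ^ (-(2 * (5/8)) : ℝ) else 0) ≤
      8 / (3/8)^2 * (td n f r + 1 : ℝ) ^ (-(2 * (7/8)) : ℝ) := by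
    intro f x
    have h := sum_td (a := 5/8) (by norm_num) (by norm_num) n x (td n f r)
    have e : (td n f r + 1 : ℝ) ^ (-(2 * (7/8)) : ℝ) =
        (td n f r + 1 : ℝ) ^ (-(5/2) : ℝ) * (td n f r + 1 : ℝ) ^ (2 * (1 - 5/8) : ℝ) := by
      rw [← Real.rpow_add (by positivity)]
      norm_num
    calc _ ≤ (td n f r + 1 : ℝ) ^ (-(5/2) : ℝ) *
          (8 / (1 - 5/8) ^ 2 * ((td n f r : ℝ) + 1) ^ (2 * (1 - 5/8) : ℝ)) :=
          mul_le_mul_of_nonneg_left h (by positivity)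
      _ = 8 / (3/8)^2 * ((td n f r + 1 : ℝ) ^ (-(5/2) : ℝ) *
          (td n f r + 1 : ℝ) ^ (2 * (1 - 5/8) : ℝ)) := by
          rw [show (1 - 5/8 : ℝ) = 3/8 by norm_num]; ring
      _ = _ := by rw [e]
  have hfin : ∑ f : TEd n, (td n f r + 1 : ℝ) ^ (-(2 * (7/8)) : ℝ) ≤
      8 / (1/8)^2 * ((n:ℝ) + 1) ^ (1/4 : ℝ) := by
    have h := sum_td (a := 7/8) (by norm_num) (by norm_num) n r n
    have e : ∀ f : TEd n, (td n f r + 1 : ℝ) ^ (-(2 * (7/8)) : ℝ) =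
        (if td n r f ≤ n then ((td n r f : ℝ) + 1) ^ (-(2 * (7/8)) : ℝ) else 0) := by
      intro f
      have h1 := td_half r f
      rw [if_pos (by omega), td_comm]
    rw [sum_congr rfl (fun f _ => e f)]
    refine h.trans (le_of_eq ?_)
    norm_num
  have s1 : ∑ f : TEd n, ∑ g : TEd n, (td n f r + 1 : ℝ) ^ (-(5/2) : ℝ) *
      (if td n f g ≤ td n f r then ((td n f g : ℝ) + 1) ^ (-(2 * (5/8)) : ℝ) else 0) ≤
      8 / (3/8)^2 * (8 / (1/8)^2 * ((n:ℝ) + 1) ^ (1/4 : ℝ)) := by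
    calc _ ≤ ∑ f : TEd n, 8 / (3/8)^2 * (td n f r + 1 : ℝ) ^ (-(2 * (7/8)) : ℝ) := by
          apply sum_le_sum
          intro f _
          rw [← mul_sum]
          exact hb f f
      _ = 8 / (3/8)^2 * ∑ f : TEd n, (td n f r + 1 : ℝ) ^ (-(2 * (7/8)) : ℝ) := by rw [mul_sum]
      _ ≤ _ := by gcongr
  have s3 : ∑ f : TEd n, ∑ g : TEd n, (td n f r + 1 : ℝ) ^ (-(5/2) : ℝ) *
      (if td n r g ≤ td n f r then ((td n r g : ℝ) + 1) ^ (-(2 * (5/8)) : ℝ) else 0) ≤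
      8 / (3/8)^2 * (8 / (1/8)^2 * ((n:ℝ) + 1) ^ (1/4 : ℝ)) := by
    calc _ ≤ ∑ f : TEd n, 8 / (3/8)^2 * (td n f r + 1 : ℝ) ^ (-(2 * (7/8)) : ℝ) := by
          apply sum_le_sum
          intro f _
          rw [← mul_sum]
          exact hb f r
      _ = 8 / (3/8)^2 * ∑ f : TEd n, (td n f r + 1 : ℝ) ^ (-(2 * (7/8)) : ℝ) := by rw [mul_sum]
      _ ≤ _ := by gcongr
  unfold w3
  simp only [sum_add_distrib]
  have s2 : ∑ f : TEd n, ∑ g : TEd n, (td n g r + 1 : ℝ) ^ (-(5/2) : ℝ) *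
      (if td n r f ≤ td n g r then ((td n r f : ℝ) + 1) ^ (-(2 * (5/8)) : ℝ) else 0) ≤
      8 / (3/8)^2 * (8 / (1/8)^2 * ((n:ℝ) + 1) ^ (1/4 : ℝ)) := by
    rw [sum_comm]
    exact s3
  linarith

/-- The probability that the ends of the root edge are connected off the root edge. -/
noncomputable def cT (n : ℕ) [NeZero n] (b : Bool) (s : ℝ) : ℝ :=
  Pr (fun _ => s) ((univ : Finset (TEd n)).erase (rt n b)) (TJ n b)

/-- Its derivative. -/
noncomputable def cT1 (n : ℕ) [NeZero n] (b : Bool) (s : ℝ) : ℝ :=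
  ∑ e ∈ (univ : Finset (TEd n)).erase (rt n b),
    Pr (fun _ => s) ((univ : Finset (TEd n)).erase (rt n b)) (Pf (TJ n b) e)

theorem cT_deriv (n : ℕ) [NeZero n] (b : Bool) (s : ℝ) : HasDerivAt (cT n b) (cT1 n b s) s :=
  deriv_f _ _ (fun _ _ h hf => TJ_mono h hf) s

theorem second (C : ℝ) (hC : 1 ≤ C) : ∃ K : ℝ, 0 < K ∧ ∀ (n : ℕ) [NeZero n] (b : Bool) (q : ℝ),
    Bd C q n → ∃ D : ℝ, HasDerivAt (cT1 n b) D q ∧ |D| ≤ K * (n:ℝ) ^ (1/4 : ℝ) := by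
  set K0 : ℝ := 4 * KC C * 2 ^ (5/2 : ℝ) * (3 * (8 / (3/8)^2 * (8 / (1/8)^2))) with hK0
  have hK : 0 < KC C := by unfold KC; positivity
  have hK0p : 0 < K0 := by positivity
  refine ⟨K0 * 2, by positivity, ?_⟩
  intro n _ b q hB
  obtain ⟨D, hD, hle⟩ := deriv_T ((univ : Finset (TEd n)).erase (rt n b))
    ((univ : Finset (TEd n)).erase (rt n b)) (Finset.Subset.refl _) (TJ n b)
    (fun _ _ h hf => TJ_mono h hf) q hB.h0 hB.h1
  refine ⟨D, hD, hle.trans ?_⟩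
  have hn : 1 ≤ n := Nat.one_le_iff_ne_zero.2 (NeZero.ne n)
  have hnr : (1:ℝ) ≤ n := by exact_mod_cast hn
  calc _ ≤ ∑ e ∈ (univ : Finset (TEd n)).erase (rt n b),
        ∑ g ∈ ((univ : Finset (TEd n)).erase (rt n b)).erase e,
          4 * KC C * 2 ^ (5/2 : ℝ) * w3 n (rt n b) e g :=
        sum_le_sum fun e _ => sum_le_sum fun g _ => pr_SD hC hB e g
    _ ≤ ∑ e : TEd n, ∑ g : TEd n, 4 * KC C * 2 ^ (5/2 : ℝ) * w3 n (rt n b) e g := by
        have hnn : ∀ e g : TEd n, 0 ≤ 4 * KC C * 2 ^ (5/2 : ℝ) * w3 n (rt n b) e g := fun e g =>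
          mul_nonneg (by positivity) (w3_nonneg _ _ _ _)
        refine (sum_le_sum fun e _ => sum_le_sum_of_subset_of_nonneg (subset_univ _)
          (fun g _ _ => hnn e g)).trans ?_
        exact sum_le_sum_of_subset_of_nonneg (subset_univ _)
          (fun e _ _ => sum_nonneg fun g _ => hnn e g)
    _ = 4 * KC C * 2 ^ (5/2 : ℝ) * ∑ e : TEd n, ∑ g : TEd n, w3 n (rt n b) e g := by
        simp only [mul_sum]
    _ ≤ 4 * KC C * 2 ^ (5/2 : ℝ) * (3 * (8 / (3/8)^2 * (8 / (1/8)^2)) *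
        ((n:ℝ) + 1) ^ (1/4 : ℝ)) := by
        gcongr
        exact sum_w3 _
    _ = K0 * ((n:ℝ) + 1) ^ (1/4 : ℝ) := by rw [hK0]; ring
    _ ≤ K0 * (2 * (n:ℝ) ^ (1/4 : ℝ)) := by
        refine mul_le_mul_of_nonneg_left ?_ hK0p.le
        calc ((n:ℝ) + 1) ^ (1/4 : ℝ) ≤ (2 * (n:ℝ)) ^ (1/4 : ℝ) := by
              apply Real.rpow_le_rpow (by positivity) (by linarith) (by norm_num)
          _ = 2 ^ (1/4 : ℝ) * (n:ℝ) ^ (1/4 : ℝ) := Real.mul_rpow (by norm_num) (by positivity)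
          _ ≤ 2 * (n:ℝ) ^ (1/4 : ℝ) := by
              gcongr
              calc (2:ℝ) ^ (1/4 : ℝ) ≤ 2 ^ (1 : ℝ) :=
                    Real.rpow_le_rpow_of_exponent_le (by norm_num) (by norm_num)
                _ = 2 := Real.rpow_one 2
    _ = _ := by ring

end Pool.Agent.N952.AL
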