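import Pool.Agent.H12R2.Sep.LocP
import Pool.Agent.H974R2.Static
import Pool.Agent.H389R2.NS.A4aD

/-! The discrete torus: lifting of paths, and transfer of probabilities of local events. -/

set_option autoImplicit false

namespace Pool.Agent.N952.AL

open H974 H12S H389NS Finset

/-- Edges of the torus. -/
abbrev TEd (n : ℕ) := ZMod n × ZMod n × Bool

/-- Vertices of the torus. -/
abbrev TVt (n : ℕ) := ZMod n × ZMod n

/-- Reduction of vertices. -/
def rv (n : ℕ) (v : Vtx) : TVt n := ((v.1 : ZMod n), (v.2 : ZMod n))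

/-- Reduction of edges. -/
def rp (n : ℕ) (g : Edg) : TEd n := ((g.1 : ZMod n), (g.2.1 : ZMod n), g.2.2)

/-- First endpoint. -/
def ts (n : ℕ) (f : TEd n) : TVt n := (f.1, f.2.1)

/-- Second endpoint. -/
def tt (n : ℕ) (f : TEd n) : TVt n := if f.2.2 then (f.1 + 1, f.2.1) else (f.1, f.2.1 + 1)

theorem ts_rp (n : ℕ) (g : Edg) : ts n (rp n g) = rv n (src g) := rfl

theorem tt_rp (n : ℕ) (g : Edg) : tt n (rp n g) = rv n (tgt g) := by
  obtain ⟨x, y, b⟩ := g
  cases b
  · simp [tt, rp, rv]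
  · simp [tt, rp, rv]

/-- The periodic configuration. -/
def per (n : ℕ) (F : Set (TEd n)) : Set Edg := {g | rp n g ∈ F}

theorem per_mono {n : ℕ} {F G : Set (TEd n)} (h : F ⊆ G) : per n F ⊆ per n G := fun _ hg => h hg

/-- Connection in the torus. -/
abbrev TR (n : ℕ) (F : Set (TEd n)) (x y : TVt n) : Prop := GR (ts n) (tt n) F x y

theorem proj {n : ℕ} {F : Set (TEd n)} {u v : Vtx} (h : Reach (per n F) u v) :
    TR n F (rv n u) (rv n v) := by
  induction h with
  | refl => exact GR.refl _ _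
  | @tail v' v'' _ hs ih =>
    obtain ⟨g, hg, hcase⟩ := hs
    refine ih.tail ⟨rp n g, hg, ?_⟩
    rw [ts_rp, tt_rp]
    rcases hcase with ⟨h1, h2⟩ | ⟨h1, h2⟩
    · left; rw [h1, h2]; exact ⟨rfl, rfl⟩
    · right; rw [h1, h2]; exact ⟨rfl, rfl⟩

theorem lift {n : ℕ} {F : Set (TEd n)} {x y : TVt n} (h : TR n F x y) {u : Vtx}
    (hu : rv n u = x) : ∃ v, rv n v = y ∧ Reach (per n F) u v := by
  induction h with
  | refl => exact ⟨u, hu, Reach.refl _ _⟩
  | @tail y' y'' _ hs ih =>
    obtain ⟨v', hv', hr⟩ := ih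
    obtain ⟨⟨f1, f2, b⟩, hf, hcase⟩ := hs
    rcases hcase with ⟨h1, h2⟩ | ⟨h1, h2⟩
    · have e1 : rp n (v'.1, v'.2, b) = (f1, f2, b) := by
        rw [← hv'] at h1
        simp only [ts, rv, Prod.mk.injEq] at h1
        simp only [rp, Prod.mk.injEq, h1.1, h1.2, and_self]
      refine ⟨tgt (v'.1, v'.2, b), ?_, hr.tail ⟨(v'.1, v'.2, b), ?_, Or.inl ⟨rfl, rfl⟩⟩⟩
      · rw [← tt_rp, e1]; exact h2
      · show rp n _ ∈ F
        rw [e1]; exact hf
    · cases b
      · have e2 : rp n (v'.1, v'.2 - 1, false) = (f1, f2, false) := by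
          rw [← hv'] at h2
          simp only [tt, rv, Prod.mk.injEq, Bool.false_eq_true, if_false] at h2
          simp only [rp, Prod.mk.injEq, Int.cast_sub, Int.cast_one, and_true]
          exact ⟨h2.1.symm, by rw [← h2.2]; ring⟩
        refine ⟨src (v'.1, v'.2 - 1, false), ?_, hr.tail ⟨(v'.1, v'.2 - 1, false), ?_,
          Or.inr ⟨rfl, ?_⟩⟩⟩
        · rw [← ts_rp, e2]; exact h1
        · show rp n _ ∈ F
          rw [e2]; exact hf
        · rw [tgt_false]; simp
      · have e2 : rp n (v'.1 - 1, v'.2, true) = (f1, f2, true) := by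
          rw [← hv'] at h2
          simp only [tt, rv, Prod.mk.injEq, if_true] at h2
          simp only [rp, Prod.mk.injEq, Int.cast_sub, Int.cast_one, and_true]
          exact ⟨by rw [← h2.1]; ring, h2.2.symm⟩
        refine ⟨src (v'.1 - 1, v'.2, true), ?_, hr.tail ⟨(v'.1 - 1, v'.2, true), ?_,
          Or.inr ⟨rfl, ?_⟩⟩⟩
        · rw [← ts_rp, e2]; exact h1
        · show rp n _ ∈ F
          rw [e2]; exact hf
        · rw [tgt_true]; simp

/-! ### Probabilities -/

section Img

variable {E E' : Type*} [DecidableEq E] [DecidableEq E']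

theorem Ex_image (p : E' → ℝ) (φ : E → E') (S : Finset E) (h : Set.InjOn φ S)
    (f : Finset E' → ℝ) :
    Ex p (S.image φ) f = Ex (fun e => p (φ e)) S (fun F => f (F.image φ)) := by
  induction S using Finset.induction_on generalizing f with
  | empty => simp [Ex_empty]
  | insert a S ha ih =>
    have h' : Set.InjOn φ S := h.mono (by simp)
    have hna : φ a ∉ S.image φ := by
      intro hc
      rw [Finset.mem_image] at hc
      obtain ⟨b, hb, hab⟩ := hc
      have : b = a := h (by simp [hb]) (by simp) hab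
      exact ha (this ▸ hb)
    rw [Finset.image_insert, Ex_insert p hna, Ex_insert _ ha, ih h', ih h']
    simp only [Finset.image_insert]

theorem Pr_image (p : E' → ℝ) (φ : E → E') (S : Finset E) (h : Set.InjOn φ S)
    (A : Finset E' → Prop) :
    Pr p (S.image φ) A = Pr (fun e => p (φ e)) S (fun F => A (F.image φ)) :=
  Ex_image p φ S h _

end Img

/-- The configuration of the torus seen in the set `S`. -/
def pull (n : ℕ) (S : Finset Edg) (F : Finset (TEd n)) : Finset Edg :=
  S.filter (fun g => rp n g ∈ F)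

theorem mem_pull {n : ℕ} {S : Finset Edg} {F : Finset (TEd n)} {g : Edg} :
    g ∈ pull n S F ↔ g ∈ S ∧ rp n g ∈ F := by
  unfold pull
  rw [Finset.mem_filter]

theorem pull_inter {n : ℕ} {S : Finset Edg} {F : Finset (TEd n)} :
    pull n S F = pull n S (F ∩ S.image (rp n)) := by
  ext g
  rw [mem_pull, mem_pull, Finset.mem_inter]
  constructor
  · rintro ⟨h1, h2⟩
    exact ⟨h1, h2, Finset.mem_image_of_mem _ h1⟩
  · rintro ⟨h1, h2, _⟩
    exact ⟨h1, h2⟩

theorem pull_image {n : ℕ} {S Y : Finset Edg} (h : Set.InjOn (rp n) S) (hY : Y ⊆ S) :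
    pull n S (Y.image (rp n)) = Y := by
  ext g
  rw [mem_pull, Finset.mem_image]
  constructor
  · rintro ⟨h1, y, hy, h2⟩
    have : y = g := h (by simpa using hY hy) (by simpa using h1) h2
    exact this ▸ hy
  · intro hg
    exact ⟨hY hg, g, hg, rfl⟩

theorem per_inter {n : ℕ} {S : Finset Edg} {F : Finset (TEd n)} :
    per n (↑F) ∩ (↑S : Set Edg) = ↑(pull n S F) := by
  ext g
  rw [Finset.mem_coe, mem_pull]
  constructor
  · rintro ⟨h1, h2⟩
    exact ⟨h2, h1⟩
  · rintro ⟨h1, h2⟩
    exact ⟨h2, h1⟩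

/-- Probabilities of local events are those of the plane. -/
theorem Pr_pull {n : ℕ} (q : ℝ) {S : Finset Edg} (h : Set.InjOn (rp n) S) {U : Finset (TEd n)}
    (hU : S.image (rp n) ⊆ U) (A : Finset Edg → Prop) :
    Pr (fun _ => q) U (fun F => A (pull n S F)) = PQ q S A := by
  rw [Pr_local hU (fun F _ => by rw [← pull_inter]), Pr_image _ _ _ h]
  apply Pr_congr
  intro Y hY
  rw [pull_image h hY]

end Pool.Agent.N952.AL
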