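import Pool.Agent.N952.AL.Geo
import Pool.Agent.H973R3.NC.Defs
import Pool.Agent.H973R3.NC.A4L

/-! Three pivotal edges in the torus: local events. -/

set_option autoImplicit false

namespace Pool.Agent.N952.AL

open H974 H12S H389NS H973N Finset

/-- The root edge. -/
abbrev rt (n : ℕ) (b : Bool) : TEd n := rp n (e0 b)

/-- The ends of the root edge are connected. -/
def TJ (n : ℕ) (b : Bool) (F : Finset (TEd n)) : Prop :=
  TR n (↑F : Set (TEd n)) (ts n (rt n b)) (tt n (rt n b))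

theorem TJ_mono {n : ℕ} {b : Bool} {F G : Finset (TEd n)} (h : F ⊆ G) (hF : TJ n b F) :
    TJ n b G := GR.mono (by exact_mod_cast h) hF

theorem rp_bs {n : ℕ} (x : Edg) : rp n ((bs x).1, (bs x).2, x.2.2) = rp n x := rfl

theorem A4e_agree {n k : ℕ} {x : Edg} {F G : Set (TEd n)}
    (h : ∀ g ∈ blk (bs x) k, g ≠ x → (rp n g ∈ F ↔ rp n g ∈ G)) :
    A4e k x (per n F) → A4e k x (per n G) := by
  intro hA
  unfold A4e at hA ⊢
  exact (A4_congr (fun g hg hne => h g hg hne)).1 hA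

theorem A4a_agree {n d k : ℕ} {c : ℤ × ℤ} {F G : Set (TEd n)}
    (h : ∀ g ∈ blk c k \ blk c d, (rp n g ∈ F ↔ rp n g ∈ G)) :
    A4a c d k (per n F) → A4a c d k (per n G) := by
  have e1 : per n F ∩ ↑(blk c k \ blk c d) = per n G ∩ ↑(blk c k \ blk c d) := by
    ext g
    constructor
    · rintro ⟨h1, h2⟩
      exact ⟨(h g (Finset.mem_coe.1 h2)).1 h1, h2⟩
    · rintro ⟨h1, h2⟩
      exact ⟨(h g (Finset.mem_coe.1 h2)).2 h1, h2⟩
  intro hA
  unfold A4a at hA ⊢
  rwa [e1] at hA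

theorem self_blk {k : ℕ} (hk : 1 ≤ k) (x : Edg) : x ∈ blk (bs x) k :=
  mem_blk_of (by simpa using (by omega : 0 < k)) (by simpa using (by omega : 0 < k))

/-- Local event at a pivotal edge. -/
theorem loc_edge {n : ℕ} [NeZero n] {b : Bool} {k : ℕ} (hk : 1 ≤ k) (hn : 2 * k < n) {x : Edg}
    {g : TEd n} (h1 : k < td n (rp n x) g) (h2 : k < td n (rp n x) (rt n b))
    {F F1 : Finset (TEd n)} (hF1 : ∀ h, h ≠ g → (h ∈ F1 ↔ h ∈ F))
    (hP : Pf (TJ n b) (rp n x) F1) : A4e k x (per n ↑F) := by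
  obtain ⟨p1, p2⟩ := hP
  unfold TJ at p1 p2
  rw [Finset.coe_erase] at p2
  have e1 : (↑(insert (rp n x) F1) : Set (TEd n)) = insert (rp n x) (↑F1 \ {rp n x}) := by
    rw [Finset.coe_insert, Set.insert_sdiff_singleton]
  rw [e1] at p1
  have ho := out_of_td (n := n) (c := bs x) (b := x.2.2) (f := rt n b) (k := k) h2
  refine A4e_agree ?_ (E4_piv hk (fun h => h.2 rfl) ho.1 ho.2 p1 p2)
  intro g' hg' hne
  have n1 : rp n g' ≠ g := notin_blk (n := n) (c := bs x) (b := x.2.2) h1 hg'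
  have n2 : rp n g' ≠ rp n x := fun he => hne (inj_blk hn hg' (self_blk hk x) he)
  constructor
  · intro h
    exact Finset.mem_coe.2 ((hF1 _ n1).1 (Finset.mem_coe.1 h.1))
  · intro h
    exact ⟨Finset.mem_coe.2 ((hF1 _ n1).2 (Finset.mem_coe.1 h)), n2⟩

/-- Local event at the root. -/
theorem loc_root {n : ℕ} [NeZero n] {b : Bool} {k : ℕ} (hk : 1 ≤ k)
    {f g : TEd n} (h1 : k < td n (rt n b) f) (h2 : k < td n (rt n b) g)
    {F : Finset (TEd n)} (hF : rt n b ∉ F)
    (p1 : TJ n b (insert f (insert g F))) (p2 : ¬ TJ n b ((F.erase f).erase g)) :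
    A4e k (e0 b) (per n ↑F) := by
  have hf : rt n b ≠ f := by
    rintro rfl
    simp [td, nz] at h1
  have hg : rt n b ≠ g := by
    rintro rfl
    simp [td, nz] at h2
  have n1 : ∀ g' ∈ blk (bs (e0 b)) k, rp n g' ≠ f := fun g' hg' =>
    notin_blk (n := n) (c := bs (e0 b)) (b := b) h1 hg'
  have n2 : ∀ g' ∈ blk (bs (e0 b)) k, rp n g' ≠ g := fun g' hg' =>
    notin_blk (n := n) (c := bs (e0 b)) (b := b) h2 hg'
  have r1 : rp n (e0 b) ∉ (↑(insert f (insert g F)) : Set (TEd n)) := by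
    rw [Finset.mem_coe, Finset.mem_insert, Finset.mem_insert]
    rintro (h | h | h)
    · exact hf h
    · exact hg h
    · exact hF h
  have r2 : rp n (e0 b) ∉ (↑((F.erase f).erase g) : Set (TEd n)) := by
    rw [Finset.mem_coe, Finset.mem_erase, Finset.mem_erase]
    rintro ⟨_, _, h⟩
    exact hF h
  unfold TJ at p1 p2
  rw [ts_rp, tt_rp] at p1 p2
  refine A4e_agree ?_ (E4_root (F := ↑(insert f (insert g F))) (G := ↑((F.erase f).erase g)) hk r2
    r1 ?_ p1 p2)
  · intro g' hg' _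
    rw [Finset.mem_coe, Finset.mem_coe, Finset.mem_erase, Finset.mem_erase]
    constructor
    · exact fun h => h.2.2
    · exact fun h => ⟨n2 _ hg', n1 _ hg', h⟩
  · intro g' hg'
    rw [Finset.mem_coe, Finset.mem_coe, Finset.mem_erase, Finset.mem_erase, Finset.mem_insert,
      Finset.mem_insert]
    have m1 := n1 _ hg'
    have m2 := n2 _ hg'
    tauto

/-- Annulus around two close edges. -/
theorem loc_annA {n : ℕ} [NeZero n] {b : Bool} {d k : ℕ} (hd : d ≤ k) (hn : 2 * k < n)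
    {x y : Edg} (hx : x ∈ blk (bs x) d) (hy : y ∈ blk (bs x) d)
    (h2 : k < td n (rp n x) (rt n b)) {F : Finset (TEd n)}
    (p1 : TJ n b (insert (rp n x) (insert (rp n y) F)))
    (p2 : ¬ TJ n b ((F.erase (rp n x)).erase (rp n y))) :
    A4a (bs x) d k (per n ↑F) := by
  have ho := out_of_td (n := n) (c := bs x) (b := x.2.2) (f := rt n b) (k := k) h2
  refine A4a_of hd hn ho.1 ho.2 (GR.mono ?_ p1) (fun h => p2 (GR.mono ?_ h))
  · intro h hh
    rw [Finset.mem_coe, Finset.mem_insert, Finset.mem_insert] at hh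
    rcases hh with rfl | rfl | hh
    · exact Or.inr ⟨x, hx, rfl⟩
    · exact Or.inr ⟨y, hy, rfl⟩
    · exact Or.inl hh
  · rintro h ⟨hh, hB⟩
    rw [Finset.mem_coe, Finset.mem_erase, Finset.mem_erase]
    refine ⟨?_, ?_, hh⟩
    · rintro rfl; exact hB ⟨y, hy, rfl⟩
    · rintro rfl; exact hB ⟨x, hx, rfl⟩

/-- Annulus around the root and a close edge. -/
theorem loc_annB {n : ℕ} [NeZero n] {b : Bool} {d k : ℕ} (hd1 : 1 ≤ d) (hd : d ≤ k)
    (hn : 2 * k < n) {x : Edg} {g : TEd n} (hx : x ∈ blk (bs (e0 b)) d)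
    (h2 : k < td n (rt n b) g) {F F2 : Finset (TEd n)}
    (hF2 : ∀ h, h ≠ rp n x → (h ∈ F2 ↔ h ∈ F)) (hP : Pf (TJ n b) g F2) :
    A4a (bs (e0 b)) d k (per n ↑F) := by
  obtain ⟨p1, p2⟩ := hP
  unfold TJ at p1 p2
  rw [Finset.coe_erase] at p2
  have e1 : (↑(insert g F2) : Set (TEd n)) = insert g (↑F2 \ {g}) := by
    rw [Finset.coe_insert, Set.insert_sdiff_singleton]
  rw [e1] at p1
  have ho := out_of_td (n := n) (c := bs (e0 b)) (b := b) (f := g) (k := k) h2
  set G : Set (TEd n) := ↑F2 \ {g} with hG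
  have hr : TR n (G ∪ rp n '' ↑(blk (bs (e0 b)) d)) (ts n (rt n b)) (tt n (rt n b)) :=
    GAdj.gr ⟨rt n b, Or.inr ⟨e0 b, self_blk hd1 _, rfl⟩, Or.inl ⟨rfl, rfl⟩⟩
  have hm : G ⊆ G ∪ rp n '' ↑(blk (bs (e0 b)) d) := Set.subset_union_left
  have key : A4a (bs (e0 b)) d k (per n G) := by
    rcases GR_insert.mp p1 with h | ⟨h, h'⟩ | ⟨h, h'⟩
    · exact absurd h p2
    · refine A4a_of hd hn ho.1 ho.2 ?_ ?_
      · exact (h.symm.mono hm).trans (hr.trans (h'.symm.mono hm))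
      · intro hc
        exact p2 (h.trans ((hc.mono Set.sdiff_subset).trans h'))
    · refine A4a_of hd hn ho.1 ho.2 ?_ ?_
      · exact (h'.mono hm).trans (hr.symm.trans (h.mono hm))
      · intro hc
        exact p2 (h.trans ((hc.symm.mono Set.sdiff_subset).trans h'))
  refine A4a_agree ?_ key
  intro g' hg'
  rw [Finset.mem_sdiff] at hg'
  have n1 : rp n g' ≠ g := notin_blk (n := n) (c := bs (e0 b)) (b := b) h2 hg'.1
  have n2 : rp n g' ≠ rp n x := by
    intro he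
    have hxk : x ∈ blk (bs (e0 b)) k :=
      RE_subset (by omega) (by omega) (by omega) (by omega) hx
    have := inj_blk hn hg'.1 hxk he
    exact hg'.2 (this ▸ hx)
  constructor
  · intro h
    exact Finset.mem_coe.2 ((hF2 _ n2).1 (Finset.mem_coe.1 h.1))
  · intro h
    exact ⟨Finset.mem_coe.2 ((hF2 _ n2).2 (Finset.mem_coe.1 h)), n1⟩

/-- The local events for the edges `x1`, `x2` (close) and `x3` (far). -/
def Ev (n ρ R : ℕ) (x1 x2 x3 : Edg) (F : Finset (TEd n)) : Prop :=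
  (1 ≤ ρ / 4 → A4e (ρ / 4) x1 (per n ↑F)) ∧ (1 ≤ ρ / 4 → A4e (ρ / 4) x2 (per n ↑F)) ∧
    (1 ≤ R / 4 → A4e (R / 4) x3 (per n ↑F)) ∧
    (2 * ρ + 2 ≤ R / 4 → A4a (bs x1) (2 * ρ + 2) (R / 4) (per n ↑F))

theorem SD_symm {E : Type*} [DecidableEq E] {f : Finset E → Prop} {e g : E} {F : Finset E}
    (h : SD f e g F) : SD f g e F := by
  obtain ⟨h1, h2, h3, h4⟩ := h
  refine ⟨h2, h1, ?_, ?_⟩
  · rwa [Finset.insert_comm]
  · rwa [Finset.erase_right_comm]

/-- Case A: the closest pair does not contain the root. -/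
theorem caseA {n : ℕ} [NeZero n] {b : Bool} {ρ R : ℕ} (hρR : ρ ≤ R) (hR : R ≤ n / 2)
    {x y : Edg} (hxy1 : |x.1 - y.1| ≤ ρ) (hxy2 : |x.2.1 - y.2.1| ≤ ρ)
    (h1 : ρ ≤ td n (rp n x) (rp n y)) (h2 : R ≤ td n (rp n x) (rt n b))
    (h3 : R ≤ td n (rp n y) (rt n b)) {F : Finset (TEd n)} (hF : rt n b ∉ F)
    (h : SD (TJ n b) (rp n x) (rp n y) F) : Ev n ρ R x y (e0 b) F := by
  have hn : 1 ≤ n := Nat.one_le_iff_ne_zero.2 (NeZero.ne n)
  obtain ⟨s1, s2, s3, s4⟩ := h
  refine ⟨fun hk => ?_, fun hk => ?_, fun hk => ?_, fun hk => ?_⟩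
  · rcases s1 with s1 | s1
    · exact loc_edge hk (by omega) (g := rp n y) (by omega) (by omega)
        (fun h hh => by rw [Finset.mem_erase]; exact ⟨fun t => t.2, fun t => ⟨hh, t⟩⟩) s1
    · exact loc_edge hk (by omega) (g := rp n y) (by omega) (by omega)
        (fun h hh => by rw [Finset.mem_insert]; exact ⟨fun t => t.resolve_left hh, Or.inr⟩) s1
  · rw [td_comm] at h1
    rcases s2 with s2 | s2
    · exact loc_edge hk (by omega) (g := rp n x) (by omega) (by omega)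
        (fun h hh => by rw [Finset.mem_erase]; exact ⟨fun t => t.2, fun t => ⟨hh, t⟩⟩) s2
    · exact loc_edge hk (by omega) (g := rp n x) (by omega) (by omega)
        (fun h hh => by rw [Finset.mem_insert]; exact ⟨fun t => t.resolve_left hh, Or.inr⟩) s2
  · rw [td_comm] at h2 h3
    exact loc_root hk (by omega) (by omega) hF s3 s4
  · refine loc_annA hk (by omega) (self_blk (by omega) x) (mem_blk_of ?_ ?_) (by omega) s3 s4
    · exact lt_of_le_of_lt hxy1 (by push_cast; omega)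
    · exact lt_of_le_of_lt hxy2 (by push_cast; omega)

/-- Case B: the closest pair contains the root. -/
theorem caseB {n : ℕ} [NeZero n] {b : Bool} {ρ R : ℕ} (hρR : ρ ≤ R) (hR : R ≤ n / 2)
    {x y : Edg} (hx1 : |x.1| ≤ ρ) (hx2 : |x.2.1| ≤ ρ)
    (h1 : ρ ≤ td n (rp n x) (rt n b)) (h2 : R ≤ td n (rp n y) (rt n b))
    (h3 : R ≤ td n (rp n x) (rp n y)) {F : Finset (TEd n)} (hF : rt n b ∉ F)
    (h : SD (TJ n b) (rp n x) (rp n y) F) : Ev n ρ R (e0 b) x y F := by
  have hn : 1 ≤ n := Nat.one_le_iff_ne_zero.2 (NeZero.ne n)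
  obtain ⟨s1, s2, s3, s4⟩ := h
  refine ⟨fun hk => ?_, fun hk => ?_, fun hk => ?_, fun hk => ?_⟩
  · rw [td_comm] at h1 h2
    exact loc_root hk (by omega) (by omega) hF s3 s4
  · rcases s1 with s1 | s1
    · exact loc_edge hk (by omega) (g := rp n y) (by omega) (by omega)
        (fun h hh => by rw [Finset.mem_erase]; exact ⟨fun t => t.2, fun t => ⟨hh, t⟩⟩) s1
    · exact loc_edge hk (by omega) (g := rp n y) (by omega) (by omega)
        (fun h hh => by rw [Finset.mem_insert]; exact ⟨fun t => t.resolve_left hh, Or.inr⟩) s1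
  · rw [td_comm] at h3
    rcases s2 with s2 | s2
    · exact loc_edge hk (by omega) (g := rp n x) (by omega) (by omega)
        (fun h hh => by rw [Finset.mem_erase]; exact ⟨fun t => t.2, fun t => ⟨hh, t⟩⟩) s2
    · exact loc_edge hk (by omega) (g := rp n x) (by omega) (by omega)
        (fun h hh => by rw [Finset.mem_insert]; exact ⟨fun t => t.resolve_left hh, Or.inr⟩) s2
  · rw [td_comm] at h2
    have hxb : x ∈ blk (bs (e0 b)) (2 * ρ + 2) := by
      apply mem_blk_of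
      · show |(0:ℤ) - x.1| < _
        rw [zero_sub, abs_neg]
        exact lt_of_le_of_lt hx1 (by push_cast; omega)
      · show |(0:ℤ) - x.2.1| < _
        rw [zero_sub, abs_neg]
        exact lt_of_le_of_lt hx2 (by push_cast; omega)
    rcases s2 with s2 | s2
    · exact loc_annB (by omega) hk (by omega) hxb (by omega)
        (fun h hh => by rw [Finset.mem_erase]; exact ⟨fun t => t.2, fun t => ⟨hh, t⟩⟩) s2
    · exact loc_annB (by omega) hk (by omega) hxb (by omega)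
        (fun h hh => by rw [Finset.mem_insert]; exact ⟨fun t => t.resolve_left hh, Or.inr⟩) s2

end Pool.Agent.N952.AL
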